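import Mathlib

-- part Pool.Agent.P.MP_260cc8_ag.af.Gr
section

/-!
Graded modules over a polynomial ring with weighted variables, given by projections.
-/

namespace Pool.Agent.P.MP_260cc8_ag.af

open MvPolynomial

variable {k : Type} [Field k] {σ : Type} {Γ : Type} [AddCommGroup Γ]

/-- A grading of the module `M` by projections. -/
structure Gr (k : Type) [Field k] (w : σ → Γ) (M : Type) [AddCommGroup M]
    [Module (MvPolynomial σ k) M] [Module k M] where
  π : Γ → M →ₗ[k] M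
  same : ∀ d m, π d (π d m) = π d m
  ne : ∀ d e m, d ≠ e → π d (π e m) = 0
  sum : ∀ m, ∃ s : Finset Γ, ∑ d ∈ s, π d m = m
  smul : ∀ e (p : MvPolynomial σ k), IsWeightedHomogeneous w p e →
    ∀ d m, π (e + d) (p • m) = p • π d m

section basic

variable {w : σ → Γ} {M : Type} [AddCommGroup M] [Module (MvPolynomial σ k) M] [Module k M]
  {N : Type} [AddCommGroup N] [Module (MvPolynomial σ k) N] [Module k N]

theorem poly_sum (w : σ → Γ) (p : MvPolynomial σ k) :
    ∃ s : Finset Γ, ∑ d ∈ s, weightedHomogeneousComponent w d p = p := by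
  classical
  refine ⟨(weightedHomogeneousComponent_finsupp (w := w) p).toFinset, ?_⟩
  conv_rhs => rw [← sum_weightedHomogeneousComponent w p]
  rw [finsum_eq_sum _ (weightedHomogeneousComponent_finsupp p)]

theorem Gr.smul_hom (G : Gr k w M) {e d : Γ} {p : MvPolynomial σ k}
    (hp : IsWeightedHomogeneous w p e) {m : M} (hm : G.π d m = m) :
    G.π (e + d) (p • m) = p • m := by
  rw [G.smul e p hp, hm]

theorem Gr.π_of_ne (G : Gr k w M) {e d : Γ} {m : M} (hm : G.π d m = m) (h : e ≠ d) :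
    G.π e m = 0 := by
  rw [← hm, G.ne e d m h]

theorem Gr.π_smul (G : Gr k w M) (e : Γ) {d : Γ} (p : MvPolynomial σ k) {m : M}
    (hm : G.π d m = m) :
    G.π (e + d) (p • m) = weightedHomogeneousComponent w e p • m := by
  classical
  obtain ⟨s, hs⟩ := poly_sum w p
  have h1 : ∀ e' : Γ, G.π (e + d) (weightedHomogeneousComponent w e' p • m) =
      if e' = e then weightedHomogeneousComponent w e p • m else 0 := by
    intro e'
    have h2 := G.smul_hom (weightedHomogeneousComponent_isWeightedHomogeneous e' p) hm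
    split_ifs with h
    · subst h; exact h2
    · exact G.π_of_ne h2 (fun h' => h (add_right_cancel h').symm)
  conv_lhs => rw [← hs]
  rw [Finset.sum_smul, map_sum]
  simp only [h1, Finset.sum_ite_eq']
  split_ifs with h
  · rfl
  · have : weightedHomogeneousComponent w e p = 0 := by
      conv_lhs => rw [← hs]
      rw [map_sum]
      refine Finset.sum_eq_zero fun e' he' => ?_
      exact (weightedHomogeneousComponent_isWeightedHomogeneous e' p).weightedHomogeneousComponent_ne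
        e (fun h' => h (h' ▸ he'))
    rw [this, zero_smul]

/-- Graded submodules. -/
def Gr.Sub (G : Gr k w M) (U : Submodule (MvPolynomial σ k) M) : Prop :=
  ∀ d m, m ∈ U → G.π d m ∈ U

theorem Gr.sub_top (G : Gr k w M) : G.Sub ⊤ := fun _ _ _ => Submodule.mem_top

theorem Gr.sub_bot (G : Gr k w M) : G.Sub ⊥ := fun d m hm => by
  rw [Submodule.mem_bot] at hm ⊢
  rw [hm, map_zero]

theorem Gr.Sub.inf {G : Gr k w M} {U V : Submodule (MvPolynomial σ k) M} (hU : G.Sub U)
    (hV : G.Sub V) : G.Sub (U ⊓ V) := fun d m hm => ⟨hU d m hm.1, hV d m hm.2⟩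

theorem Gr.Sub.sup {G : Gr k w M} {U V : Submodule (MvPolynomial σ k) M} (hU : G.Sub U)
    (hV : G.Sub V) : G.Sub (U ⊔ V) := fun d m hm => by
  obtain ⟨a, ha, b, hb, rfl⟩ := Submodule.mem_sup.mp hm
  rw [map_add]
  exact Submodule.add_mem_sup (hU d a ha) (hV d b hb)

/-- `f` is homogeneous of degree `e`. -/
def Gr.Map (G : Gr k w M) (G' : Gr k w N) (e : Γ) (f : M →ₗ[MvPolynomial σ k] N) : Prop :=
  ∀ d m, G'.π (e + d) (f m) = f (G.π d m)

theorem Gr.Map.comap {G : Gr k w M} {G' : Gr k w N} {e : Γ} {f : M →ₗ[MvPolynomial σ k] N}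
    (hf : G.Map G' e f) {V : Submodule (MvPolynomial σ k) N} (hV : G'.Sub V) :
    G.Sub (V.comap f) := fun d m hm => by
  rw [Submodule.mem_comap] at hm ⊢
  rw [← hf]
  exact hV _ _ hm

theorem Gr.Map.map {G : Gr k w M} {G' : Gr k w N} {e : Γ} {f : M →ₗ[MvPolynomial σ k] N}
    (hf : G.Map G' e f) {U : Submodule (MvPolynomial σ k) M} (hU : G.Sub U) :
    G'.Sub (U.map f) := by
  rintro d _ ⟨m, hm, rfl⟩
  refine ⟨G.π (d - e) m, hU _ _ hm, ?_⟩
  rw [← hf]
  congr 2
  abel

theorem Gr.Map.ker {G : Gr k w M} {G' : Gr k w N} {e : Γ} {f : M →ₗ[MvPolynomial σ k] N}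
    (hf : G.Map G' e f) : G.Sub (LinearMap.ker f) := hf.comap G'.sub_bot

theorem Gr.sub_span (G : Gr k w M) {ι : Type} [Fintype ι] (v : ι → M) (D : ι → Γ)
    (hv : ∀ i, G.π (D i) (v i) = v i) :
    G.Sub (Submodule.span (MvPolynomial σ k) (Set.range v)) := by
  intro d m hm
  obtain ⟨c, rfl⟩ := (Submodule.mem_span_range_iff_exists_fun _).mp hm
  rw [map_sum]
  refine Submodule.sum_mem _ fun i _ => ?_
  have := G.π_smul (d - D i) (c i) (hv i)
  rw [sub_add_cancel] at this
  rw [this]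
  exact Submodule.smul_mem _ _ (Submodule.subset_span ⟨i, rfl⟩)

theorem Gr.exists_gens (G : Gr k w M) [IsNoetherian (MvPolynomial σ k) M]
    {U : Submodule (MvPolynomial σ k) M} (hU : G.Sub U) :
    ∃ (n : ℕ) (v : Fin n → M) (D : Fin n → Γ), (∀ i, G.π (D i) (v i) = v i) ∧
      Submodule.span (MvPolynomial σ k) (Set.range v) = U := by
  classical
  have h1 : Submodule.span (MvPolynomial σ k) {m | m ∈ U ∧ ∃ d, G.π d m = m} = U := by
    apply le_antisymm
    · exact Submodule.span_le.mpr fun m hm => hm.1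
    · intro m hm
      obtain ⟨s, hs⟩ := G.sum m
      rw [← hs]
      exact Submodule.sum_mem _ fun d _ => Submodule.subset_span ⟨hU d m hm, d, G.same d m⟩
  have h2 : (Submodule.span (MvPolynomial σ k) {m | m ∈ U ∧ ∃ d, G.π d m = m}).FG :=
    IsNoetherian.noetherian _
  obtain ⟨t, ht, ht'⟩ := (Submodule.fg_span_iff_fg_span_finset_subset _).mp h2
  have h3 : ∀ m : t, ∃ d, G.π d (m : M) = m := fun m => (ht m.2).2
  choose D hD using h3
  refine ⟨t.card, fun i => (t.equivFin.symm i : M), fun i => D (t.equivFin.symm i),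
    fun i => hD _, ?_⟩
  rw [← h1, ht']
  congr 1
  ext m
  constructor
  · rintro ⟨i, rfl⟩
    exact (t.equivFin.symm i).2
  · intro hm
    exact ⟨t.equivFin ⟨m, hm⟩, by simp⟩

theorem mem_span_X_of_pos {T : Set σ} (l : Γ →+ ℤ) (hT : ∀ s, s ∉ T → l (w s) ≤ 0)
    {p : MvPolynomial σ k} {e : Γ} (hp : IsWeightedHomogeneous w p e) (he : 0 < l e) :
    p ∈ Ideal.span (X '' T : Set (MvPolynomial σ k)) := by
  rw [mem_ideal_span_X_image]
  intro m hm
  by_contra hcon
  push Not at hcon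
  have h1 : Finsupp.weight w m = e := hp (mem_support_iff.mp hm)
  rw [← h1, Finsupp.weight_apply, Finsupp.sum, map_sum] at he
  refine absurd he (not_lt.mpr (Finset.sum_nonpos fun s hs => ?_))
  have h2 : s ∉ T := fun h => (Finsupp.mem_support_iff.mp hs) (hcon s h)
  rw [map_nsmul]
  exact nsmul_nonpos (hT s h2) _

theorem Gr.van (G : Gr k w M) [IsNoetherian (MvPolynomial σ k) M]
    {U U' : Submodule (MvPolynomial σ k) M} (hU : G.Sub U) {T : Set σ} (l : Γ →+ ℤ)
    (hT : ∀ s, s ∉ T → l (w s) ≤ 0)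
    (h : ∀ s ∈ T, ∀ m ∈ U, (X s : MvPolynomial σ k) • m ∈ U') :
    ∃ a : ℤ, ∀ d, a < l d → ∀ m ∈ U, G.π d m = m → m ∈ U' := by
  obtain ⟨n, v, D, hv, rfl⟩ := G.exists_gens hU
  obtain ⟨a, ha⟩ := (Set.finite_range fun i => l (D i)).bddAbove
  refine ⟨a, fun d hd m hm hm' => ?_⟩
  obtain ⟨c, rfl⟩ := (Submodule.mem_span_range_iff_exists_fun _).mp hm
  rw [← hm', map_sum]
  refine Submodule.sum_mem _ fun i _ => ?_
  have h1 := G.π_smul (d - D i) (c i) (hv i)
  rw [sub_add_cancel] at h1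
  rw [h1]
  have h2 : l (D i) ≤ a := ha ⟨i, rfl⟩
  have h3 := mem_span_X_of_pos (k := k) l hT
    (weightedHomogeneousComponent_isWeightedHomogeneous (d - D i) (c i))
    (by rw [map_sub]; omega)
  generalize weightedHomogeneousComponent w (d - D i) (c i) = p at h3
  induction h3 using Submodule.span_induction with
  | mem x hx =>
    obtain ⟨s, hs, rfl⟩ := hx
    exact h s hs _ (Submodule.subset_span ⟨i, rfl⟩)
  | zero => rw [zero_smul]; exact U'.zero_mem
  | add x y _ _ hx hy => rw [add_smul]; exact U'.add_mem hx hy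
  | smul r x _ hx => rw [smul_eq_mul, mul_smul]; exact U'.smul_mem _ hx

end basic

/-- The grading of the ring itself. -/
noncomputable def selfGr (k : Type) [Field k] (w : σ → Γ) : Gr k w (MvPolynomial σ k) where
  π d := weightedHomogeneousComponent w d
  same d m :=
    (weightedHomogeneousComponent_isWeightedHomogeneous d m).weightedHomogeneousComponent_same
  ne d e m h :=
    (weightedHomogeneousComponent_isWeightedHomogeneous e m).weightedHomogeneousComponent_ne d h
  sum m := poly_sum w m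
  smul e p hp d m := by
    classical
    obtain ⟨s, hs⟩ := poly_sum w m
    have h1 : ∀ d' : Γ, weightedHomogeneousComponent w (e + d)
        (p * weightedHomogeneousComponent w d' m) =
        p * weightedHomogeneousComponent w d (weightedHomogeneousComponent w d' m) := by
      intro d'
      have h2 := weightedHomogeneousComponent_isWeightedHomogeneous (w := w) d' m
      by_cases h : d = d'
      · subst h
        rw [h2.weightedHomogeneousComponent_same, (hp.mul h2).weightedHomogeneousComponent_same]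
      · rw [h2.weightedHomogeneousComponent_ne d h, mul_zero,
          (hp.mul h2).weightedHomogeneousComponent_ne _ (fun h' => h (add_left_cancel h'))]
    rw [smul_eq_mul, smul_eq_mul]
    conv_lhs => rw [← hs]
    conv_rhs => rw [← hs]
    rw [Finset.mul_sum, map_sum, map_sum, Finset.mul_sum]
    exact Finset.sum_congr rfl fun d' _ => h1 d'

theorem selfGr_iff {w : σ → Γ} {d : Γ} {p : MvPolynomial σ k} :
    (selfGr k w).π d p = p ↔ IsWeightedHomogeneous w p d :=
  ⟨fun h => h ▸ weightedHomogeneousComponent_isWeightedHomogeneous d p,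
    fun h => h.weightedHomogeneousComponent_same⟩

section cons

variable {w : σ → Γ} {M : Type} [AddCommGroup M] [Module (MvPolynomial σ k) M] [Module k M]

/-- Finite products with shifts. -/
noncomputable def Gr.pi (G : Gr k w M) {ι : Type} [Fintype ι] (D : ι → Γ) : Gr k w (ι → M) where
  π d := LinearMap.pi fun i => (G.π (D i + d)).comp (LinearMap.proj i)
  same d m := funext fun i => G.same _ _
  ne d e m h := funext fun i => G.ne _ _ _ (fun h' => h (add_left_cancel h'))
  sum m := by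
    classical
    choose s hs using fun i => G.sum (m i)
    refine ⟨Finset.univ.biUnion fun i => (s i).image fun d => d - D i, funext fun i => ?_⟩
    rw [Finset.sum_apply]
    change ∑ d ∈ _, G.π (D i + d) (m i) = m i
    have h1 : ∑ d ∈ (s i).image (fun d => d - D i), G.π (D i + d) (m i) = m i := by
      rw [Finset.sum_image (fun a _ b _ h => sub_left_injective h)]
      simp only [add_sub_cancel]
      exact hs i
    conv_rhs => rw [← h1]
    symm
    refine Finset.sum_subset (Finset.subset_biUnion_of_mem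
      (fun i => (s i).image fun d => d - D i) (Finset.mem_univ i)) fun d _ hd => ?_
    rw [← hs i, map_sum]
    refine Finset.sum_eq_zero fun e he => G.ne _ _ _ fun h => hd ?_
    exact Finset.mem_image.mpr ⟨e, he, by rw [← h]; abel⟩
  smul e p hp d m := funext fun i => by
    change G.π (D i + (e + d)) (p • m i) = p • G.π (D i + d) (m i)
    rw [← G.smul e p hp]
    congr 2
    abel

theorem Gr.pi_apply (G : Gr k w M) {ι : Type} [Fintype ι] (D : ι → Γ) (d : Γ) (m : ι → M)
    (i : ι) : (G.pi D).π d m i = G.π (D i + d) (m i) := rfl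

variable [IsScalarTower k (MvPolynomial σ k) M]

/-- Quotients by graded submodules. -/
noncomputable def Gr.quot (G : Gr k w M) (U : Submodule (MvPolynomial σ k) M) (hU : G.Sub U) :
    Gr k w (M ⧸ U) where
  π d :=
    { toFun := QuotientAddGroup.map U.toAddSubgroup U.toAddSubgroup (G.π d).toAddMonoidHom
        (fun m hm => hU d m hm)
      map_add' := fun a b => map_add _ a b
      map_smul' := fun c a => by
        obtain ⟨m, rfl⟩ := U.mkQ_surjective a
        change Submodule.Quotient.mk (G.π d (c • m)) = Submodule.Quotient.mk (c • G.π d m)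
        rw [map_smul] }
  same d a := by
    obtain ⟨m, rfl⟩ := U.mkQ_surjective a
    change Submodule.Quotient.mk (G.π d (G.π d m)) = Submodule.Quotient.mk (G.π d m)
    rw [G.same]
  ne d e a h := by
    obtain ⟨m, rfl⟩ := U.mkQ_surjective a
    change Submodule.Quotient.mk (G.π d (G.π e m)) = 0
    rw [G.ne d e m h]
    rfl
  sum a := by
    obtain ⟨m, rfl⟩ := U.mkQ_surjective a
    obtain ⟨s, hs⟩ := G.sum m
    refine ⟨s, ?_⟩
    conv_rhs => rw [← hs, map_sum]
    rfl
  smul e p hp d a := by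
    obtain ⟨m, rfl⟩ := U.mkQ_surjective a
    change Submodule.Quotient.mk (G.π (e + d) (p • m)) = Submodule.Quotient.mk (p • G.π d m)
    rw [G.smul e p hp]

theorem Gr.map_mkQ (G : Gr k w M) (U : Submodule (MvPolynomial σ k) M) (hU : G.Sub U) :
    G.Map (G.quot U hU) 0 U.mkQ := fun d m => by
  rw [zero_add]
  rfl

end cons

end Pool.Agent.P.MP_260cc8_ag.af
end

-- part Pool.Agent.P.MP_260cc8_ag.af.Kill
section

/-!
Dimensions of graded pieces, and the relation they satisfy on a module killed by `x.y`.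
-/

namespace Pool.Agent.P.MP_260cc8_ag.af

open MvPolynomial

variable {k : Type} [Field k]

section dim

variable {σ : Type} {Γ : Type} [AddCommGroup Γ] {w : σ → Γ}
  {M : Type} [AddCommGroup M] [Module (MvPolynomial σ k) M] [Module k M]
  [IsScalarTower k (MvPolynomial σ k) M]
  {N : Type} [AddCommGroup N] [Module (MvPolynomial σ k) N] [Module k N]
  [IsScalarTower k (MvPolynomial σ k) N]

/-- The piece of degree `d` of a submodule. -/
noncomputable def Gr.pc (G : Gr k w M) (U : Submodule (MvPolynomial σ k) M) (d : Γ) : Submodule k M :=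
  U.restrictScalars k ⊓ LinearMap.eqLocus (G.π d) LinearMap.id

theorem Gr.mem_pc {G : Gr k w M} {U : Submodule (MvPolynomial σ k) M} {d : Γ} {m : M} :
    m ∈ G.pc U d ↔ m ∈ U ∧ G.π d m = m := Iff.rfl

/-- The dimension of the piece of degree `d`. -/
noncomputable def Gr.h (G : Gr k w M) (U : Submodule (MvPolynomial σ k) M) (d : Γ) : ℤ :=
  Module.finrank k (G.pc U d)

/-- All pieces have finite dimension. -/
def Gr.Fd (G : Gr k w M) : Prop := ∀ d, FiniteDimensional k (G.pc ⊤ d)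

theorem Gr.Fd.pc {G : Gr k w M} (hG : G.Fd) (U : Submodule (MvPolynomial σ k) M) (d : Γ) :
    FiniteDimensional k (G.pc U d) :=
  haveI := hG d
  Submodule.finiteDimensional_of_le (S₂ := G.pc ⊤ d) fun _ hm => ⟨Submodule.mem_top, hm.2⟩

theorem Gr.h_zero (G : Gr k w M) {U : Submodule (MvPolynomial σ k) M} {d : Γ}
    (h : ∀ m ∈ U, G.π d m = m → m = 0) : G.h U d = 0 := by
  have : G.pc U d = ⊥ := by
    rw [eq_bot_iff]
    intro m hm
    exact h m hm.1 hm.2
  rw [Gr.h, this, finrank_bot]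
  rfl

theorem Gr.h_rank {G : Gr k w M} {G' : Gr k w N} (hG : G.Fd) {e : Γ}
    {f : M →ₗ[MvPolynomial σ k] N} (hf : G.Map G' e f) {U : Submodule (MvPolynomial σ k) M}
    {V : Submodule (MvPolynomial σ k) N} (hU : G.Sub U) (hUV : ∀ m ∈ U, f m ∈ V) (d : Γ)
    (hs : ∀ n ∈ V, G'.π (e + d) n = n → n ∈ U.map f) :
    G.h U d = G'.h V (e + d) + G.h (U ⊓ LinearMap.ker f) d := by
  have := hG.pc U d
  let g : G.pc U d →ₗ[k] G'.pc V (e + d) :=
    (f.restrictScalars k).restrict fun m hm => ⟨hUV m hm.1, by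
      change G'.π (e + d) (f m) = f m
      rw [hf, hm.2]; rfl⟩
  have h1 : LinearMap.range g = ⊤ := by
    rw [eq_top_iff]
    rintro ⟨n, hn⟩ -
    obtain ⟨m, hm, rfl⟩ := hs n hn.1 hn.2
    refine ⟨⟨G.π d m, hU d m hm, G.same d m⟩, Subtype.ext ?_⟩
    change f (G.π d m) = f m
    rw [← hf]
    exact hn.2
  have h2 : (LinearMap.ker g).map (G.pc U d).subtype = G.pc (U ⊓ LinearMap.ker f) d := by
    ext m
    constructor
    · rintro ⟨⟨m, hm⟩, h, rfl⟩
      exact ⟨⟨hm.1, congrArg Subtype.val h⟩, hm.2⟩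
    · intro hm
      exact ⟨⟨m, hm.1.1, hm.2⟩, Subtype.ext hm.1.2, rfl⟩
  have h3 := g.finrank_range_add_finrank_ker
  rw [h1, finrank_top] at h3
  rw [Gr.h, Gr.h, Gr.h, ← h2, Submodule.finrank_map_subtype_eq, ← h3]
  push_cast
  rfl

theorem Gr.Fd.quot {G : Gr k w M} (hG : G.Fd) (U : Submodule (MvPolynomial σ k) M)
    (hU : G.Sub U) : (G.quot U hU).Fd := by
  intro d
  have := hG d
  have : (G.quot U hU).pc ⊤ d = (G.pc ⊤ d).map (U.mkQ.restrictScalars k) := by
    ext a
    constructor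
    · intro ha
      obtain ⟨m, rfl⟩ := U.mkQ_surjective a
      exact ⟨G.π d m, ⟨Submodule.mem_top, G.same d m⟩, ha.2⟩
    · rintro ⟨m, hm, rfl⟩
      refine ⟨Submodule.mem_top, ?_⟩
      have h := G.map_mkQ U hU d m
      rw [zero_add, show G.π d m = m from hm.2] at h
      exact h
  rw [this]
  infer_instance

/-- The pieces of a product. -/
noncomputable def Gr.piEquiv (G : Gr k w M) {ι : Type} [Fintype ι] (D : ι → Γ)
    (U : Submodule (MvPolynomial σ k) M) (d : Γ) :
    (G.pi D).pc (Submodule.pi Set.univ fun _ => U) d ≃ₗ[k] ∀ i, G.pc U (D i + d) where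
  toFun v i := ⟨v.1 i, v.2.1 i (Set.mem_univ i), congrFun v.2.2 i⟩
  invFun v := ⟨fun i => (v i).1, fun i _ => (v i).2.1, funext fun i => (v i).2.2⟩
  map_add' _ _ := rfl
  map_smul' _ _ := rfl
  left_inv _ := rfl
  right_inv _ := rfl

theorem Gr.Fd.pi {G : Gr k w M} (hG : G.Fd) {ι : Type} [Fintype ι] (D : ι → Γ) :
    (G.pi D).Fd := by
  intro d
  have := fun i => hG (D i + d)
  have h := (G.piEquiv D ⊤ d).symm.finiteDimensional
  rwa [Submodule.pi_top] at h

theorem Gr.h_pi {G : Gr k w M} (hG : G.Fd) {ι : Type} [Fintype ι] (D : ι → Γ)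
    (U : Submodule (MvPolynomial σ k) M) (d : Γ) :
    (G.pi D).h (Submodule.pi Set.univ fun _ => U) d = ∑ i, G.h U (D i + d) := by
  have := fun i => hG.pc U (D i + d)
  rw [Gr.h, (G.piEquiv D U d).finrank_eq, Module.finrank_pi_fintype]
  push_cast
  rfl

omit [IsScalarTower k (MvPolynomial σ k) M] in
theorem Gr.Sub.pi {G : Gr k w M} {ι : Type} [Fintype ι] (D : ι → Γ)
    {U : Submodule (MvPolynomial σ k) M} (hU : G.Sub U) :
    (G.pi D).Sub (Submodule.pi Set.univ fun _ => U) :=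
  fun _ _ hm i hi => hU _ _ (hm i hi)

end dim

/-- The polynomial ring in eight variables. -/
abbrev PP (k : Type) [Field k] := MvPolynomial (Fin 8) k

/-- Tri-degrees. -/
abbrev Dg := ℤ × ℤ × ℤ

/-- The tri-degrees of the variables. -/
def wt : Fin 8 → Dg :=
  ![(1, 0, 0), (1, 0, 0), (1, 0, 0), (0, 1, 0), (0, 1, 0), (0, 1, 0), (0, 0, 1), (0, 0, 1)]

/-- The pairing of the first three variables with the next three. -/
noncomputable def qq (k : Type) [Field k] : PP k := X 0 * X 3 + X 1 * X 4 + X 2 * X 5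

section kill

variable {M : Type} [AddCommGroup M] [Module (PP k) M]

/-- `m ↦ (a_i m)`. -/
noncomputable def vecL (a : Fin 3 → PP k) : M →ₗ[PP k] (Fin 3 → M) :=
  LinearMap.pi fun i => a i • LinearMap.id

/-- `m ↦ a.m`. -/
noncomputable def dotL (a : Fin 3 → PP k) : (Fin 3 → M) →ₗ[PP k] M :=
  a 0 • LinearMap.proj 0 + a 1 • LinearMap.proj 1 + a 2 • LinearMap.proj 2

/-- The cross product with `a`. -/
noncomputable def crossL (a : Fin 3 → PP k) : (Fin 3 → M) →ₗ[PP k] (Fin 3 → M) :=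
  LinearMap.pi ![a 1 • LinearMap.proj 2 - a 2 • LinearMap.proj 1,
    a 2 • LinearMap.proj 0 - a 0 • LinearMap.proj 2,
    a 0 • LinearMap.proj 1 - a 1 • LinearMap.proj 0]

theorem vecL_apply (a : Fin 3 → PP k) (m : M) (i : Fin 3) : vecL a m i = a i • m := rfl

theorem dotL_apply (a : Fin 3 → PP k) (m : Fin 3 → M) :
    dotL a m = a 0 • m 0 + a 1 • m 1 + a 2 • m 2 := rfl

theorem crossL_0 (a : Fin 3 → PP k) (m : Fin 3 → M) : crossL a m 0 = a 1 • m 2 - a 2 • m 1 := rfl

theorem crossL_1 (a : Fin 3 → PP k) (m : Fin 3 → M) : crossL a m 1 = a 2 • m 0 - a 0 • m 2 := rfl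

theorem crossL_2 (a : Fin 3 → PP k) (m : Fin 3 → M) : crossL a m 2 = a 0 • m 1 - a 1 • m 0 := rfl

theorem ext3 {α : Type} {u v : Fin 3 → α} (h0 : u 0 = v 0) (h1 : u 1 = v 1) (h2 : u 2 = v 2) :
    u = v := by
  funext i
  fin_cases i
  exacts [h0, h1, h2]

theorem smul_of_cross (a : Fin 3 → PP k) (m : Fin 3 → M) (h : crossL a m = 0) (i : Fin 3) :
    vecL a (m i) = a i • m := by
  have h0 : a 1 • m 2 - a 2 • m 1 = 0 := congrFun h 0
  have h1 : a 2 • m 0 - a 0 • m 2 = 0 := congrFun h 1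
  have h2 : a 0 • m 1 - a 1 • m 0 = 0 := congrFun h 2
  rw [sub_eq_zero] at h0 h1 h2
  fin_cases i <;> apply ext3 <;> simp [vecL_apply, h0, h1, h2]

variable [Module k M]

theorem map_vecL (G : Gr k wt M) {a : Fin 3 → PP k} {e : Dg}
    (ha : ∀ i, IsWeightedHomogeneous wt (a i) e) : G.Map (G.pi fun _ => 0) e (vecL a) := by
  intro d m
  funext i
  rw [Gr.pi_apply, zero_add, vecL_apply, vecL_apply, G.smul e _ (ha i)]

theorem map_dotL (G : Gr k wt M) {a : Fin 3 → PP k} {e : Dg}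
    (ha : ∀ i, IsWeightedHomogeneous wt (a i) e) : (G.pi fun _ => 0).Map G e (dotL a) := by
  intro d m
  simp only [dotL_apply, map_add, Gr.pi_apply, zero_add, G.smul e _ (ha _)]

theorem map_crossL (G : Gr k wt M) {a : Fin 3 → PP k} {e : Dg}
    (ha : ∀ i, IsWeightedHomogeneous wt (a i) e) :
    (G.pi fun _ => 0).Map (G.pi fun _ => 0) e (crossL a) := by
  intro d m
  apply ext3 <;>
    simp only [crossL_0, crossL_1, crossL_2, map_sub, Gr.pi_apply, zero_add, G.smul e _ (ha _)]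

/-- The first three variables. -/
noncomputable def xx (k : Type) [Field k] : Fin 3 → PP k := ![X 0, X 1, X 2]

/-- The next three variables. -/
noncomputable def yy (k : Type) [Field k] : Fin 3 → PP k := ![X 3, X 4, X 5]

theorem xx_hom (i : Fin 3) : IsWeightedHomogeneous wt (xx k i) (1, 0, 0) := by
  fin_cases i <;> exact isWeightedHomogeneous_X k wt _

theorem yy_hom (i : Fin 3) : IsWeightedHomogeneous wt (yy k i) (0, 1, 0) := by
  fin_cases i <;> exact isWeightedHomogeneous_X k wt _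

theorem van_x {N : Type} [AddCommGroup N] [Module (PP k) N] [Module k N] (G : Gr k wt N)
    [IsNoetherian (PP k) N] {U U' : Submodule (PP k) N} (hU : G.Sub U)
    (h : ∀ i, ∀ m ∈ U, xx k i • m ∈ U') :
    ∃ a : ℤ, ∀ d : Dg, a < d.1 → ∀ m ∈ U, G.π d m = m → m ∈ U' := by
  refine G.van (T := {0, 1, 2}) hU (AddMonoidHom.fst ℤ (ℤ × ℤ)) ?_ ?_
  · intro s hs
    fin_cases s <;> simp [wt] at hs ⊢
  · rintro s (rfl | rfl | rfl)
    exacts [h 0, h 1, h 2]

theorem van_y {N : Type} [AddCommGroup N] [Module (PP k) N] [Module k N] (G : Gr k wt N)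
    [IsNoetherian (PP k) N] {U U' : Submodule (PP k) N} (hU : G.Sub U)
    (h : ∀ i, ∀ m ∈ U, yy k i • m ∈ U') :
    ∃ a : ℤ, ∀ d : Dg, a < d.2.1 → ∀ m ∈ U, G.π d m = m → m ∈ U' := by
  refine G.van (T := {3, 4, 5}) hU
    ((AddMonoidHom.fst ℤ ℤ).comp (AddMonoidHom.snd ℤ (ℤ × ℤ))) ?_ ?_
  · intro s hs
    fin_cases s <;> simp [wt] at hs ⊢
  · rintro s (rfl | rfl | rfl)
    exacts [h 0, h 1, h 2]

variable [IsScalarTower k (PP k) M]

/-- The combination of values of a Hilbert function. -/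
def cmb (h : Dg → ℤ) (d : Dg) : ℤ :=
  h ((1, 0, 0) + d) - 3 * h d + h (d - (0, 1, 0)) + h (d - (1, 0, 0) + (0, 1, 0))

theorem kill (G : Gr k wt M) [IsNoetherian (PP k) M] (hG : G.Fd) {U : Submodule (PP k) M}
    (hU : G.Sub U) (hq : ∀ m ∈ U, qq k • m = 0) :
    ∃ a : ℤ, ∀ d : Dg, a < d.1 → a < d.2.1 → cmb (G.h U) d = 0 := by
  let G3 := G.pi fun _ : Fin 3 => (0 : Dg)
  let U3 : Submodule (PP k) (Fin 3 → M) := Submodule.pi Set.univ fun _ => U
  have hU3 : G3.Sub U3 := hU.pi _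
  have hG3 : G3.Fd := hG.pi _
  let Z1 := U3 ⊓ LinearMap.ker (crossL (xx k))
  let Z2 := U3 ⊓ LinearMap.ker (dotL (xx k))
  have hZ1 : G3.Sub Z1 := hU3.inf (map_crossL G xx_hom).ker
  have hZ2 : G3.Sub Z2 := hU3.inf (map_dotL G xx_hom).ker
  let Z3 := Z2 ⊓ LinearMap.ker (crossL (yy k))
  have hZ3 : G3.Sub Z3 := hZ2.inf (map_crossL G yy_hom).ker
  let W := Z1 ⊓ LinearMap.ker (dotL (yy k))
  have hW : G3.Sub W := hZ1.inf (map_dotL G yy_hom).ker
  have q1 : ∀ m ∈ U, dotL (yy k) (vecL (xx k) m) = 0 := by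
    intro m hm
    rw [← hq m hm]
    simp only [dotL_apply, vecL_apply, xx, yy, qq, Matrix.cons_val_zero, Matrix.cons_val_one,
      Matrix.cons_val]
    module
  have q2 : ∀ m ∈ U, dotL (xx k) (vecL (yy k) m) = 0 := by
    intro m hm
    rw [← hq m hm]
    simp only [dotL_apply, vecL_apply, xx, yy, qq, Matrix.cons_val_zero, Matrix.cons_val_one,
      Matrix.cons_val]
    module
  have v3 : ∀ (a : Fin 3 → PP k), ∀ m ∈ U, vecL a m ∈ U3 := fun a m hm i _ => U.smul_mem _ hm
  have cv : ∀ (a : Fin 3 → PP k) (m : M), crossL a (vecL a m) = 0 := by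
    intro a m
    apply ext3 <;> simp only [crossL_0, crossL_1, crossL_2, vecL_apply, Pi.zero_apply] <;> module
  obtain ⟨a1, h1⟩ := van_x G (U' := U3.map (dotL (xx k))) hU (by
    intro i m hm
    refine ⟨Pi.single i m, fun j _ => ?_, ?_⟩
    · by_cases h : j = i
      · subst h; simpa using hm
      · simp [Pi.single_eq_of_ne h]
    · fin_cases i <;> simp [dotL_apply])
  obtain ⟨a2, h2⟩ := van_x G (U' := ⊥) (hU.inf (map_vecL G xx_hom).ker)
    (fun i m hm => congrFun hm.2 i)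
  obtain ⟨a3, h3⟩ := van_x G3 (U' := U.map (vecL (xx k))) hZ1
    (fun i m hm => ⟨m i, hm.1 i trivial, smul_of_cross _ m hm.2 i⟩)
  obtain ⟨a4, h4⟩ := van_y G (U' := ⊥) (hU.inf (map_vecL G yy_hom).ker)
    (fun i m hm => congrFun hm.2 i)
  obtain ⟨a5, h5⟩ := van_y G3 (U' := U.map (vecL (yy k))) hZ3
    (fun i m hm => ⟨m i, hm.1.1 i trivial, smul_of_cross _ m hm.2 i⟩)
  obtain ⟨a6, h6⟩ := van_y G3 (U' := Z2.map (crossL (yy k))) hW (by
    intro i m hm
    have c0 : xx k 1 • m 2 - xx k 2 • m 1 = 0 := congrFun hm.1.2 0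
    have c1 : xx k 2 • m 0 - xx k 0 • m 2 = 0 := congrFun hm.1.2 1
    have c2 : xx k 0 • m 1 - xx k 1 • m 0 = 0 := congrFun hm.1.2 2
    have c3 : yy k 0 • m 0 + yy k 1 • m 1 + yy k 2 • m 2 = 0 := hm.2
    have m0 : m 0 ∈ U := hm.1.1 0 trivial
    have m1 : m 1 ∈ U := hm.1.1 1 trivial
    have m2 : m 2 ∈ U := hm.1.1 2 trivial
    fin_cases i
    · refine ⟨![0, m 2, -m 1], ⟨fun j _ => ?_, ?_⟩, ?_⟩
      · fin_cases j <;> simp [m1, m2]
      · change xx k 0 • (0 : M) + xx k 1 • m 2 + xx k 2 • (-m 1) = 0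
        linear_combination (norm := module) c0
      · apply ext3
        · change yy k 1 • (-m 1) - yy k 2 • m 2 = yy k 0 • m 0
          linear_combination (norm := module) -c3
        · change yy k 2 • (0 : M) - yy k 0 • (-m 1) = yy k 0 • m 1
          module
        · change yy k 0 • m 2 - yy k 1 • (0 : M) = yy k 0 • m 2
          module
    · refine ⟨![-m 2, 0, m 0], ⟨fun j _ => ?_, ?_⟩, ?_⟩
      · fin_cases j <;> simp [m0, m2]
      · change xx k 0 • (-m 2) + xx k 1 • (0 : M) + xx k 2 • m 0 = 0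
        linear_combination (norm := module) c1
      · apply ext3
        · change yy k 1 • m 0 - yy k 2 • (0 : M) = yy k 1 • m 0
          module
        · change yy k 2 • (-m 2) - yy k 0 • m 0 = yy k 1 • m 1
          linear_combination (norm := module) -c3
        · change yy k 0 • (0 : M) - yy k 1 • (-m 2) = yy k 1 • m 2
          module
    · refine ⟨![m 1, -m 0, 0], ⟨fun j _ => ?_, ?_⟩, ?_⟩
      · fin_cases j <;> simp [m0, m1]
      · change xx k 0 • m 1 + xx k 1 • (-m 0) + xx k 2 • (0 : M) = 0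
        linear_combination (norm := module) c2
      · apply ext3
        · change yy k 1 • (0 : M) - yy k 2 • (-m 0) = yy k 2 • m 0
          module
        · change yy k 2 • m 1 - yy k 0 • (0 : M) = yy k 2 • m 1
          module
        · change yy k 0 • (-m 0) - yy k 1 • m 1 = yy k 2 • m 2
          linear_combination (norm := module) -c3)
  refine ⟨max (max (max a1 a2) (max a3 a4)) (max a5 a6) + 1, fun d hd hd' => ?_⟩
  have e1 := Gr.h_rank hG3 (map_dotL G xx_hom) hU3 (V := U) (fun m hm => by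
      rw [dotL_apply]
      exact U.add_mem (U.add_mem (U.smul_mem _ (hm 0 trivial)) (U.smul_mem _ (hm 1 trivial)))
        (U.smul_mem _ (hm 2 trivial))) d
    (h1 _ (by simp only [Prod.fst_add]; omega))
  have e0 := Gr.h_pi hG (fun _ : Fin 3 => (0 : Dg)) U d
  have hx1 : ∀ m ∈ U, vecL (xx k) m ∈ Z1 := fun m hm => ⟨v3 _ m hm, cv _ m⟩
  have dd : (1, 0, 0) + (d - (1, 0, 0) + (0, 1, 0)) = ((0, 1, 0) : Dg) + d := by abel
  have e2 := Gr.h_rank hG (map_vecL G xx_hom) hU hx1 (d - (1, 0, 0) + (0, 1, 0))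
    (h3 _ (by rw [dd]; simp only [Prod.fst_add]; omega))
  have z2 := G.h_zero (h2 (d - (1, 0, 0) + (0, 1, 0))
    (by simp only [Prod.fst_add, Prod.fst_sub]; omega))
  have e3 := Gr.h_rank hG3 (map_crossL G yy_hom) hZ2 (V := Z1) (by
      intro m hm
      have m0 : m 0 ∈ U := hm.1 0 trivial
      have m1 : m 1 ∈ U := hm.1 1 trivial
      have m2 : m 2 ∈ U := hm.1 2 trivial
      have c3 : xx k 0 • m 0 + xx k 1 • m 1 + xx k 2 • m 2 = 0 := hm.2
      have t0 := hq _ m0
      have t1 := hq _ m1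
      have t2 := hq _ m2
      have hqq : qq k = xx k 0 * yy k 0 + xx k 1 * yy k 1 + xx k 2 * yy k 2 := rfl
      rw [hqq] at t0 t1 t2
      refine ⟨fun j _ => ?_, ?_⟩
      · fin_cases j
        · exact U.sub_mem (U.smul_mem _ m2) (U.smul_mem _ m1)
        · exact U.sub_mem (U.smul_mem _ m0) (U.smul_mem _ m2)
        · exact U.sub_mem (U.smul_mem _ m1) (U.smul_mem _ m0)
      · change crossL (xx k) (crossL (yy k) m) = 0
        apply ext3 <;> simp only [crossL_0, crossL_1, crossL_2, Pi.zero_apply]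
        · linear_combination (norm := module) yy k 0 • c3 - t0
        · linear_combination (norm := module) yy k 1 • c3 - t1
        · linear_combination (norm := module) yy k 2 • c3 - t2) d (by
      intro n hn hn'
      refine h6 _ (by simp only [Prod.snd_add, Prod.fst_add]; omega) n ⟨hn, ?_⟩ hn'
      obtain ⟨m, hm, rfl⟩ := h3 _ (by simp only [Prod.fst_add]; omega) n hn hn'
      exact q1 m hm)
  have dd' : (0, 1, 0) + (d - (0, 1, 0)) = d := by abel
  have e4 := Gr.h_rank hG (map_vecL G yy_hom) hU (V := Z3)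
    (fun m hm => ⟨⟨v3 _ m hm, q2 m hm⟩, cv _ m⟩) (d - (0, 1, 0))
    (h5 _ (by rw [dd']; omega))
  have z4 := G.h_zero (h4 (d - (0, 1, 0))
    (by simp only [Prod.snd_sub, Prod.fst_sub]; omega))
  rw [dd] at e2
  rw [dd'] at e4
  simp only [zero_add, Finset.sum_const, Finset.card_univ, Fintype.card_fin, nsmul_eq_mul,
    Nat.cast_ofNat] at e0
  change G3.h U3 d = _ at e0
  change G3.h U3 d = _ + G3.h Z2 d at e1
  change _ = G3.h Z1 _ + _ at e2
  change G3.h Z2 d = G3.h Z1 _ + G3.h Z3 d at e3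
  change _ = G3.h Z3 d + _ at e4
  rw [cmb]
  omega

theorem kill_pair (G : Gr k wt M) [IsNoetherian (PP k) M] (hG : G.Fd)
    {U U' : Submodule (PP k) M} (hU : G.Sub U) (hU' : G.Sub U') (hle : U' ≤ U)
    (hq : ∀ m ∈ U, qq k • m ∈ U') :
    ∃ a : ℤ, ∀ d : Dg, a < d.1 → a < d.2.1 → cmb (G.h U) d = cmb (G.h U') d := by
  obtain ⟨a, ha⟩ := kill (G.quot U' hU') (hG.quot U' hU') ((G.map_mkQ U' hU').map hU) (by
    rintro _ ⟨m, hm, rfl⟩
    rw [← map_smul, Submodule.mkQ_apply, Submodule.Quotient.mk_eq_zero]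
    exact hq m hm)
  have h : ∀ d, G.h U d = (G.quot U' hU').h (U.map U'.mkQ) d + G.h U' d := by
    intro d
    have := Gr.h_rank hG (G.map_mkQ U' hU') hU (V := U.map U'.mkQ)
      (fun m hm => Submodule.mem_map_of_mem hm) d (fun n hn _ => hn)
    rwa [zero_add, Submodule.ker_mkQ, inf_eq_right.mpr hle] at this
  refine ⟨a, fun d h1 h2 => ?_⟩
  have := ha d h1 h2
  simp only [cmb, h] at this ⊢
  omega

end kill

end Pool.Agent.P.MP_260cc8_ag.af
end

-- part Pool.Agent.P.MP_260cc8_ag.af.FFR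
section

/-!
The graded syzygy theorem.
-/

namespace Pool.Agent.P.MP_260cc8_ag.af

open MvPolynomial

variable {k : Type} [Field k] {σ : Type} {Γ : Type} [AddCommGroup Γ]

/-- Homogeneous matrices. -/
def PM (w : σ → Γ) {ι κ : Type} (D : ι → Γ) (D' : κ → Γ)
    (ψ : Matrix ι κ (MvPolynomial σ k)) : Prop :=
  ∀ i j, IsWeightedHomogeneous w (ψ i j) (D i - D' j)

/-- The grading of a free module with shifts. -/
noncomputable abbrev fr (k : Type) [Field k] (w : σ → Γ) {ι : Type} [Fintype ι] (D : ι → Γ) :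
    Gr k w (ι → MvPolynomial σ k) := (selfGr k w).pi D

theorem PM.map {w : σ → Γ} {ι κ : Type} [Fintype ι] [Fintype κ] {D : ι → Γ} {D' : κ → Γ}
    {ψ : Matrix ι κ (MvPolynomial σ k)} (h : PM w D D' ψ) :
    (fr k w D').Map (fr k w D) 0 ψ.mulVecLin := by
  intro d m
  funext i
  rw [Gr.pi_apply, zero_add, Matrix.mulVecLin_apply, Matrix.mulVecLin_apply, Matrix.mulVec,
    Matrix.mulVec, dotProduct, dotProduct, map_sum]
  refine Finset.sum_congr rfl fun j _ => ?_
  have := (selfGr k w).smul _ _ (h i j) (D' j + d) (m j)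
  rw [show D i - D' j + (D' j + d) = D i + d by abel] at this
  exact this

/-- Vectors with entries in the ideal spanned by the variables in `J`. -/
noncomputable def IJ (k : Type) [Field k] (J : Set σ) (n : ℕ) :
    Submodule (MvPolynomial σ k) (Fin n → MvPolynomial σ k) :=
  Submodule.pi Set.univ fun _ => Ideal.span (X '' J : Set (MvPolynomial σ k))

theorem mem_IJ {J : Set σ} {n : ℕ} {v : Fin n → MvPolynomial σ k} :
    v ∈ IJ k J n ↔ ∀ i, v i ∈ Ideal.span (X '' J : Set (MvPolynomial σ k)) :=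
  ⟨fun h i => h i trivial, fun h i _ => h i⟩

theorem IJ_sub (w : σ → Γ) (J : Set σ) {n : ℕ} (D : Fin n → Γ) : (fr k w D).Sub (IJ k J n) := by
  classical
  intro d v hv
  rw [mem_IJ] at hv ⊢
  intro i
  have h := hv i
  rw [mem_ideal_span_X_image] at h ⊢
  intro m hm
  refine h m ?_
  rw [mem_support_iff] at hm ⊢
  intro h0
  apply hm
  change coeff m (weightedHomogeneousComponent w (D i + d) (v i)) = 0
  rw [coeff_weightedHomogeneousComponent, h0, ite_self]

theorem IJ_mulVec {J : Set σ} {n n' : ℕ} (ψ : Matrix (Fin n) (Fin n') (MvPolynomial σ k))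
    {v : Fin n' → MvPolynomial σ k} (hv : v ∈ IJ k J n') : ψ.mulVec v ∈ IJ k J n := by
  rw [mem_IJ] at hv ⊢
  intro i
  rw [Matrix.mulVec, dotProduct]
  exact Ideal.sum_mem _ fun j _ => Ideal.mul_mem_left _ _ (hv j)

theorem IJ_mono {J J' : Set σ} (h : J ⊆ J') (n : ℕ) : IJ k J n ≤ IJ k J' n := fun _ hv =>
  mem_IJ.mpr fun i => Ideal.span_mono (Set.image_mono h) (mem_IJ.mp hv i)

theorem IJ_sat {J : Set σ} {z : σ} (hz : z ∉ J) {n : ℕ} {v : Fin n → MvPolynomial σ k}
    (hv : (X z : MvPolynomial σ k) • v ∈ IJ k J n) : v ∈ IJ k J n := by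
  classical
  rw [mem_IJ] at hv ⊢
  intro i
  have h := hv i
  rw [mem_ideal_span_X_image] at h ⊢
  intro m hm
  obtain ⟨s, hs, h1⟩ := h (Finsupp.single z 1 + m) (by
    rw [mem_support_iff] at hm ⊢
    rwa [Pi.smul_apply, smul_eq_mul, coeff_X_mul])
  refine ⟨s, hs, ?_⟩
  have : z ≠ s := fun h => hz (h ▸ hs)
  rwa [Finsupp.add_apply, Finsupp.single_eq_of_ne this.symm, zero_add] at h1

theorem IJ_insert {J : Set σ} {z : σ} {n : ℕ} {v : Fin n → MvPolynomial σ k}
    (hv : v ∈ IJ k (insert z J) n) :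
    ∃ v', v - (X z : MvPolynomial σ k) • v' ∈ IJ k J n := by
  have h : ∀ i, ∃ a, v i - X z * a ∈ Ideal.span (X '' J : Set (MvPolynomial σ k)) := by
    intro i
    have h1 := mem_IJ.mp hv i
    rw [Set.image_insert_eq, Ideal.mem_span_insert] at h1
    obtain ⟨a, b, hb, h1⟩ := h1
    refine ⟨a, ?_⟩
    rw [h1, mul_comm, add_sub_cancel_left]
    exact hb
  choose a ha using h
  exact ⟨a, mem_IJ.mpr ha⟩

theorem smul_mem_IJ {J : Set σ} {z : σ} {n : ℕ} (v : Fin n → MvPolynomial σ k) :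
    (X z : MvPolynomial σ k) • v ∈ IJ k (insert z J) n :=
  mem_IJ.mpr fun _ => Ideal.mul_mem_right _ _ (Ideal.subset_span ⟨z, Set.mem_insert _ _, rfl⟩)

/-- Finite resolutions modulo the variables in `J`. -/
inductive Res (k : Type) [Field k] (w : σ → Γ) (J : Set σ) :
    (n : ℕ) → (Fin n → Γ) → Submodule (MvPolynomial σ k) (Fin n → MvPolynomial σ k) → Prop
  | zero (n : ℕ) (D : Fin n → Γ) : Res k w J n D (IJ k J n)
  | step (n : ℕ) (D : Fin n → Γ) (n' : ℕ) (D' : Fin n' → Γ)
      (ψ : Matrix (Fin n) (Fin n') (MvPolynomial σ k)) (hψ : PM w D D' ψ)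
      (h : Res k w J n' D' ((IJ k J n).comap ψ.mulVecLin)) :
      Res k w J n D (LinearMap.range ψ.mulVecLin ⊔ IJ k J n)

theorem range_cols {n n' : ℕ} (v : Fin n' → Fin n → MvPolynomial σ k) :
    LinearMap.range (Matrix.of fun i j => v j i).mulVecLin =
      Submodule.span (MvPolynomial σ k) (Set.range v) := by
  rw [Matrix.range_mulVecLin]
  rfl

theorem PM_cols {w : σ → Γ} {n n' : ℕ} {D : Fin n → Γ} {E : Fin n' → Γ}
    {v : Fin n' → Fin n → MvPolynomial σ k} (hv : ∀ j, (fr k w D).π (E j) (v j) = v j) :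
    PM w D (fun j => -E j) (Matrix.of fun i j => v j i) := by
  intro i j
  rw [sub_neg_eq_add]
  exact selfGr_iff.mp (congrFun (hv j) i)

theorem res_univ_aux (w : σ → Γ) {n : ℕ} (D : Fin n → Γ) (n' : ℕ) :
    ∀ (E : Fin n' → Γ) (v : Fin n' → Fin n → MvPolynomial σ k),
      (∀ j, (fr k w D).π (E j) (v j) = v j) →
      Res k w Set.univ n D (Submodule.span (MvPolynomial σ k) (Set.range v) ⊔ IJ k Set.univ n) := by
  induction n' with
  | zero =>
    intro E v _
    rw [Set.range_eq_empty, Submodule.span_empty, bot_sup_eq]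
    exact Res.zero n D
  | succ n' ih =>
    intro E v hv
    by_cases h : (IJ k Set.univ n).comap (Matrix.of fun i j => v j i).mulVecLin ≤
        IJ k Set.univ (n' + 1)
    · rw [← range_cols]
      refine Res.step n D _ _ _ (PM_cols hv) ?_
      rw [le_antisymm h fun c hc => IJ_mulVec _ hc]
      exact Res.zero _ _
    · obtain ⟨c, hc, hc'⟩ := Set.not_subset.mp h
      have hker : ∀ p : MvPolynomial σ k,
          p ∈ Ideal.span (X '' Set.univ : Set (MvPolynomial σ k)) ↔ constantCoeff p = 0 := by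
        intro p
        rw [mem_ideal_span_X_image]
        constructor
        · intro h1
          by_contra h2
          obtain ⟨s, -, hs⟩ := h1 0 (mem_support_iff.mpr h2)
          exact hs rfl
        · intro h1 m hm
          by_contra h2
          push Not at h2
          have : m = 0 := Finsupp.ext fun s => h2 s trivial
          subst this
          exact mem_support_iff.mp hm h1
      obtain ⟨j, hj⟩ : ∃ j, constantCoeff (c j) ≠ 0 := by
        by_contra h1
        push Not at h1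
        exact hc' (mem_IJ.mpr fun j => (hker _).mpr (h1 j))
      have h1 := ih (fun i => E (j.succAbove i)) (fun i => v (j.succAbove i)) (fun i => hv _)
      have h2 : Submodule.span (MvPolynomial σ k) (Set.range v) ⊔ IJ k Set.univ n =
          Submodule.span (MvPolynomial σ k) (Set.range fun i => v (j.succAbove i)) ⊔
            IJ k Set.univ n := by
        apply le_antisymm
        · refine sup_le (Submodule.span_le.mpr ?_) le_sup_right
          rintro _ ⟨i, rfl⟩
          rcases Fin.eq_self_or_eq_succAbove j i with rfl | ⟨i', rfl⟩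
          · have h3 : (∑ l, c l • v l) ∈ IJ k Set.univ n := by
              have : (Matrix.of fun i j => v j i).mulVecLin c = ∑ l, c l • v l := by
                funext a
                simp [Matrix.mulVec, dotProduct, mul_comm]
              rw [← this]
              exact hc
            rw [Fin.sum_univ_succAbove _ i] at h3
            have h4 : (c i - C (constantCoeff (c i))) • v i ∈ IJ k Set.univ n :=
              mem_IJ.mpr fun a => Ideal.mul_mem_right _ _ ((hker _).mpr (by simp))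
            have h5 : v i = (C (constantCoeff (c i))⁻¹ : MvPolynomial σ k) •
                (-(∑ l, c (i.succAbove l) • v (i.succAbove l)) +
                  ((c i • v i + ∑ l, c (i.succAbove l) • v (i.succAbove l)) -
                    (c i - C (constantCoeff (c i))) • v i)) := by
              rw [show ∀ a b : Fin n → MvPolynomial σ k, ∀ p r : MvPolynomial σ k,
                -a + ((p • b + a) - (p - r) • b) = r • b from fun a b p r => by module,
                smul_smul, ← map_mul, inv_mul_cancel₀ hj, map_one, one_smul]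
            rw [SetLike.mem_coe, h5]
            refine Submodule.smul_mem _ _ (Submodule.add_mem_sup (Submodule.neg_mem _
              (Submodule.sum_mem _ fun l _ => Submodule.smul_mem _ _
                (Submodule.subset_span ⟨l, rfl⟩))) (Submodule.sub_mem _ h3 h4))
          · exact Submodule.mem_sup_left (Submodule.subset_span ⟨i', rfl⟩)
        · refine sup_le_sup_right (Submodule.span_mono ?_) _
          rintro _ ⟨i, rfl⟩
          exact ⟨_, rfl⟩
      rw [h2]
      exact h1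

theorem hom_eq_zero {w : σ → Γ} (l : Γ →+ ℤ) (hl : ∀ s, 0 < l (w s)) {p : MvPolynomial σ k}
    {e : Γ} (hp : IsWeightedHomogeneous w p e) (he : l e < 0) : p = 0 := by
  by_contra h
  obtain ⟨m, hm⟩ := ne_zero_iff.mp h
  have h1 : Finsupp.weight w m = e := hp hm
  rw [← h1, Finsupp.weight_apply, Finsupp.sum, map_sum] at he
  refine absurd he (not_lt.mpr (Finset.sum_nonneg fun s _ => ?_))
  rw [map_nsmul]
  exact nsmul_nonneg (hl s).le _

theorem nak {w : σ → Γ} (l : Γ →+ ℤ) (hl : ∀ s, 0 < l (w s)) {n : ℕ} {D : Fin n → Γ}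
    {K L : Submodule (MvPolynomial σ k) (Fin n → MvPolynomial σ k)} (hK : (fr k w D).Sub K)
    (hL : (fr k w D).Sub L) (z : σ)
    (h : ∀ v ∈ K, ∃ v' ∈ K, v - (X z : MvPolynomial σ k) • v' ∈ L) : K ≤ L := by
  obtain ⟨a, ha⟩ := (Set.finite_range fun i => l (D i)).bddAbove
  have h1 : ∀ (N : ℕ) (d : Γ), l d + a < N → ∀ v ∈ K, (fr k w D).π d v = v → v ∈ L := by
    intro N
    induction N with
    | zero =>
      intro d hd v _ hv
      have : v = 0 := funext fun i => by
        have h2 : l (D i) ≤ a := ha ⟨i, rfl⟩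
        refine hom_eq_zero l hl (selfGr_iff.mp (congrFun hv i)) ?_
        rw [map_add]
        push_cast at hd
        omega
      rw [this]
      exact L.zero_mem
    | succ N ih =>
      intro d hd v hv hv'
      obtain ⟨v', h2, h3⟩ := h v hv
      have h4 := hL d _ h3
      have h5 := (fr k w D).smul _ _ (isWeightedHomogeneous_X k w z) (d - w z) v'
      rw [add_sub_cancel] at h5
      rw [map_sub, hv', h5] at h4
      have h6 := ih (d - w z) (by
        have := hl z
        rw [map_sub]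
        push_cast at hd
        omega) _ (hK _ _ h2) ((fr k w D).same _ _)
      have := L.add_mem h4 (L.smul_mem (X z) h6)
      rwa [sub_add_cancel] at this
  intro v hv
  obtain ⟨s, hs⟩ := (fr k w D).sum v
  rw [← hs]
  refine L.sum_mem fun d _ => h1 ((l d + a).toNat + 1) d ?_ _ (hK d v hv) ((fr k w D).same _ _)
  push_cast
  omega

theorem res_lift {w : σ → Γ} (l : Γ →+ ℤ) (hl : ∀ s, 0 < l (w s)) {J : Set σ} {z : σ}
    (hz : z ∉ J) {n : ℕ} {D : Fin n → Γ}
    {K' : Submodule (MvPolynomial σ k) (Fin n → MvPolynomial σ k)}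
    (h : Res k w (insert z J) n D K') :
    ∀ K : Submodule (MvPolynomial σ k) (Fin n → MvPolynomial σ k), (fr k w D).Sub K →
      IJ k J n ≤ K → (∀ v, (X z : MvPolynomial σ k) • v ∈ K → v ∈ K) →
      K' = K ⊔ IJ k (insert z J) n → Res k w J n D K := by
  induction h with
  | zero n D =>
    intro K hK hJ hs hK'
    have : K = IJ k J n := by
      refine le_antisymm (nak l hl hK (IJ_sub w J D) z fun v hv => ?_) hJ
      obtain ⟨v', hv'⟩ := IJ_insert (hK' ▸ Submodule.mem_sup_left hv : v ∈ IJ k (insert z J) n)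
      refine ⟨v', hs v' ?_, hv'⟩
      have := K.sub_mem hv (hJ hv')
      rwa [sub_sub_cancel] at this
    rw [this]
    exact Res.zero n D
  | step n D n' D' ψ hψ _ ih =>
    intro K hK hJ hs hK'
    have h1 : ∀ j, ∃ v ∈ K, (fr k w D).π (-D' j) v = v ∧
        (fun i => ψ i j) - v ∈ IJ k (insert z J) n := by
      intro j
      have h2 : (fun i => ψ i j) ∈ K ⊔ IJ k (insert z J) n := by
        rw [← hK']
        refine Submodule.mem_sup_left ⟨Pi.single j 1, ?_⟩
        funext i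
        simp
      obtain ⟨a, ha, b, hb, h3⟩ := Submodule.mem_sup.mp h2
      refine ⟨_, hK (-D' j) a ha, (fr k w D).same _ _, ?_⟩
      have h4 : (fr k w D).π (-D' j) (fun i => ψ i j) = fun i => ψ i j := funext fun i =>
        selfGr_iff.mpr (by rw [← sub_eq_add_neg]; exact hψ i j)
      rw [← h4, ← h3, map_add, add_sub_cancel_left]
      exact IJ_sub w _ D _ _ hb
    choose v hvK hv hv' using h1
    let φ : Matrix (Fin n) (Fin n') (MvPolynomial σ k) := Matrix.of fun i j => v j i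
    have hφ : PM w D D' φ := by
      have := PM_cols hv
      simpa using this
    have hφK : ∀ c, φ.mulVecLin c ∈ K := by
      intro c
      have : LinearMap.range φ.mulVecLin ≤ K := by
        rw [range_cols, Submodule.span_le]
        rintro _ ⟨j, rfl⟩
        exact hvK j
      exact this ⟨c, rfl⟩
    have hd : ∀ c, ψ.mulVecLin c - φ.mulVecLin c ∈ IJ k (insert z J) n := by
      intro c
      rw [mem_IJ]
      intro i
      simp only [Matrix.mulVecLin_apply, Pi.sub_apply, Matrix.mulVec, dotProduct,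
        ← Finset.sum_sub_distrib, ← sub_mul]
      exact Ideal.sum_mem _ fun j _ => Ideal.mul_mem_right _ _ (mem_IJ.mp (hv' j) i)
    have hKe : K = LinearMap.range φ.mulVecLin ⊔ IJ k J n := by
      refine le_antisymm (nak l hl hK (Gr.Sub.sup ?_ (IJ_sub w J D)) z fun u hu => ?_)
        (sup_le (by rintro _ ⟨c, rfl⟩; exact hφK c) hJ)
      · rw [LinearMap.range_eq_map]
        exact hφ.map.map (fr k w D').sub_top
      · obtain ⟨_, ⟨c, rfl⟩, b, hb, h3⟩ := Submodule.mem_sup.mp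
          (hK' ▸ Submodule.mem_sup_left hu :
            u ∈ LinearMap.range ψ.mulVecLin ⊔ IJ k (insert z J) n)
        obtain ⟨v', h4⟩ := IJ_insert ((IJ k (insert z J) n).add_mem (hd c) hb)
        refine ⟨v', hs v' ?_, ?_⟩
        · have := K.sub_mem (K.sub_mem hu (hφK c)) (hJ h4)
          rwa [← h3, show ∀ a b e f : Fin n → MvPolynomial σ k,
            a + b - e - (a - e + b - f) = f from fun a b e f => by abel] at this
        · have := Submodule.add_mem_sup (LinearMap.mem_range_self φ.mulVecLin c) h4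
          rwa [show ∀ a b e f : Fin n → MvPolynomial σ k,
            e + (a - e + b - f) = a + b - f from fun a b e f => by abel, h3] at this
    rw [hKe]
    refine Res.step n D n' D' φ hφ (ih _ (hφ.map.comap (IJ_sub w J D))
      (fun c hc => IJ_mulVec _ hc) (fun c hc => ?_) ?_)
    · rw [Submodule.mem_comap, map_smul] at hc
      exact IJ_sat hz hc
    · apply le_antisymm
      · intro c hc
        have h3 := (IJ k (insert z J) n).sub_mem hc (hd c)
        rw [sub_sub_cancel] at h3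
        obtain ⟨v', h4⟩ := IJ_insert h3
        have h5 : v' ∈ K := by
          refine hs v' ?_
          have := K.sub_mem (hφK c) (hJ h4)
          rwa [sub_sub_cancel] at this
        rw [hKe] at h5
        obtain ⟨_, ⟨c', rfl⟩, b, hb, h6⟩ := Submodule.mem_sup.mp h5
        rw [← sub_add_cancel c ((X z : MvPolynomial σ k) • c')]
        refine Submodule.add_mem_sup ?_ (smul_mem_IJ c')
        rw [Submodule.mem_comap, map_sub, map_smul]
        have := (IJ k J n).add_mem h4 ((IJ k J n).smul_mem (X z) hb)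
        rwa [← h6, show ∀ a b e : Fin n → MvPolynomial σ k, ∀ p : MvPolynomial σ k,
          a - p • (b + e) + p • e = a - p • b from fun a b e p => by module] at this
      · refine sup_le (fun c hc => ?_) fun c hc => IJ_mulVec _ hc
        have := (IJ k (insert z J) n).add_mem (hd c) (IJ_mono (Set.subset_insert z J) n hc)
        rwa [sub_add_cancel] at this

theorem res_all [Fintype σ] {w : σ → Γ} (l : Γ →+ ℤ) (hl : ∀ s, 0 < l (w s)) (S : Finset σ) :
    ∀ (n : ℕ) (D : Fin n → Γ) (K : Submodule (MvPolynomial σ k) (Fin n → MvPolynomial σ k)),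
      (fr k w D).Sub K → IJ k (↑S)ᶜ n ≤ K → Res k w (↑S)ᶜ n D K := by
  classical
  induction S using Finset.induction_on with
  | empty =>
    intro n D K hK hJ
    obtain ⟨n', v, E, hv, rfl⟩ := (fr k w D).exists_gens hK
    rw [Finset.coe_empty, Set.compl_empty] at hJ ⊢
    have := res_univ_aux w D n' E v hv
    rwa [sup_eq_left.mpr hJ] at this
  | insert z S hz ih =>
    intro n D K hK hJ
    have hz' : z ∉ ((↑(insert z S) : Set σ))ᶜ := by simp
    have hS : (↑S : Set σ)ᶜ = insert z ((↑(insert z S) : Set σ))ᶜ := by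
      ext s
      by_cases h : s = z
      · simp [h, hz]
      · simp [h]
    rw [hS] at ih
    generalize ((↑(insert z S) : Set σ))ᶜ = J at hJ hz' ih ⊢
    obtain ⟨n', v, E, hv, rfl⟩ := (fr k w D).exists_gens hK
    rw [← sup_eq_left.mpr hJ, ← range_cols]
    have hφ := PM_cols hv
    have h1 := hφ.map.comap (IJ_sub w J D)
    refine Res.step n D _ _ _ hφ (res_lift l hl hz' (ih _ _ _ (h1.sup (IJ_sub w _ _))
      le_sup_right) _ h1 (fun c hc => IJ_mulVec _ hc) (fun c hc => ?_) rfl)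
    rw [Submodule.mem_comap, map_smul] at hc
    exact IJ_sat hz' hc

theorem IJ_empty (n : ℕ) : IJ k (∅ : Set σ) n = ⊥ := by
  rw [eq_bot_iff]
  intro v hv
  rw [Submodule.mem_bot]
  funext i
  simpa using mem_IJ.mp hv i

theorem ffr [Fintype σ] {w : σ → Γ} (l : Γ →+ ℤ) (hl : ∀ s, 0 < l (w s)) (n : ℕ) (D : Fin n → Γ)
    (K : Submodule (MvPolynomial σ k) (Fin n → MvPolynomial σ k)) (hK : (fr k w D).Sub K) :
    Res k w ∅ n D K := by
  have := res_all (k := k) l hl Finset.univ n D K hK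
  rw [Finset.coe_univ, Set.compl_univ] at this
  exact this (by rw [IJ_empty]; exact bot_le)

end Pool.Agent.P.MP_260cc8_ag.af
end

-- part Pool.Agent.P.MP_260cc8_ag.af.Hilb
section

/-!
The Hilbert function of the polynomial ring, and the numerical relation between the degrees of two
free modules that become isomorphic after inverting `x.y`.
-/

namespace Pool.Agent.P.MP_260cc8_ag.af

open MvPolynomial

variable {k : Type} [Field k]

theorem weight_wt (m : Fin 8 →₀ ℕ) : Finsupp.weight wt m =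
    (((m 0 + m 1 + m 2 : ℕ) : ℤ), ((m 3 + m 4 + m 5 : ℕ) : ℤ), ((m 6 + m 7 : ℕ) : ℤ)) := by
  rw [Finsupp.weight_apply, Finsupp.sum_fintype _ _ (by simp), Fin.sum_univ_eight]
  simp [wt]

theorem pc_self (d : Dg) :
    (selfGr k wt).pc ⊤ d = restrictSupport k {m | Finsupp.weight wt m = d} := by
  have h := weightedHomogeneousSubmodule_eq_finsupp_supported k wt d
  ext p
  rw [Gr.mem_pc, selfGr_iff, ← mem_weightedHomogeneousSubmodule, h]
  simp only [Submodule.mem_top, true_and]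
  rfl

theorem self_fd : (selfGr k wt).Fd := by
  intro d
  rw [pc_self]
  have : {m : Fin 8 →₀ ℕ | Finsupp.weight wt m = d}.Finite := by
    refine (Set.finite_Iic (Finsupp.equivFunOnFinite.symm fun _ : Fin 8 =>
      (d.1 + d.2.1 + d.2.2).toNat)).subset fun m hm => ?_
    rw [Set.mem_ofPred_eq, weight_wt] at hm
    intro i
    rw [← hm]
    simp only [Finsupp.equivFunOnFinite_symm_apply_apply]
    fin_cases i <;> simp <;> omega
  have := this.to_subtype
  exact Module.Finite.of_basis (basisRestrictSupport k _)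

/-- Monomials of tri-degree `(a, b, 0)`. -/
noncomputable def monEquiv (a b : ℕ) :
    {m : Fin 8 →₀ ℕ | Finsupp.weight wt m = ((a : ℤ), (b : ℤ), 0)} ≃
      (Finset.univ : Finset (Fin 3)).finsuppAntidiag a ×
        (Finset.univ : Finset (Fin 3)).finsuppAntidiag b where
  toFun m := (⟨Finsupp.equivFunOnFinite.symm ![m.1 0, m.1 1, m.1 2], by
      have h := m.2
      rw [Set.mem_ofPred_eq, weight_wt, Prod.mk.injEq, Prod.mk.injEq] at h
      simp [Finset.mem_finsuppAntidiag, Fin.sum_univ_three]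
      omega⟩, ⟨Finsupp.equivFunOnFinite.symm ![m.1 3, m.1 4, m.1 5], by
      have h := m.2
      rw [Set.mem_ofPred_eq, weight_wt, Prod.mk.injEq, Prod.mk.injEq] at h
      simp [Finset.mem_finsuppAntidiag, Fin.sum_univ_three]
      omega⟩)
  invFun f := ⟨Finsupp.equivFunOnFinite.symm
      ![f.1.1 0, f.1.1 1, f.1.1 2, f.2.1 0, f.2.1 1, f.2.1 2, 0, 0], by
      have h1 := f.1.2
      have h2 := f.2.2
      simp only [Finset.mem_finsuppAntidiag, Fin.sum_univ_three] at h1 h2
      rw [Set.mem_ofPred_eq, weight_wt]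
      simp [← h1.1, ← h2.1]⟩
  left_inv m := by
    have h := m.2
    rw [Set.mem_ofPred_eq, weight_wt, Prod.mk.injEq, Prod.mk.injEq] at h
    refine Subtype.ext (Finsupp.ext fun i => ?_)
    fin_cases i <;> simp <;> omega
  right_inv f := by
    refine Prod.ext (Subtype.ext (Finsupp.ext fun i => ?_)) (Subtype.ext (Finsupp.ext fun i => ?_))
    · fin_cases i <;> simp
    · fin_cases i <;> simp

theorem two_choose (a : ℕ) : 2 * ((3 + a - 1).choose a : ℤ) = (a + 1) * (a + 2) := by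
  rw [show 3 + a - 1 = a + 2 by omega, Nat.choose_symm_add, Nat.choose_two_right]
  have h : 2 ∣ (a + 2) * (a + 2 - 1) := (Nat.even_mul_pred_self (a + 2)).two_dvd
  have h1 := Nat.mul_div_cancel' h
  have h2 : ((2 * ((a + 2) * (a + 2 - 1) / 2) : ℕ) : ℤ) = (((a + 2) * (a + 1) : ℕ) : ℤ) := by
    rw [h1]
    rfl
  push_cast at h2 ⊢
  linarith

theorem h_self {a b : ℤ} (ha : 0 ≤ a) (hb : 0 ≤ b) :
    4 * (selfGr k wt).h ⊤ (a, b, 0) = (a + 1) * (a + 2) * ((b + 1) * (b + 2)) := by
  obtain ⟨a, rfl⟩ := Int.eq_ofNat_of_zero_le ha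
  obtain ⟨b, rfl⟩ := Int.eq_ofNat_of_zero_le hb
  rw [Gr.h, pc_self, Module.finrank_eq_nat_card_basis (basisRestrictSupport k _),
    Nat.card_congr (monEquiv a b), Nat.card_prod, Nat.card_eq_fintype_card,
    Nat.card_eq_fintype_card, Fintype.card_coe, Fintype.card_coe,
    Finset.card_finsuppAntidiag_nat_eq_choose, Finset.card_finsuppAntidiag_nat_eq_choose,
    Finset.card_univ, Fintype.card_fin, ← two_choose, ← two_choose]
  push_cast
  ring

theorem cmb_self {a b : ℤ} (ha : 1 ≤ a) (hb : 1 ≤ b) :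
    2 * cmb ((selfGr k wt).h ⊤) (a, b, 0) = (a - b - 1) * (a - b) := by
  have h1 := h_self (k := k) (a := 1 + a) (b := b) (by omega) (by omega)
  have h2 := h_self (k := k) (a := a) (b := b) (by omega) (by omega)
  have h3 := h_self (k := k) (a := a) (b := b - 1) (by omega) (by omega)
  have h4 := h_self (k := k) (a := a - 1) (b := b + 1) (by omega) (by omega)
  simp only [cmb, Prod.mk_add_mk, Prod.mk_sub_mk, add_zero, zero_add, sub_zero]
  nlinarith

theorem cmb_free {ι : Type} [Fintype ι] (α β : ι → ℤ) :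
    ∃ a : ℤ, ∀ b, a < b → 2 * cmb ((fr k wt fun i => (α i, β i, 0)).h ⊤) (b + 1, b, 0) =
      ∑ i, (α i - β i) * (α i - β i + 1) := by
  obtain ⟨a1, h1⟩ := (Set.finite_range fun i => -α i).bddAbove
  obtain ⟨a2, h2⟩ := (Set.finite_range fun i => -β i).bddAbove
  refine ⟨max a1 a2, fun b hb => ?_⟩
  have h : ∀ d, (fr k wt fun i => (α i, β i, 0)).h ⊤ d =
      ∑ i, (selfGr k wt).h ⊤ ((α i, β i, 0) + d) := by
    intro d
    rw [← Gr.h_pi self_fd, Submodule.pi_top]
  have h3 : cmb ((fr k wt fun i => (α i, β i, 0)).h ⊤) (b + 1, b, 0) =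
      ∑ i, cmb ((selfGr k wt).h ⊤) (α i + (b + 1), β i + b, 0) := by
    simp only [cmb, h, Finset.sum_add_distrib, Finset.sum_sub_distrib, Finset.mul_sum,
      Prod.mk_add_mk, Prod.mk_sub_mk, add_zero, zero_add, sub_zero]
    congr 1
    · congr 1
      · congr 1
        exact Finset.sum_congr rfl fun i _ => by congr 2; ring
      · exact Finset.sum_congr rfl fun i _ => by congr 3; ring
    · refine Finset.sum_congr rfl fun i _ => ?_
      congr 2
      · ring
      · congr 1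
        ring
  rw [h3, Finset.mul_sum]
  refine Finset.sum_congr rfl fun i _ => ?_
  have h4 : -α i ≤ a1 := h1 ⟨i, rfl⟩
  have h5 : -β i ≤ a2 := h2 ⟨i, rfl⟩
  rw [cmb_self (by omega) (by omega)]
  ring

theorem qq_hom : IsWeightedHomogeneous wt (qq k) (1, 1, 0) := by
  have h : ∀ i, IsWeightedHomogeneous wt (xx k i * yy k i) (1, 1, 0) :=
    fun i => (xx_hom i).mul (yy_hom i)
  exact ((h 0).add (h 1)).add (h 2)

theorem qq_ne : qq k ≠ 0 := by
  intro h
  have := congrArg (eval ![1, 0, 0, 1, 0, 0, 0, 0]) h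
  simp [qq] at this

theorem core_poly {ι κ : Type} [Fintype ι] [Fintype κ] [DecidableEq ι] [DecidableEq κ]
    {α β : ι → ℤ} {α' β' : κ → ℤ} {U : Matrix ι κ (PP k)} {V : Matrix κ ι (PP k)} {e : ℕ}
    (hU : PM wt (fun i => (α i, β i, (0 : ℤ))) (fun j => (α' j, β' j, 0)) U)
    (h1 : U * V = qq k ^ e • (1 : Matrix ι ι (PP k)))
    (h2 : V * U = qq k ^ e • (1 : Matrix κ κ (PP k))) :
    ∑ i, (α i - β i) * (α i - β i + 1) = ∑ j, (α' j - β' j) * (α' j - β' j + 1) := by
  let G := fr k wt fun i => ((α i, β i, 0) : Dg)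
  let G' := fr k wt fun j => ((α' j, β' j, 0) : Dg)
  have hG : G.Fd := self_fd.pi _
  have hG' : G'.Fd := self_fd.pi _
  let L : ℕ → Submodule (PP k) (ι → PP k) := fun n =>
    LinearMap.range U.mulVecLin ⊔ LinearMap.range (qq k ^ n • LinearMap.id)
  have hR : G.Sub (LinearMap.range U.mulVecLin) := by
    rw [LinearMap.range_eq_map]
    exact hU.map.map G'.sub_top
  have hL : ∀ n, G.Sub (L n) := by
    intro n
    refine hR.sup ?_
    rw [LinearMap.range_eq_map]
    refine Gr.Map.map (G := G) (e := n • (1, 1, 0)) (fun d m => ?_) G.sub_top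
    exact G.smul _ _ (qq_hom.pow n) d m
  have hs : ∀ n, ∃ a : ℤ, ∀ d : Dg, a < d.1 → a < d.2.1 → cmb (G.h ⊤) d = cmb (G.h (L n)) d := by
    intro n
    induction n with
    | zero =>
      refine ⟨0, fun d _ _ => ?_⟩
      have : L 0 = ⊤ := by
        rw [eq_top_iff]
        intro v _
        exact Submodule.mem_sup_right ⟨v, by simp⟩
      rw [this]
    | succ n ih =>
      obtain ⟨a, ha⟩ := ih
      obtain ⟨a', ha'⟩ := kill_pair G hG (hL n) (hL (n + 1)) (sup_le_sup_left (by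
        rintro _ ⟨v, rfl⟩
        exact ⟨qq k • v, by simp [smul_smul, pow_succ']⟩) _) (by
        intro m hm
        obtain ⟨u, hu, _, ⟨v, rfl⟩, rfl⟩ := Submodule.mem_sup.mp hm
        rw [smul_add]
        exact Submodule.add_mem_sup (Submodule.smul_mem _ _ hu)
          ⟨v, by simp [smul_smul, pow_succ']⟩)
      refine ⟨max a a', fun d h3 h4 => ?_⟩
      rw [ha d (by omega) (by omega), ha' d (by omega) (by omega)]
  have hLe : L e = LinearMap.range U.mulVecLin := by
    refine sup_eq_left.mpr ?_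
    rintro _ ⟨v, rfl⟩
    refine ⟨V.mulVec v, ?_⟩
    rw [Matrix.mulVecLin_apply, Matrix.mulVec_mulVec, h1, Matrix.smul_mulVec, Matrix.one_mulVec]
    rfl
  have hh : ∀ d, G.h (LinearMap.range U.mulVecLin) d = G'.h ⊤ d := by
    intro d
    have h3 := Gr.h_rank hG' hU.map G'.sub_top (V := LinearMap.range U.mulVecLin)
      (fun m _ => ⟨m, rfl⟩) d (fun n hn _ => by rwa [← LinearMap.range_eq_map])
    have h4 : G'.h (⊤ ⊓ LinearMap.ker U.mulVecLin) d = 0 := by
      refine G'.h_zero fun m hm _ => ?_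
      have h5 : U.mulVec m = 0 := hm.2
      have h6 := congrArg V.mulVec h5
      rw [Matrix.mulVec_mulVec, h2, Matrix.smul_mulVec, Matrix.one_mulVec, Matrix.mulVec_zero] at h6
      exact (smul_eq_zero.mp h6).resolve_left (pow_ne_zero _ qq_ne)
    rw [zero_add, h4, add_zero] at h3
    exact h3.symm
  obtain ⟨a, ha⟩ := hs e
  obtain ⟨a1, h3⟩ := cmb_free (k := k) α β
  obtain ⟨a2, h4⟩ := cmb_free (k := k) α' β'
  have h5 := ha (max a (max a1 a2) + 1 + 1, max a (max a1 a2) + 1, 0) (by simp only; omega)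
    (by simp only; omega)
  rw [hLe, funext hh] at h5
  rw [← h3 (max a (max a1 a2) + 1) (by omega), ← h4 (max a (max a1 a2) + 1) (by omega)]
  exact congrArg (2 * ·) h5

end Pool.Agent.P.MP_260cc8_ag.af
end

-- part Pool.Agent.P.MP_260cc8_ag.af.RR
section

/-!
The ring `k[x,y,t]/(x.y-1)` with its grading by the integers.
-/

namespace Pool.Agent.P.MP_260cc8_ag.af

open MvPolynomial

variable {k : Type} [Field k]

theorem scale_hom {σ Γ L : Type} [AddCommGroup Γ] [CommRing L] {w : σ → Γ}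
    (θ ι : MvPolynomial σ k →+* L) (χ : Γ → L) (h0 : χ 0 = 1) (ha : ∀ d e, χ (d + e) = χ d * χ e)
    (hC : ∀ r, θ (C r) = ι (C r)) (hX : ∀ s, θ (X s) * χ (w s) = ι (X s))
    {p : MvPolynomial σ k} {d : Γ} (hp : IsWeightedHomogeneous w p d) : θ p * χ d = ι p := by
  have h : ∀ (m : σ →₀ ℕ) (r : k), θ (monomial m r) * χ (Finsupp.weight w m) = ι (monomial m r) := by
    intro m r
    induction m using Finsupp.induction_linear generalizing r with
    | zero => rw [map_zero, h0, mul_one]; exact hC r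
    | add f g hf hg =>
      rw [← mul_one r, ← monomial_mul, map_mul, map_mul, map_add, ha, ← hf, ← hg]
      ring
    | single s n =>
      rw [← C_mul_X_pow_eq_monomial, map_mul, map_mul, map_pow, map_pow, hC, ← hX,
        Finsupp.weight_single, mul_assoc]
      congr 1
      induction n with
      | zero => simp [h0]
      | succ n ih => rw [succ_nsmul, ha, pow_succ, pow_succ, ← ih]; ring
  induction hp using IsWeightedHomogeneous.induction_on with
  | zero => simp
  | add p q _ _ hp hq => rw [map_add, map_add, add_mul, hp, hq]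
  | monomial m r hr => rw [← hr]; exact h m r

theorem subst_hom {σ Γ : Type} [AddCommGroup Γ] {w : σ → Γ} (φ : Γ →+ Γ)
    (f : σ → MvPolynomial σ k) (hf : ∀ s, IsWeightedHomogeneous w (f s) (φ (w s)))
    {p : MvPolynomial σ k} {d : Γ} (hp : IsWeightedHomogeneous w p d) :
    IsWeightedHomogeneous w (aeval f p) (φ d) := by
  induction hp using IsWeightedHomogeneous.induction_on with
  | zero => rw [map_zero]; exact isWeightedHomogeneous_zero _ _ _
  | add p q _ _ hp hq => rw [map_add]; exact hp.add hq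
  | monomial m r hr =>
    rw [← hr, aeval_monomial, algebraMap_eq, Finsupp.weight_apply, Finsupp.sum, map_sum,
      Finsupp.prod]
    refine IsWeightedHomogeneous.C_mul (IsWeightedHomogeneous.prod _ _ _ fun s _ => ?_) r
    rw [map_nsmul]
    exact (hf s).pow _

/-- The defining ideal. -/
noncomputable def II (k : Type) [Field k] : Ideal (PP k) := Ideal.span {qq k - 1, X 6 - 1}

/-- The ring `k[x,y,t]/(x.y-1)`. -/
abbrev RR (k : Type) [Field k] := PP k ⧸ II k

/-- The quotient map. -/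
noncomputable abbrev mk (k : Type) [Field k] : PP k →+* RR k := Ideal.Quotient.mk (II k)

theorem mk_qq : mk k (qq k) = 1 := by
  rw [← map_one (mk k), Ideal.Quotient.eq]
  exact Ideal.subset_span (by simp)

theorem mk_X6 : mk k (X 6) = 1 := by
  rw [← map_one (mk k), Ideal.Quotient.eq]
  exact Ideal.subset_span (by simp)

/-- A ring map from the quotient. -/
noncomputable def liftR {L : Type} [CommRing L] (f : PP k →+* L) (h1 : f (qq k) = 1)
    (h2 : f (X 6) = 1) : RR k →+* L :=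
  Ideal.Quotient.lift (II k) f fun a ha => by
    have : II k ≤ RingHom.ker f := by
      rw [II, Ideal.span_le]
      rintro _ (rfl | rfl)
      · simp [h1]
      · simp [h2]
    exact this ha

theorem liftR_mk {L : Type} [CommRing L] (f : PP k →+* L) (h1 : f (qq k) = 1)
    (h2 : f (X 6) = 1) (p : PP k) : liftR f h1 h2 (mk k p) = f p := rfl

theorem mk_inj {p : PP k} {d : Dg} (hp : IsWeightedHomogeneous wt p d) (h : mk k p = 0) :
    p = 0 := by
  let L := FractionRing (PP k)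
  let ι : PP k →+* L := algebraMap (PP k) L
  have hι : Function.Injective ι := IsFractionRing.injective _ _
  have hq : ι (qq k) ≠ 0 := (map_ne_zero_iff ι hι).mpr qq_ne
  have h6 : ι (X 6) ≠ 0 := (map_ne_zero_iff ι hι).mpr (X_ne_zero 6)
  let χ : Dg → L := fun d => ι (qq k) ^ d.2.1 * ι (X 6) ^ d.2.2
  have hχ : ∀ d, χ d ≠ 0 := fun d => mul_ne_zero (zpow_ne_zero _ hq) (zpow_ne_zero _ h6)
  let θ : PP k →+* L := eval₂Hom (ι.comp C) fun s => ι (X s) / χ (wt s)
  have hs : ∀ {p : PP k} {d : Dg}, IsWeightedHomogeneous wt p d → θ p * χ d = ι p :=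
    fun hp => scale_hom θ ι χ (by simp [χ]) (fun d e => by
      simp only [χ, Prod.snd_add, Prod.fst_add, zpow_add₀ hq, zpow_add₀ h6]
      ring) (fun r => by simp [θ]) (fun s => by
      simp only [θ, coe_eval₂Hom, eval₂_X]
      exact div_mul_cancel₀ _ (hχ _)) hp
  have h1 : θ (qq k) = 1 := by
    have := hs qq_hom
    simp only [χ, zpow_one, zpow_zero, mul_one] at this
    exact mul_right_cancel₀ hq (by rw [this, one_mul])
  have h2 : θ (X 6) = 1 := by
    have := hs (isWeightedHomogeneous_X k wt 6)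
    simp only [χ, show wt 6 = (0, 0, 1) from rfl, zpow_one, zpow_zero, one_mul] at this
    exact mul_right_cancel₀ h6 (by rw [this, one_mul])
  have h3 : θ p = 0 := by rw [← liftR_mk θ h1 h2, h, map_zero]
  have h4 := hs hp
  rw [h3, zero_mul] at h4
  exact hι (by rw [← h4, map_zero])

/-- Elements of degree `j`. -/
def Hg (j : ℤ) (a : RR k) : Prop :=
  ∃ (b c : ℤ) (p : PP k), IsWeightedHomogeneous wt p (j + b, b, c) ∧ mk k p = a

theorem raise {p : PP k} {j b c b' c' : ℤ} (hp : IsWeightedHomogeneous wt p (j + b, b, c))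
    (hb : b ≤ b') (hc : c ≤ c') :
    ∃ p' : PP k, IsWeightedHomogeneous wt p' (j + b', b', c') ∧ mk k p' = mk k p := by
  obtain ⟨m, rfl⟩ := Int.le.dest hb
  obtain ⟨n, rfl⟩ := Int.le.dest hc
  refine ⟨p * qq k ^ m * X 6 ^ n, ?_, by simp [mk_qq, mk_X6]⟩
  have := (hp.mul (qq_hom.pow m)).mul ((isWeightedHomogeneous_X k wt 6).pow n)
  simp only [show wt 6 = (0, 0, 1) from rfl, Prod.smul_mk, Prod.mk_add_mk, nsmul_eq_mul, mul_one,
    mul_zero, add_zero] at this
  rwa [← add_assoc]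

theorem Hg.of_hom {p : PP k} {d : Dg} (hp : IsWeightedHomogeneous wt p d) :
    Hg (d.1 - d.2.1) (mk k p) :=
  ⟨d.2.1, d.2.2, p, by rwa [sub_add_cancel], rfl⟩

theorem Hg.zero (j : ℤ) : Hg j (0 : RR k) :=
  ⟨0, 0, 0, isWeightedHomogeneous_zero _ _ _, map_zero _⟩

theorem Hg.C (r : k) : Hg 0 (mk k (C r)) := ⟨0, 0, _, isWeightedHomogeneous_C _ _, rfl⟩

theorem Hg.one : Hg 0 (1 : RR k) := by simpa using Hg.C (1 : k)

theorem Hg.add {j : ℤ} {a a' : RR k} (h : Hg j a) (h' : Hg j a') : Hg j (a + a') := by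
  obtain ⟨b, c, p, hp, rfl⟩ := h
  obtain ⟨b', c', p', hp', rfl⟩ := h'
  obtain ⟨r, hr, h1⟩ := raise hp (le_max_left b b') (le_max_left c c')
  obtain ⟨r', hr', h1'⟩ := raise hp' (le_max_right b b') (le_max_right c c')
  exact ⟨_, _, r + r', hr.add hr', by rw [map_add, h1, h1']⟩

theorem Hg.neg {j : ℤ} {a : RR k} (h : Hg j a) : Hg j (-a) := by
  obtain ⟨b, c, p, hp, rfl⟩ := h
  exact ⟨b, c, -p, hp.neg, map_neg _ _⟩

theorem Hg.sub {j : ℤ} {a a' : RR k} (h : Hg j a) (h' : Hg j a') : Hg j (a - a') := by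
  rw [sub_eq_add_neg]
  exact h.add h'.neg

theorem Hg.mul {i j : ℤ} {a a' : RR k} (h : Hg i a) (h' : Hg j a') : Hg (i + j) (a * a') := by
  obtain ⟨b, c, p, hp, rfl⟩ := h
  obtain ⟨b', c', p', hp', rfl⟩ := h'
  refine ⟨b + b', c + c', p * p', ?_, map_mul _ _ _⟩
  have := hp.mul hp'
  rwa [Prod.mk_add_mk, Prod.mk_add_mk, add_add_add_comm] at this

theorem Hg.sum {ι : Type} (s : Finset ι) {j : ℤ} {a : ι → RR k} (h : ∀ i ∈ s, Hg j (a i)) :
    Hg j (∑ i ∈ s, a i) :=
  Finset.sum_induction a (Hg j) (fun _ _ => Hg.add) (Hg.zero j) h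

theorem Hg.lift {ι : Type} [Finite ι] {j : ι → ℤ} {a : ι → RR k} (h : ∀ i, Hg (j i) (a i))
    (β γ : ι → ℤ) : ∃ b : ℕ, ∃ p : ι → PP k, ∀ i,
      IsWeightedHomogeneous wt (p i) (j i + (β i + b), β i + b, γ i + b) ∧ mk k (p i) = a i := by
  choose b c p hp hp' using h
  obtain ⟨a1, h1⟩ := (Set.finite_range fun i => b i - β i).bddAbove
  obtain ⟨a2, h2⟩ := (Set.finite_range fun i => c i - γ i).bddAbove
  refine ⟨(max a1 a2).toNat, ?_⟩
  have h3 : ∀ i, ∃ r : PP k, IsWeightedHomogeneous wt r (j i + (β i + (max a1 a2).toNat),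
      β i + (max a1 a2).toNat, γ i + (max a1 a2).toNat) ∧ mk k r = a i := by
    intro i
    have h4 : b i - β i ≤ a1 := h1 ⟨i, rfl⟩
    have h5 : c i - γ i ≤ a2 := h2 ⟨i, rfl⟩
    rw [← hp' i]
    exact raise (hp i) (by omega) (by omega)
  choose r hr using h3
  exact ⟨r, hr⟩

theorem hg_induction {Pr : RR k → Prop} (h0 : Pr 0) (ha : ∀ a b, Pr a → Pr b → Pr (a + b))
    (hh : ∀ j a, Hg j a → Pr a) (a : RR k) : Pr a := by
  obtain ⟨p, rfl⟩ := Ideal.Quotient.mk_surjective a
  obtain ⟨s, hs⟩ := poly_sum wt p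
  rw [← hs, map_sum]
  exact Finset.sum_induction _ Pr ha h0 fun d _ =>
    hh _ _ (Hg.of_hom (weightedHomogeneousComponent_isWeightedHomogeneous d p))

/-- The coaction before passing to the quotient. -/
noncomputable def co0 (k : Type) [Field k] : PP k →+* AddMonoidAlgebra (RR k) ℤ :=
  eval₂Hom ((AddMonoidAlgebra.singleZeroRingHom.comp (mk k)).comp C) fun s =>
    AddMonoidAlgebra.single ((wt s).1 - (wt s).2.1) (mk k (X s))

theorem co0_hom {p : PP k} {d : Dg} (hp : IsWeightedHomogeneous wt p d) :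
    co0 k p = AddMonoidAlgebra.single (d.1 - d.2.1) (mk k p) := by
  have h := scale_hom (L := AddMonoidAlgebra (RR k) ℤ) (co0 k)
    (AddMonoidAlgebra.singleZeroRingHom.comp (mk k))
    (fun d : Dg => AddMonoidAlgebra.single (-(d.1 - d.2.1)) (1 : RR k))
    rfl (fun d e => by
      rw [AddMonoidAlgebra.single_mul_single, one_mul]
      congr 1
      simp only [Prod.fst_add, Prod.snd_add]
      ring) (fun r => by simp [co0]) (fun s => by
      simp [co0]) hp
  have h1 := congrArg (· * AddMonoidAlgebra.single (d.1 - d.2.1) (1 : RR k)) h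
  simp only [mul_assoc, AddMonoidAlgebra.single_mul_single, neg_add_cancel, mul_one,
    ← AddMonoidAlgebra.one_def] at h1
  rw [h1]
  simp

/-- The coaction defining the grading. -/
noncomputable def co (k : Type) [Field k] : RR k →+* AddMonoidAlgebra (RR k) ℤ :=
  liftR (L := AddMonoidAlgebra (RR k) ℤ) (co0 k) (by rw [co0_hom qq_hom, mk_qq]; rfl)
    (by rw [co0_hom (isWeightedHomogeneous_X k wt 6), mk_X6]; rfl)

/-- The component of degree `j`. -/
noncomputable def cp (j : ℤ) (a : RR k) : RR k := (co k a).coeff j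

theorem Hg.cp_eq {j : ℤ} {a : RR k} (h : Hg j a) (l : ℤ) : cp l a = if l = j then a else 0 := by
  obtain ⟨b, c, p, hp, rfl⟩ := h
  rw [cp, co, liftR_mk, co0_hom hp, AddMonoidAlgebra.coeff_single, Finsupp.single_apply]
  simp only [add_sub_cancel_right, eq_comm]

theorem cp_zero (j : ℤ) : cp j (0 : RR k) = 0 := by simp [cp]

theorem cp_add (j : ℤ) (a b : RR k) : cp j (a + b) = cp j a + cp j b := by simp [cp]

theorem cp_sum {ι : Type} (s : Finset ι) (j : ℤ) (a : ι → RR k) :
    cp j (∑ i ∈ s, a i) = ∑ i ∈ s, cp j (a i) := by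
  classical
  induction s using Finset.induction_on with
  | empty => simp [cp_zero]
  | insert i s hi ih => rw [Finset.sum_insert hi, Finset.sum_insert hi, cp_add, ih]

theorem cp_hg (j : ℤ) (a : RR k) : Hg j (cp j a) := by
  induction a using hg_induction with
  | h0 => rw [cp_zero]; exact Hg.zero j
  | ha a b h1 h2 => rw [cp_add]; exact h1.add h2
  | hh l a h =>
    rw [h.cp_eq]
    split_ifs with h1
    · rwa [h1]
    · exact Hg.zero j

theorem cp_mul (a b : RR k) (n : ℤ) (s : Finset ℤ) (hs : ∀ l, l ∉ s → cp l b = 0) :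
    cp n (a * b) = ∑ l ∈ s, cp (n - l) a * cp l b := by
  rw [cp, map_mul, AddMonoidAlgebra.coeff_mul_apply_right,
    Finsupp.sum_of_support_subset (s := s)]
  · simp only [cp, sub_eq_add_neg]
  · intro l hl
    by_contra h
    exact Finsupp.mem_support_iff.mp hl (hs l h)
  · simp

theorem cp_band (a : RR k) : ∃ m : ℤ, ∀ l, cp l a ≠ 0 → |l| ≤ m := by
  obtain ⟨m, hm⟩ := ((co k a).coeff.support.finite_toSet.image fun l => |l|).bddAbove
  exact ⟨m, fun l hl => hm ⟨l, Finsupp.mem_support_iff.mpr hl, rfl⟩⟩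

/-- The substitution of a constant for the last variable, on polynomials. -/
noncomputable def ev0 (c : k) : Fin 8 → PP k :=
  ![X 0, X 1, X 2, X 3, X 4, X 5, X 6, C c * X 6]

/-- The substitution of a constant for the last variable. -/
noncomputable def ev (c : k) : RR k →+* RR k :=
  liftR ((mk k).comp (aeval (ev0 c) : PP k →ₐ[k] PP k).toRingHom)
    (by rw [← mk_qq]; simp [qq, ev0]) (by rw [← mk_X6]; simp [ev0])

theorem ev_mk (c : k) (p : PP k) : ev c (mk k p) = mk k (aeval (ev0 c) p) := rfl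

theorem Hg.ev {j : ℤ} {a : RR k} (h : Hg j a) (c : k) : Hg j (ev c a) := by
  obtain ⟨b, c', p, hp, rfl⟩ := h
  refine ⟨b, c', _, subst_hom (AddMonoidHom.id _) (ev0 c) (fun s => ?_) hp, (ev_mk c p).symm⟩
  fin_cases s
  exacts [isWeightedHomogeneous_X k wt 0, isWeightedHomogeneous_X k wt 1,
    isWeightedHomogeneous_X k wt 2, isWeightedHomogeneous_X k wt 3,
    isWeightedHomogeneous_X k wt 4, isWeightedHomogeneous_X k wt 5,
    isWeightedHomogeneous_X k wt 6, (isWeightedHomogeneous_X k wt 6).C_mul c]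

theorem cp_ev (c : k) (j : ℤ) (a : RR k) : cp j (ev c a) = ev c (cp j a) := by
  induction a using hg_induction with
  | h0 => simp [cp_zero]
  | ha a b h1 h2 => rw [map_add, cp_add, cp_add, map_add, h1, h2]
  | hh l a h =>
    rw [(h.ev c).cp_eq, h.cp_eq]
    split_ifs <;> simp

/-- Homogeneous matrices over the quotient ring. -/
def HM {ι κ : Type} (d : ι → ℤ) (d' : κ → ℤ) (A : Matrix ι κ (RR k)) : Prop :=
  ∀ i j, Hg (d i - d' j) (A i j)

theorem HM.lift {ι κ : Type} [Finite ι] [Finite κ] {d : ι → ℤ} {d' : κ → ℤ}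
    {A : Matrix ι κ (RR k)} (h : HM d d' A) : ∃ (b : ℕ) (B : Matrix ι κ (PP k)),
      (∀ i j, IsWeightedHomogeneous wt (B i j) (d i - d' j + b, b, b)) ∧ B.map (mk k) = A := by
  obtain ⟨b, p, hp⟩ := Hg.lift (ι := ι × κ) (j := fun u => d u.1 - d' u.2)
    (a := fun u => A u.1 u.2) (fun u => h u.1 u.2) 0 0
  refine ⟨b, Matrix.of fun i j => p (i, j), fun i j => ?_, ?_⟩
  · simpa using (hp (i, j)).1
  · ext i j
    exact (hp (i, j)).2

theorem lift_mul {ι κ : Type} [Fintype ι] [Fintype κ] [DecidableEq ι] {d : ι → ℤ} {d' : κ → ℤ}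
    {b b' : ℕ} {B : Matrix ι κ (PP k)} {B' : Matrix κ ι (PP k)}
    (hB : ∀ i j, IsWeightedHomogeneous wt (B i j) (d i - d' j + b, b, b))
    (hB' : ∀ i j, IsWeightedHomogeneous wt (B' i j) (d' i - d j + b', b', b'))
    (h : B.map (mk k) * B'.map (mk k) = 1) :
    B * B' = (qq k * X 6) ^ (b + b') • (1 : Matrix ι ι (PP k)) := by
  ext1 i j
  rw [← sub_eq_zero]
  refine mk_inj (d := (d i - d j + (b + b' : ℕ), (b + b' : ℕ), (b + b' : ℕ)))
    (IsWeightedHomogeneous.sub ?_ ?_) ?_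
  · rw [Matrix.mul_apply]
    refine IsWeightedHomogeneous.sum _ _ _ fun l _ => ?_
    have := (hB i l).mul (hB' l j)
    rw [Prod.mk_add_mk, Prod.mk_add_mk] at this
    push_cast
    rwa [show d i - d j + (b + b') = d i - d' l + b + (d' l - d j + b') by ring]
  · rw [Matrix.smul_apply, Matrix.one_apply]
    split_ifs with hij
    · have := (qq_hom.mul (isWeightedHomogeneous_X k wt 6)).pow (b + b')
      simp only [show wt 6 = (0, 0, 1) from rfl, Prod.smul_mk, Prod.mk_add_mk, nsmul_eq_mul,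
        mul_one, add_zero, zero_add] at this
      rwa [hij, sub_self, zero_add, smul_eq_mul, mul_one]
    · rw [smul_zero]
      exact isWeightedHomogeneous_zero _ _ _
  · rw [← Matrix.map_mul] at h
    have := congrFun (congrFun h i) j
    rw [Matrix.map_apply] at this
    rw [map_sub, this, Matrix.smul_apply, smul_eq_mul, map_mul, map_pow, map_mul, mk_qq, mk_X6,
      Matrix.one_apply, Matrix.one_apply]
    split_ifs <;> simp

/-- The weight attached to a degree. -/
def Q (j : ℤ) : ℤ := j * (j + 1) / 2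

theorem two_Q (j : ℤ) : 2 * Q j = j * (j + 1) :=
  Int.mul_ediv_cancel' (Int.even_mul_succ_self j).two_dvd

theorem Q_flip (j : ℤ) : Q (-1 - j) = Q j := by
  rw [Q, Q]
  congr 1
  ring

theorem core {ι κ : Type} [Fintype ι] [Fintype κ] [DecidableEq ι] [DecidableEq κ]
    {d : ι → ℤ} {d' : κ → ℤ} {U : Matrix ι κ (RR k)} {V : Matrix κ ι (RR k)} (hU : HM d d' U)
    (hV : HM d' d V) (h1 : U * V = 1) (h2 : V * U = 1) : ∑ i, Q (d i) = ∑ j, Q (d' j) := by
  obtain ⟨b, B, hB, rfl⟩ := hU.lift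
  obtain ⟨b', B', hB', rfl⟩ := hV.lift
  have h3 := lift_mul hB hB' h1
  have h4 := lift_mul hB' hB h2
  let f : Fin 8 → PP k := ![X 0, X 1, X 2, X 3, X 4, X 5, 1, 0]
  let z : PP k →+* PP k := (aeval f : PP k →ₐ[k] PP k).toRingHom
  have hz : z (qq k * X 6) = qq k := by simp [z, f, qq]
  let φ : Dg →+ Dg := (AddMonoidHom.id ℤ).prodMap ((AddMonoidHom.id ℤ).prodMap 0)
  have hf : ∀ s, IsWeightedHomogeneous wt (f s) (φ (wt s)) := by
    intro s
    fin_cases s
    exacts [isWeightedHomogeneous_X k wt 0, isWeightedHomogeneous_X k wt 1,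
      isWeightedHomogeneous_X k wt 2, isWeightedHomogeneous_X k wt 3,
      isWeightedHomogeneous_X k wt 4, isWeightedHomogeneous_X k wt 5,
      isWeightedHomogeneous_one k wt, isWeightedHomogeneous_zero _ _ _]
  have h5 : ∀ {μ : Type} [Fintype μ] [DecidableEq μ] (n : ℕ),
      ((qq k * X 6) ^ n • (1 : Matrix μ μ (PP k))).map z = qq k ^ n • (1 : Matrix μ μ (PP k)) := by
    intro μ _ _ n
    ext1 i j
    rw [Matrix.map_apply, Matrix.smul_apply, Matrix.smul_apply, smul_eq_mul, smul_eq_mul, map_mul,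
      map_pow, hz, Matrix.one_apply]
    split_ifs <;> simp
  have h6 := core_poly (k := k) (α := d) (β := fun _ => 0) (α' := fun j => d' j - b)
    (β' := fun _ => -b) (U := B.map z) (V := B'.map z) (e := b + b') (fun i j => by
      have := subst_hom φ f hf (hB i j)
      simp only [Prod.mk_sub_mk, zero_sub, neg_neg, sub_zero]
      rw [show d i - (d' j - b) = d i - d' j + b by ring]
      exact this) (by rw [← Matrix.map_mul, h3, h5]) (by rw [← Matrix.map_mul, h4, h5, add_comm])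
  have h7 : 2 * ∑ i, Q (d i) = 2 * ∑ j, Q (d' j) := by
    simp only [Finset.mul_sum, two_Q]
    simpa using h6
  omega

end Pool.Agent.P.MP_260cc8_ag.af
end

-- part Pool.Agent.P.MP_260cc8_ag.af.Cl
section

/-!
An integer invariant of homogeneous idempotent matrices.
-/

namespace Pool.Agent.P.MP_260cc8_ag.af

open MvPolynomial Matrix

variable {k : Type} [Field k]

section HM

variable {ι κ μ ν : Type} {d : ι → ℤ} {d' : κ → ℤ} {d'' : μ → ℤ} {d''' : ν → ℤ}

theorem HM.zero : HM d d' (0 : Matrix ι κ (RR k)) := fun _ _ => Hg.zero _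

theorem HM.one [DecidableEq ι] : HM d d (1 : Matrix ι ι (RR k)) := fun i j => by
  rw [Matrix.one_apply]
  split_ifs with h
  · rw [h, sub_self]
    exact Hg.one
  · exact Hg.zero _

theorem HM.add {A B : Matrix ι κ (RR k)} (hA : HM d d' A) (hB : HM d d' B) : HM d d' (A + B) :=
  fun i j => (hA i j).add (hB i j)

theorem HM.sub {A B : Matrix ι κ (RR k)} (hA : HM d d' A) (hB : HM d d' B) : HM d d' (A - B) :=
  fun i j => (hA i j).sub (hB i j)

theorem HM.mul [Fintype κ] {A : Matrix ι κ (RR k)} {B : Matrix κ μ (RR k)} (hA : HM d d' A)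
    (hB : HM d' d'' B) : HM d d'' (A * B) := fun i j => by
  rw [Matrix.mul_apply]
  refine Hg.sum _ fun l _ => ?_
  have := (hA i l).mul (hB l j)
  rwa [sub_add_sub_cancel] at this

theorem HM.fromCols {A : Matrix ι κ (RR k)} {B : Matrix ι μ (RR k)} (hA : HM d d' A)
    (hB : HM d d'' B) : HM d (Sum.elim d' d'') (fromCols A B) := by
  rintro i (j | j)
  exacts [hA i j, hB i j]

theorem HM.fromRows {A : Matrix κ ι (RR k)} {B : Matrix μ ι (RR k)} (hA : HM d' d A)
    (hB : HM d'' d B) : HM (Sum.elim d' d'') d (fromRows A B) := by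
  rintro (i | i) j
  exacts [hA i j, hB i j]

theorem HM.fromBlocks {A : Matrix ι μ (RR k)} {B : Matrix ι ν (RR k)} {C : Matrix κ μ (RR k)}
    {D : Matrix κ ν (RR k)} (hA : HM d d'' A) (hB : HM d d''' B) (hC : HM d' d'' C)
    (hD : HM d' d''' D) : HM (Sum.elim d d') (Sum.elim d'' d''') (fromBlocks A B C D) := by
  rintro (i | i) (j | j)
  exacts [hA i j, hB i j, hC i j, hD i j]

theorem HM.transpose {A : Matrix ι κ (RR k)} (hA : HM d d' A) :
    HM (fun j => -1 - d' j) (fun i => -1 - d i) Aᵀ := fun j i => by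
  have := hA i j
  rwa [show d i - d' j = -1 - d' j - (-1 - d i) by ring] at this

theorem HM.map {A : Matrix ι κ (RR k)} (hA : HM d d' A) (c : k) : HM d d' (A.map (ev c)) :=
  fun i j => (hA i j).ev c

end HM

/-- Data showing that the image of `e` is stably free. -/
structure Dat {ι : Type} [Fintype ι] (d : ι → ℤ) (e : Matrix ι ι (RR k)) (κ μ : Type) [Fintype κ]
    [Fintype μ] [DecidableEq κ] [DecidableEq μ] (d0 : κ → ℤ) (d1 : μ → ℤ) where
  a1 : Matrix ι κ (RR k)
  a2 : Matrix μ κ (RR k)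
  b1 : Matrix κ ι (RR k)
  b2 : Matrix κ μ (RR k)
  ha1 : HM d d0 a1
  ha2 : HM d1 d0 a2
  hb1 : HM d0 d b1
  hb2 : HM d0 d1 b2
  h0 : b1 * a1 + b2 * a2 = 1
  h11 : a1 * b1 = e
  h22 : a2 * b2 = 1
  h12 : a1 * b2 = 0
  h21 : a2 * b1 = 0

/-- The idempotent `e` has invariant `z`. -/
def Cl {ι : Type} [Fintype ι] (d : ι → ℤ) (e : Matrix ι ι (RR k)) (z : ℤ) : Prop :=
  ∃ (κ μ : Type) (_ : Fintype κ) (_ : Fintype μ) (_ : DecidableEq κ) (_ : DecidableEq μ)
    (d0 : κ → ℤ) (d1 : μ → ℤ), Nonempty (Dat d e κ μ d0 d1) ∧ z = ∑ i, Q (d0 i) - ∑ i, Q (d1 i)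

section

variable {ι : Type} [Fintype ι] {d : ι → ℤ} {e : Matrix ι ι (RR k)}

theorem Dat.ea {κ μ : Type} [Fintype κ] [Fintype μ] [DecidableEq κ] [DecidableEq μ] {d0 : κ → ℤ}
    {d1 : μ → ℤ} (D : Dat d e κ μ d0 d1) : e * D.a1 = D.a1 := by
  have h := congrArg (D.a1 * ·) D.h0
  simp only [Matrix.mul_add, ← Matrix.mul_assoc, D.h11, D.h12, Matrix.zero_mul, add_zero,
    Matrix.mul_one] at h
  exact h

theorem Dat.be {κ μ : Type} [Fintype κ] [Fintype μ] [DecidableEq κ] [DecidableEq μ] {d0 : κ → ℤ}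
    {d1 : μ → ℤ} (D : Dat d e κ μ d0 d1) : D.b1 * e = D.b1 := by
  have h := congrArg (· * D.b1) D.h0
  simp only [Matrix.add_mul, Matrix.mul_assoc, D.h11, D.h21, Matrix.mul_zero, add_zero,
    Matrix.one_mul] at h
  exact h

theorem Cl.unique {z z' : ℤ} (h : Cl d e z) (h' : Cl d e z') : z = z' := by
  obtain ⟨κ, μ, _, _, _, _, d0, d1, ⟨D⟩, rfl⟩ := h
  obtain ⟨κ', μ', _, _, _, _, d0', d1', ⟨D'⟩, rfl⟩ := h'
  have key : ∀ {κ μ κ' μ' : Type} [Fintype κ] [Fintype μ] [DecidableEq κ] [DecidableEq μ]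
      [Fintype κ'] [Fintype μ'] [DecidableEq κ'] [DecidableEq μ'] {d0 : κ → ℤ} {d1 : μ → ℤ}
      {d0' : κ' → ℤ} {d1' : μ' → ℤ} (D : Dat d e κ μ d0 d1) (D' : Dat d e κ' μ' d0' d1'),
      fromBlocks (D'.b1 * D.a1) D'.b2 D.a2 0 * fromBlocks (D.b1 * D'.a1) D.b2 D'.a2 0 = 1 := by
    intro κ μ κ' μ' _ _ _ _ _ _ _ _ d0 d1 d0' d1' D D'
    rw [fromBlocks_multiply, ← fromBlocks_one]
    congr 1
    · rw [Matrix.mul_assoc, ← Matrix.mul_assoc D.a1, D.h11, D'.ea, D'.h0]
    · rw [Matrix.mul_assoc, D.h12, Matrix.mul_zero, Matrix.mul_zero, add_zero]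
    · rw [← Matrix.mul_assoc, D.h21, Matrix.zero_mul, Matrix.zero_mul, add_zero]
    · rw [D.h22, Matrix.mul_zero, add_zero]
  have := core (HM.fromBlocks (D'.hb1.mul D.ha1) D'.hb2 D.ha2 HM.zero)
    (HM.fromBlocks (D.hb1.mul D'.ha1) D.hb2 D'.ha2 HM.zero) (key D D') (key D' D)
  simp only [Fintype.sum_sum_type, Sum.elim_inl, Sum.elim_inr] at this
  omega

theorem Cl.equiv {z : ℤ} (h : Cl d e z) {ι' : Type} [Fintype ι'] {d' : ι' → ℤ}
    {a : Matrix ι ι' (RR k)} {b : Matrix ι' ι (RR k)} (ha : HM d d' a) (hb : HM d' d b)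
    (hab : a * b = e) (hba : b * e * a = b * a) : Cl d' (b * a) z := by
  obtain ⟨κ, μ, _, _, _, _, d0, d1, ⟨D⟩, rfl⟩ := h
  refine ⟨κ, μ, _, _, _, _, d0, d1, ⟨⟨b * D.a1, D.a2, D.b1 * a, D.b2, hb.mul D.ha1, D.ha2,
    D.hb1.mul ha, D.hb2, ?_, ?_, D.h22, ?_, ?_⟩⟩, rfl⟩
  · rw [Matrix.mul_assoc, ← Matrix.mul_assoc a, hab, D.ea, D.h0]
  · rw [Matrix.mul_assoc, ← Matrix.mul_assoc D.a1, D.h11, ← Matrix.mul_assoc, hba]
  · rw [Matrix.mul_assoc, D.h12, Matrix.mul_zero]
  · rw [← Matrix.mul_assoc, D.h21, Matrix.zero_mul]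

theorem Cl.add {e' : Matrix ι ι (RR k)} {z z' : ℤ} (h : Cl d e z) (h' : Cl d e' z')
    (h1 : e * e' = 0) (h2 : e' * e = 0) : Cl d (e + e') (z + z') := by
  obtain ⟨κ, μ, _, _, _, _, d0, d1, ⟨D⟩, rfl⟩ := h
  obtain ⟨κ', μ', _, _, _, _, d0', d1', ⟨D'⟩, rfl⟩ := h'
  have h3 : D.b1 * D'.a1 = 0 := by
    rw [← D.be, ← D'.ea, Matrix.mul_assoc, ← Matrix.mul_assoc e, h1, Matrix.zero_mul,
      Matrix.mul_zero]
  have h4 : D'.b1 * D.a1 = 0 := by
    rw [← D'.be, ← D.ea, Matrix.mul_assoc, ← Matrix.mul_assoc e', h2, Matrix.zero_mul,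
      Matrix.mul_zero]
  refine ⟨κ ⊕ κ', μ ⊕ μ', _, _, inferInstance, inferInstance, Sum.elim d0 d0', Sum.elim d1 d1',
    ⟨⟨fromCols D.a1 D'.a1, fromBlocks D.a2 0 0 D'.a2, fromRows D.b1 D'.b1,
      fromBlocks D.b2 0 0 D'.b2, D.ha1.fromCols D'.ha1,
      HM.fromBlocks D.ha2 HM.zero HM.zero D'.ha2, D.hb1.fromRows D'.hb1,
      HM.fromBlocks D.hb2 HM.zero HM.zero D'.hb2, ?_, ?_, ?_, ?_, ?_⟩⟩, ?_⟩
  · rw [fromRows_mul_fromCols, fromBlocks_multiply, fromBlocks_add, h3, h4]
    simp [D.h0, D'.h0]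
  · rw [fromCols_mul_fromRows, D.h11, D'.h11]
  · rw [fromBlocks_multiply]
    simp [D.h22, D'.h22]
  · rw [fromCols_mul_fromBlocks]
    simp [D.h12, D'.h12]
  · rw [fromBlocks_mul_fromRows]
    simp [D.h21, D'.h21]
  · simp only [Fintype.sum_sum_type, Sum.elim_inl, Sum.elim_inr]
    ring

theorem Cl.diag [DecidableEq ι] (d : ι → ℤ) (S : ι → Prop) [DecidablePred S] :
    Cl d (diagonal fun i => if S i then (1 : RR k) else 0) (∑ i, if S i then Q (d i) else 0) := by
  have h1 : HM d d (1 : Matrix ι ι (RR k)) := HM.one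
  refine ⟨{i // S i}, Empty, _, _, inferInstance, inferInstance, fun i => d i.1, Empty.elim,
    ⟨⟨(1 : Matrix ι ι (RR k)).submatrix id Subtype.val, 0,
      (1 : Matrix ι ι (RR k)).submatrix Subtype.val id, 0, fun i j => h1 i j.1, HM.zero,
      fun i j => h1 i.1 j, HM.zero, ?_, ?_, Subsingleton.elim _ _, ?_, ?_⟩⟩, ?_⟩
  · ext i j
    simp [Matrix.mul_apply, Matrix.one_apply, Subtype.ext_iff]
  · ext i j
    simp only [Matrix.mul_apply, submatrix_apply, id, Matrix.one_apply, diagonal_apply]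
    by_cases hi : S i
    · rw [Finset.sum_eq_single ⟨i, hi⟩]
      · simp [hi]
      · intro l _ hl
        rw [if_neg (fun h => hl (Subtype.ext h.symm)), zero_mul]
      · simp
    · rw [Finset.sum_eq_zero]
      · simp [hi]
      · intro l _
        rw [if_neg (fun h : i = l.1 => hi (h ▸ l.2)), zero_mul]
  · simp
  · simp
  · rw [← Finset.sum_filter, Finset.sum_subtype (p := S) (F := inferInstance) _ (by simp)]
    simp

theorem Cl.transpose {z : ℤ} (h : Cl d e z) : Cl (fun i => -1 - d i) eᵀ z := by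
  obtain ⟨κ, μ, _, _, _, _, d0, d1, ⟨D⟩, rfl⟩ := h
  refine ⟨κ, μ, _, _, _, _, fun i => -1 - d0 i, fun i => -1 - d1 i,
    ⟨⟨D.b1ᵀ, D.b2ᵀ, D.a1ᵀ, D.a2ᵀ, D.hb1.transpose, D.hb2.transpose, D.ha1.transpose,
      D.ha2.transpose, ?_, ?_, ?_, ?_, ?_⟩⟩, by simp only [Q_flip]⟩
  · rw [← transpose_mul, ← transpose_mul, ← transpose_add, D.h0, transpose_one]
  · rw [← transpose_mul, D.h11]
  · rw [← transpose_mul, D.h22, transpose_one]
  · rw [← transpose_mul, D.h21, transpose_zero]
  · rw [← transpose_mul, D.h12, transpose_zero]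

theorem Cl.submatrix {z : ℤ} (h : Cl d e z) {ι' : Type} [Fintype ι'] (ρ : ι' ≃ ι) :
    Cl (fun i => d (ρ i)) (e.submatrix ρ ρ) z := by
  obtain ⟨κ, μ, _, _, _, _, d0, d1, ⟨D⟩, rfl⟩ := h
  refine ⟨κ, μ, _, _, _, _, d0, d1, ⟨⟨D.a1.submatrix ρ id, D.a2, D.b1.submatrix id ρ, D.b2,
    fun i j => D.ha1 _ _, D.ha2, fun i j => D.hb1 _ _, D.hb2, ?_, ?_, D.h22, ?_, ?_⟩⟩, rfl⟩
  · rw [submatrix_mul_equiv, submatrix_id_id, D.h0]
  · change (D.a1 * D.b1).submatrix ρ ρ = _
    rw [D.h11]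
  · change (D.a1 * D.b2).submatrix ρ id = 0
    rw [D.h12]
    rfl
  · change (D.a2 * D.b1).submatrix id ρ = 0
    rw [D.h21]
    rfl

theorem Cl.map {z : ℤ} (h : Cl d e z) (c : k) : Cl d (e.map (ev c)) z := by
  obtain ⟨κ, μ, _, _, _, _, d0, d1, ⟨D⟩, rfl⟩ := h
  refine ⟨κ, μ, _, _, _, _, d0, d1, ⟨⟨D.a1.map (ev c), D.a2.map (ev c), D.b1.map (ev c),
    D.b2.map (ev c), D.ha1.map c, D.ha2.map c, D.hb1.map c, D.hb2.map c, ?_, ?_, ?_, ?_, ?_⟩⟩, rfl⟩
  · rw [← Matrix.map_mul, ← Matrix.map_mul, ← Matrix.map_add _ (map_add _), D.h0,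
      Matrix.map_one _ (map_zero _) (map_one _)]
  · rw [← Matrix.map_mul, D.h11]
  · rw [← Matrix.map_mul, D.h22, Matrix.map_one _ (map_zero _) (map_one _)]
  · rw [← Matrix.map_mul, D.h12, Matrix.map_zero _ (map_zero _)]
  · rw [← Matrix.map_mul, D.h21, Matrix.map_zero _ (map_zero _)]

theorem Cl.step {κ : Type} [Fintype κ] [DecidableEq κ] {d' : κ → ℤ} {ψ : Matrix ι κ (RR k)}
    {s : Matrix κ ι (RR k)} (hψ : HM d d' ψ) (hs : HM d' d s) (h1 : ψ * s = e) (h2 : e * ψ = ψ)
    (h3 : s * e = s) {z : ℤ} (h : Cl d' (1 - s * ψ) z) : ∃ z', Cl d e z' := by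
  obtain ⟨κ', μ', _, _, _, _, d0, d1, ⟨D⟩, -⟩ := h
  have h4 : ψ * D.a1 = 0 := by
    rw [← D.ea, ← Matrix.mul_assoc, Matrix.mul_sub, Matrix.mul_one, ← Matrix.mul_assoc, h1, h2,
      sub_self, Matrix.zero_mul]
  have h5 : D.b1 * s = 0 := by
    rw [← D.be, Matrix.mul_assoc, Matrix.sub_mul, Matrix.one_mul, Matrix.mul_assoc, h1, h3,
      sub_self, Matrix.mul_zero]
  refine ⟨_, κ ⊕ μ', κ', _, _, inferInstance, inferInstance, Sum.elim d' d1, d0,
    ⟨⟨fromCols ψ 0, fromCols D.b1 D.b2, fromRows s 0, fromRows D.a1 D.a2, hψ.fromCols HM.zero,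
      D.hb1.fromCols D.hb2, hs.fromRows HM.zero, D.ha1.fromRows D.ha2, ?_, ?_, ?_, ?_, ?_⟩⟩, rfl⟩
  · rw [fromRows_mul_fromCols, fromRows_mul_fromCols, fromBlocks_add]
    simp [D.h11, D.h12, D.h21, D.h22]
  · rw [fromCols_mul_fromRows, h1, Matrix.zero_mul, add_zero]
  · rw [fromCols_mul_fromRows, D.h0]
  · rw [fromCols_mul_fromRows, h4, Matrix.zero_mul, add_zero]
  · rw [fromCols_mul_fromRows, h5, Matrix.mul_zero, add_zero]

end

theorem col_lift {n : ℕ} (D : Fin n → Dg) {j : ℤ} {v : Fin n → RR k}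
    (hv : ∀ i, Hg ((D i).1 - (D i).2.1 - j) (v i)) :
    ∃ (δ : Dg) (p : Fin n → PP k), δ.1 - δ.2.1 = -j ∧ (fr k wt D).π δ p = p ∧
      ∀ i, mk k (p i) = v i := by
  obtain ⟨b, p, hp⟩ := Hg.lift hv (fun i => (D i).2.1) (fun i => (D i).2.2)
  refine ⟨(b - j, b, b), p, by simp, funext fun i => selfGr_iff.mpr ?_, fun i => (hp i).2⟩
  have := (hp i).1
  rwa [show (D i).1 - (D i).2.1 - j + ((D i).2.1 + b) = (D i).1 + (b - j) by ring] at this

theorem cl_of_res {n : ℕ} {D : Fin n → Dg} {K : Submodule (PP k) (Fin n → PP k)}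
    (h : Res k wt ∅ n D K) : ∀ e : Matrix (Fin n) (Fin n) (RR k), e * e = e →
      (∀ j, ∃ (δ : Dg) (p : Fin n → PP k), δ.1 - δ.2.1 = -((D j).1 - (D j).2.1) ∧
        (fr k wt D).π δ p = p ∧ p ∈ K ∧ ∀ i, mk k (p i) = e i j) →
      (∀ p ∈ K, e *ᵥ (fun i => mk k (p i)) = fun i => mk k (p i)) →
      ∃ z, Cl (fun i => (D i).1 - (D i).2.1) e z := by
  induction h with
  | zero n D =>
    intro e _ h1 _
    have : e = diagonal fun _ => if False then 1 else 0 := by
      ext i j
      obtain ⟨δ, p, -, -, hp, hp'⟩ := h1 j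
      rw [IJ_empty, Submodule.mem_bot] at hp
      rw [← hp' i, hp]
      simp
    rw [this]
    exact ⟨_, Cl.diag _ _⟩
  | step n D n' D' ψ hψ _ ih =>
    intro e he h1 h2
    rw [IJ_empty, sup_bot_eq] at h1 h2
    rw [IJ_empty] at ih
    have hmk : ∀ c : Fin n' → PP k, ψ.map (mk k) *ᵥ (fun i => mk k (c i)) =
        fun i => mk k ((ψ *ᵥ c) i) := fun c => funext fun i => (RingHom.map_mulVec _ _ _ i).symm
    have hψ' : HM (fun i => (D i).1 - (D i).2.1) (fun i => (D' i).1 - (D' i).2.1)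
        (ψ.map (mk k)) := fun i j => by
      have := Hg.of_hom (hψ i j)
      simp only [Prod.fst_sub, Prod.snd_sub] at this
      rwa [sub_sub_sub_comm] at this
    have h3 : ∀ j, ∃ c : Fin n' → RR k, (∀ i, Hg ((D' i).1 - (D' i).2.1 - ((D j).1 - (D j).2.1))
        (c i)) ∧ ψ.map (mk k) *ᵥ c = fun i => e i j := by
      intro j
      obtain ⟨δ, p, hδ, hp, ⟨c, rfl⟩, hp'⟩ := h1 j
      refine ⟨fun i => mk k ((fr k wt D').π δ c i), fun i => ?_, ?_⟩
      · have := Hg.of_hom (k := k) (weightedHomogeneousComponent_isWeightedHomogeneous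
          (w := wt) (D' i + δ) (c i))
        simp only [Prod.fst_add, Prod.snd_add] at this
        rwa [add_sub_add_comm, hδ, ← sub_eq_add_neg] at this
      · have h4 := hψ.map δ c
        rw [zero_add, hp] at h4
        rw [hmk, ← funext hp', h4]
        rfl
    choose c hc hc' using h3
    let s : Matrix (Fin n') (Fin n) (RR k) := Matrix.of fun i j => c j i
    have hs : HM (fun i => (D' i).1 - (D' i).2.1) (fun i => (D i).1 - (D i).2.1) s :=
      fun i j => hc j i
    have h4 : ψ.map (mk k) * s = e := by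
      ext i j
      exact congrFun (hc' j) i
    have hH : HM (fun i => (D i).1 - (D i).2.1) (fun i => (D i).1 - (D i).2.1) e :=
      h4 ▸ hψ'.mul hs
    have h5 : e * ψ.map (mk k) = ψ.map (mk k) := by
      ext i j
      exact congrFun (h2 (fun i => ψ i j) ⟨Pi.single j 1, by funext i; simp⟩) i
    have h6 : ψ.map (mk k) * (s * e) = e := by rw [← Matrix.mul_assoc, h4, he]
    have h7 : ψ.map (mk k) * (1 - s * e * ψ.map (mk k)) = 0 := by
      rw [Matrix.mul_sub, Matrix.mul_one, ← Matrix.mul_assoc, h6, h5, sub_self]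
    have h8 := HM.sub HM.one ((hs.mul hH).mul hψ')
    obtain ⟨z, hz⟩ := ih (1 - s * e * ψ.map (mk k)) (by
      rw [Matrix.sub_mul, Matrix.one_mul, Matrix.mul_assoc (s * e), h7, Matrix.mul_zero, sub_zero])
      (fun j => by
        obtain ⟨δ, p, hδ, hp, hp'⟩ := col_lift D' fun i => h8 i j
        refine ⟨δ, p, hδ, hp, ?_, hp'⟩
        rw [Submodule.mem_comap, Submodule.mem_bot]
        funext i
        have h9 := hψ.map δ p
        rw [zero_add, hp] at h9
        refine mk_inj (selfGr_iff.mp (congrFun h9 i)) ?_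
        have h10 := congrFun (hmk p) i
        rw [funext hp'] at h10
        exact h10.symm.trans (congrFun (congrFun h7 i) j))
      (fun p hp => by
        have h9 : ψ *ᵥ p = 0 := hp
        rw [Matrix.sub_mulVec, Matrix.one_mulVec, ← Matrix.mulVec_mulVec, hmk, h9]
        simp only [Pi.zero_apply, map_zero]
        rw [show (fun _ : Fin n => (0 : RR k)) = 0 from rfl, Matrix.mulVec_zero, sub_zero])
    exact Cl.step hψ' (hs.mul hH) h6 h5 (by rw [Matrix.mul_assoc, he]) hz

theorem cl_exists {ι : Type} [Fintype ι] {d : ι → ℤ} {e : Matrix ι ι (RR k)} (hH : HM d d e)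
    (he : e * e = e) : ∃ z, Cl d e z := by
  have key : ∀ (n : ℕ) (d : Fin n → ℤ) (e : Matrix (Fin n) (Fin n) (RR k)), HM d d e → e * e = e →
      ∃ z, Cl d e z := by
    intro n d e hH he
    have h1 := fun j => col_lift (k := k) (fun i => ((d i, 0, 0) : Dg)) (j := d j)
      (v := fun i => e i j) fun i => by simpa using hH i j
    choose δ p hδ hp hp' using h1
    have h2 := cl_of_res (ffr ((AddMonoidHom.fst ℤ (ℤ × ℤ)) +
        ((AddMonoidHom.fst ℤ ℤ) + (AddMonoidHom.snd ℤ ℤ)).comp (AddMonoidHom.snd ℤ (ℤ × ℤ)))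
      (fun s => by fin_cases s <;> simp [wt]) n _ _ ((fr k wt _).sub_span p δ hp)) e he
      (fun j => ⟨δ j, p j, by simpa using hδ j, hp j, Submodule.subset_span ⟨j, rfl⟩, hp' j⟩)
      (fun v hv => by
        induction hv using Submodule.span_induction with
        | mem x hx =>
          obtain ⟨j, rfl⟩ := hx
          rw [funext (hp' j)]
          funext i
          exact congrFun (congrFun he i) j
        | zero =>
          simp only [Pi.zero_apply, map_zero]
          exact Matrix.mulVec_zero e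
        | add x y _ _ hx hy =>
          simp only [Pi.add_apply, map_add]
          exact (Matrix.mulVec_add e _ _).trans (by rw [hx, hy]; rfl)
        | smul r x _ hx =>
          simp only [Pi.smul_apply, smul_eq_mul, map_mul]
          exact (Matrix.mulVec_smul e (mk k r) _).trans (by rw [hx]; rfl))
    simpa using h2
  let ρ := Fintype.equivFin ι
  obtain ⟨z, hz⟩ := key _ (fun i => d (ρ.symm i)) (e.submatrix ρ.symm ρ.symm)
    (fun i j => hH _ _) (by rw [submatrix_mul_equiv, he])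
  refine ⟨z, ?_⟩
  simpa using hz.submatrix ρ

end Pool.Agent.P.MP_260cc8_ag.af
end

-- part Pool.Agent.P.MP_260cc8_ag.af.Op
section

/-!
Toeplitz operators attached to matrices over the graded ring.
-/

namespace Pool.Agent.P.MP_260cc8_ag.af

open Matrix

variable {k : Type} [Field k]

/-- The index set. -/
abbrev Ix := ℤ × Fin 4

/-- Operators. -/
def En (k : Type) [Field k] : Type := Module.End (RR k) (Ix →₀ RR k)

noncomputable instance : Ring (En k) := Module.End.instRing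

/-- The linear map of an operator. -/
def En.to (f : En k) : (Ix →₀ RR k) →ₗ[RR k] (Ix →₀ RR k) := f

/-- Square matrices of size four. -/
abbrev M4 (k : Type) [Field k] := Matrix (Fin 4) (Fin 4) (RR k)

/-- Matrix coefficients. -/
noncomputable def coef (f : En k) (u v : Ix) : RR k := f.to (Finsupp.single v 1) u

theorem coef_ext {f g : En k} (h : ∀ u v, coef f u v = coef g u v) : f = g :=
  show f.to = g.to from
    Finsupp.lhom_ext' fun v => LinearMap.ext_ring (Finsupp.ext fun u => h u v)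

theorem coef_mul (f g : En k) (u v : Ix) (s : Finset Ix) (h : ∀ w, w ∉ s → coef g w v = 0) :
    coef (f * g) u v = ∑ w ∈ s, coef f u w * coef g w v := by
  have h1 : g.to (Finsupp.single v 1) = ∑ w ∈ s, coef g w v • Finsupp.single w (1 : RR k) := by
    ext w
    rw [Finsupp.finsetSum_apply]
    simp only [Finsupp.smul_apply, Finsupp.single_apply, smul_eq_mul, mul_ite, mul_one, mul_zero,
      Finset.sum_ite_eq']
    split_ifs with hw
    · rfl
    · exact h w hw
  change f.to (g.to (Finsupp.single v 1)) u = _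
  rw [h1, map_sum, Finsupp.finsetSum_apply]
  refine Finset.sum_congr rfl fun w _ => ?_
  rw [map_smul, Finsupp.smul_apply, smul_eq_mul, mul_comm]
  rfl

theorem coef_supp (g : En k) (v : Ix) :
    ∀ w, w ∉ (g.to (Finsupp.single v 1)).support → coef g w v = 0 :=
  fun _ hw => Finsupp.notMem_support_iff.mp hw

theorem coef_add (f g : En k) (u v : Ix) : coef (f + g) u v = coef f u v + coef g u v := rfl

theorem coef_sub (f g : En k) (u v : Ix) : coef (f - g) u v = coef f u v - coef g u v := rfl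

theorem coef_zero (u v : Ix) : coef (0 : En k) u v = 0 := rfl

theorem coef_one (u v : Ix) : coef (1 : En k) u v = if u = v then 1 else 0 := by
  change Finsupp.single v (1 : RR k) u = _
  simp [Finsupp.single_apply, eq_comm]

/-- Coordinate projections. -/
noncomputable def chi (k : Type) [Field k] (S : Ix → Prop) [DecidablePred S] : En k :=
  show (Ix →₀ RR k) →ₗ[RR k] (Ix →₀ RR k) from
    { toFun x := x.filter S
      map_add' _ _ := Finsupp.filter_add
      map_smul' _ _ := Finsupp.filter_smul }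

theorem coef_chi_mul (S : Ix → Prop) [DecidablePred S] (f : En k) (u v : Ix) :
    coef (chi k S * f) u v = if S u then coef f u v else 0 := Finsupp.filter_apply _ _ _

theorem coef_mul_chi (S : Ix → Prop) [DecidablePred S] (f : En k) (u v : Ix) :
    coef (f * chi k S) u v = if S v then coef f u v else 0 := by
  change f.to ((Finsupp.single v (1 : RR k)).filter S) u = _
  split_ifs with h
  · rw [Finsupp.filter_single_of_pos _ h]
    rfl
  · rw [Finsupp.filter_single_of_neg _ h, map_zero]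
    rfl

theorem coef_chi (S : Ix → Prop) [DecidablePred S] (u v : Ix) :
    coef (chi k S) u v = if S u then (if u = v then 1 else 0) else 0 := by
  rw [← mul_one (chi k S), coef_chi_mul, coef_one]

/-- All components of the entries have degree at most `m` in absolute value. -/
def Band (m : ℤ) (σ : M4 k) : Prop := ∀ a b l, cp l (σ a b) ≠ 0 → |l| ≤ m

theorem exists_band {ι : Type} [Finite ι] (σ : ι → M4 k) :
    ∃ m : ℤ, 2 ≤ m ∧ ∀ i, Band m (σ i) := by
  choose m hm using fun u : ι × Fin 4 × Fin 4 => cp_band (σ u.1 u.2.1 u.2.2)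
  obtain ⟨a, ha⟩ := (Set.finite_range m).bddAbove
  exact ⟨max a 2, le_max_right _ _, fun i x y l hl =>
    ((hm (i, x, y) l hl).trans (ha ⟨_, rfl⟩)).trans (le_max_left _ _)⟩

/-- The Toeplitz operator of a matrix. -/
noncomputable def hat (σ : M4 k) : En k :=
  Finsupp.linearCombination (RR k) fun v : Ix =>
    Finsupp.ofSupportFinite (fun u : Ix => cp (u.1 - v.1) (σ u.2 v.2)) (by
      obtain ⟨m, -, hm⟩ := exists_band fun _ : Unit => σ
      refine ((Set.finite_Icc (v.1 - m) (v.1 + m)).prod Set.finite_univ).subset fun u hu => ?_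
      have := abs_le.mp (hm () _ _ _ hu)
      exact ⟨⟨by omega, by omega⟩, trivial⟩)

theorem coef_hat (σ : M4 k) (u v : Ix) : coef (hat σ) u v = cp (u.1 - v.1) (σ u.2 v.2) := by
  rw [coef, hat, En.to, Finsupp.linearCombination_single, one_smul]
  rfl

theorem hat_mul (σ τ : M4 k) : hat (σ * τ) = hat σ * hat τ := by
  refine coef_ext fun u v => ?_
  obtain ⟨m, -, hm⟩ := exists_band fun _ : Unit => τ
  have h0 : ∀ a b l, l ∉ Finset.Icc (-m) m → cp l (τ a b) = 0 := by
    intro a b l hl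
    by_contra h
    exact hl (Finset.mem_Icc.mpr (abs_le.mp (hm () a b l h)))
  rw [coef_mul _ _ u v (((Finset.Icc (-m) m).map (addRightEmbedding v.1)) ×ˢ Finset.univ)
    (fun w hw => by
      rw [coef_hat]
      refine h0 _ _ _ fun h => hw ?_
      exact Finset.mem_product.mpr ⟨Finset.mem_map.mpr ⟨_, h, by simp⟩, Finset.mem_univ _⟩),
    coef_hat, Matrix.mul_apply, cp_sum, Finset.sum_product, Finset.sum_map, Finset.sum_comm]
  refine Finset.sum_congr rfl fun γ _ => ?_
  rw [cp_mul _ _ _ _ (h0 γ v.2)]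
  refine Finset.sum_congr rfl fun l _ => ?_
  simp only [coef_hat, addRightEmbedding_apply, add_sub_cancel_right]
  congr 2
  ring

theorem hat_one : hat (1 : M4 k) = 1 := by
  refine coef_ext fun u v => ?_
  rw [coef_hat, coef_one, Matrix.one_apply]
  by_cases h : u.2 = v.2
  · rw [if_pos h, Hg.one.cp_eq]
    simp [Prod.ext_iff, h, sub_eq_zero]
  · rw [if_neg h, cp_zero, if_neg fun h' => h (congrArg Prod.snd h')]

/-- Homogeneous operators. -/
def Hm (f : En k) : Prop := ∀ u v, Hg (u.1 - v.1) (coef f u v)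

theorem Hm.mul {f g : En k} (hf : Hm f) (hg : Hm g) : Hm (f * g) := fun u v => by
  rw [coef_mul f g u v _ (coef_supp g v)]
  refine Hg.sum _ fun w _ => ?_
  have := (hf u w).mul (hg w v)
  rwa [sub_add_sub_cancel] at this

theorem Hm.sub {f g : En k} (hf : Hm f) (hg : Hm g) : Hm (f - g) :=
  fun u v => (hf u v).sub (hg u v)

theorem Hm.one : Hm (1 : En k) := fun u v => by
  rw [coef_one]
  split_ifs with h
  · rw [h, sub_self]
    exact Hg.one
  · exact Hg.zero _

theorem Hm.chi (S : Ix → Prop) [DecidablePred S] : Hm (chi k S) := fun u v => by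
  rw [← mul_one (af.chi k S), coef_chi_mul]
  split_ifs
  · exact Hm.one u v
  · exact Hg.zero _

theorem Hm.hat (σ : M4 k) : Hm (hat σ) := fun u v => by
  rw [coef_hat]
  exact cp_hg _ _

/-- The projection to degrees at least `c`. -/
noncomputable def up (k : Type) [Field k] (c : ℤ) : En k := chi k fun u => c ≤ u.1

/-- The projection to degrees below `c`. -/
noncomputable def lo (k : Type) [Field k] (c : ℤ) : En k := chi k fun u => u.1 < c

theorem chi_mul_chi {S T U : Ix → Prop} [DecidablePred S] [DecidablePred T] [DecidablePred U]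
    (h : ∀ u, U u ↔ S u ∧ T u) : chi k S * chi k T = chi k U := by
  refine coef_ext fun u v => ?_
  rw [coef_chi_mul, coef_chi, coef_chi]
  have := h u
  by_cases h1 : S u <;> by_cases h2 : T u <;> simp_all

theorem chi_mul_chi_zero {S T : Ix → Prop} [DecidablePred S] [DecidablePred T]
    (h : ∀ u, S u → ¬T u) : chi k S * chi k T = 0 := by
  refine coef_ext fun u v => ?_
  rw [coef_chi_mul, coef_chi, coef_zero]
  have := h u
  by_cases h1 : S u <;> simp_all

theorem up_add_lo (c : ℤ) : up k c + lo k c = 1 := by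
  refine coef_ext fun u v => ?_
  rw [coef_add, up, lo, coef_chi, coef_chi, coef_one]
  by_cases h : c ≤ u.1
  · simp [h, not_lt.mpr h]
  · simp [h, not_le.mp h]

theorem lo_hat_up {m a c : ℤ} {σ : M4 k} (hσ : Band m σ) (h : a + m ≤ c) :
    lo k a * hat σ * up k c = 0 := by
  refine coef_ext fun u v => ?_
  rw [up, lo, coef_mul_chi, coef_chi_mul, coef_hat, coef_zero]
  split_ifs with h1 h2
  · by_contra h3
    have := abs_le.mp (hσ _ _ _ h3)
    omega
  · rfl
  · rfl

theorem up_hat_lo {m a c : ℤ} {σ : M4 k} (hσ : Band m σ) (h : c + m ≤ a) :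
    up k a * hat σ * lo k c = 0 := by
  refine coef_ext fun u v => ?_
  rw [up, lo, coef_mul_chi, coef_chi_mul, coef_hat, coef_zero]
  split_ifs with h1 h2
  · by_contra h3
    have := abs_le.mp (hσ _ _ _ h3)
    omega
  · rfl
  · rfl

/-- Idempotents squeezed between two coordinate projections. -/
structure Cm (c : ℤ) (p : En k) : Prop where
  hm : Hm p
  idem : p * p = p
  ul : up k c * p = up k c
  ur : p * up k c = up k c
  ll : lo k (-c) * p = 0
  lr : p * lo k (-c) = 0

theorem Cm.chi {c : ℤ} {S : Ix → Prop} [DecidablePred S] (h1 : ∀ u, c ≤ u.1 → S u)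
    (h2 : ∀ u, S u → -c ≤ u.1) : Cm c (chi k S) where
  hm := Hm.chi S
  idem := chi_mul_chi fun _ => by simp
  ul := chi_mul_chi fun u => ⟨fun h => ⟨h, h1 u h⟩, fun h => h.1⟩
  ur := chi_mul_chi fun u => ⟨fun h => ⟨h1 u h, h⟩, fun h => h.2⟩
  ll := chi_mul_chi_zero fun u h h' => absurd (h2 u h') (not_le.mpr h)
  lr := chi_mul_chi_zero fun u h h' => absurd (h2 u h) (not_le.mpr h')

theorem Cm.mono {c c' : ℤ} {p : En k} (h : Cm c p) (hc : c ≤ c') : Cm c' p := by
  have h1 : up k c' * up k c = up k c' := chi_mul_chi fun u => by omega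
  have h2 : up k c * up k c' = up k c' := chi_mul_chi fun u => by omega
  have h3 : lo k (-c') * lo k (-c) = lo k (-c') := chi_mul_chi fun u => by omega
  have h4 : lo k (-c) * lo k (-c') = lo k (-c') := chi_mul_chi fun u => by omega
  refine ⟨h.hm, h.idem, ?_, ?_, ?_, ?_⟩
  · rw [← h1, mul_assoc, h.ul]
  · rw [← h2, ← mul_assoc, h.ur]
  · rw [← h3, mul_assoc, h.ll, mul_zero]
  · rw [← h4, ← mul_assoc, h.lr, zero_mul]

theorem Cm.conj {c m : ℤ} {p : En k} (h : Cm c p) {σ τ : M4 k} (hσ : Band m σ) (hτ : Band m τ)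
    (h1 : σ * τ = 1) (h2 : τ * σ = 1) : Cm (c + m) (hat σ * p * hat τ) := by
  have e1 : hat σ * hat τ = 1 := by rw [← hat_mul, h1, hat_one]
  have e2 : hat τ * hat σ = 1 := by rw [← hat_mul, h2, hat_one]
  have a1 : up k (c + m) * hat σ * up k c = up k (c + m) * hat σ := by
    conv_rhs => rw [← mul_one (up k (c + m) * hat σ), ← up_add_lo c, mul_add,
      up_hat_lo hσ le_rfl, add_zero]
  have a2 : up k c * (hat τ * up k (c + m)) = hat τ * up k (c + m) := by
    conv_rhs => rw [← one_mul (hat τ * up k (c + m)), ← up_add_lo c, add_mul, ← mul_assoc (lo k c),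
      lo_hat_up hτ le_rfl, add_zero]
  have a3 : lo k (-(c + m)) * hat σ * lo k (-c) = lo k (-(c + m)) * hat σ := by
    conv_rhs => rw [← mul_one (lo k (-(c + m)) * hat σ), ← up_add_lo (-c), mul_add,
      lo_hat_up hσ (by omega), zero_add]
  have a4 : lo k (-c) * (hat τ * lo k (-(c + m))) = hat τ * lo k (-(c + m)) := by
    conv_rhs => rw [← one_mul (hat τ * lo k (-(c + m))), ← up_add_lo (-c), add_mul,
      ← mul_assoc (up k (-c)), up_hat_lo hτ (by omega), zero_add]
  refine ⟨((Hm.hat σ).mul h.hm).mul (Hm.hat τ), ?_, ?_, ?_, ?_, ?_⟩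
  · calc hat σ * p * hat τ * (hat σ * p * hat τ) = hat σ * (p * (hat τ * hat σ) * p) * hat τ := by
          simp only [mul_assoc]
      _ = _ := by rw [e2, mul_one, h.idem]
  · rw [← mul_assoc, ← mul_assoc, ← a1, mul_assoc _ (up k c), h.ul, a1, mul_assoc, e1, mul_one]
  · rw [mul_assoc, ← a2, ← mul_assoc, mul_assoc _ p, h.ur, mul_assoc, a2, ← mul_assoc, e1, one_mul]
  · rw [← mul_assoc, ← mul_assoc, ← a3, mul_assoc _ (lo k (-c)), h.ll, mul_zero, zero_mul]
  · rw [mul_assoc, ← a4, ← mul_assoc, mul_assoc _ p, h.lr, mul_zero, zero_mul]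

theorem hat_chi {σ : M4 k} {α β : Fin 4 → ℤ} (h : ∀ a b, Hg (β a + α b) (σ a b))
    {S T : Ix → Prop} [DecidablePred S] [DecidablePred T] (hS : ∀ u, S u ↔ -α u.2 ≤ u.1)
    (hT : ∀ u, T u ↔ β u.2 ≤ u.1) : hat σ * chi k S = chi k T * hat σ := by
  refine coef_ext fun u v => ?_
  rw [coef_mul_chi, coef_chi_mul, coef_hat, (h _ _).cp_eq]
  simp only [hS, hT]
  split_ifs <;> first | rfl | omega

/-- The reflection of the index set. -/
def flip : Ix ≃ Ix where
  toFun u := (-1 - u.1, u.2)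
  invFun u := (-1 - u.1, u.2)
  left_inv u := by simp
  right_inv u := by simp

theorem flip_flip (u : Ix) : flip (flip u) = u := by simp [flip]

/-- `f'` is the reflected transpose of `f`. -/
def Fl (f f' : En k) : Prop := ∀ u v, coef f' u v = coef f (flip v) (flip u)

theorem Fl.mul {f f' g g' : En k} (hf : Fl f f') (hg : Fl g g') : Fl (f * g) (g' * f') := by
  intro u v
  let s := (g.to (Finsupp.single (flip u) 1)).support ∪
    (f'.to (Finsupp.single v 1)).support.map flip.toEmbedding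
  rw [coef_mul f g _ _ s fun w hw => coef_supp g _ w fun h => hw (Finset.mem_union_left _ h),
    coef_mul g' f' u v (s.map flip.toEmbedding) fun w hw => coef_supp f' _ w fun h => hw
      (Finset.mem_map.mpr ⟨flip w, Finset.mem_union_right _ (Finset.mem_map_of_mem _ h),
        flip_flip w⟩), Finset.sum_map]
  refine Finset.sum_congr rfl fun w _ => ?_
  rw [hf, hg, Equiv.coe_toEmbedding, flip_flip, mul_comm]

theorem Fl.hat (σ : M4 k) : Fl (hat σ) (hat σᵀ) := fun u v => by
  rw [coef_hat, coef_hat]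
  simp [flip]

theorem Fl.up : Fl (up k 0) (lo k 0) := fun u v => by
  rw [af.up, lo, coef_chi, coef_chi]
  by_cases h : u = v
  · subst h
    have : (0 ≤ (flip u).1) ↔ u.1 < 0 := by
      simp only [flip, Equiv.coe_fn_mk]
      omega
    simp [this]
  · have : flip v ≠ flip u := fun h' => h (flip.injective h').symm
    simp [h, this]

/-- `f'` is obtained from `f` by substituting `c` in all coefficients. -/
def Ev (c : k) (f f' : En k) : Prop := ∀ u v, coef f' u v = ev c (coef f u v)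

theorem Ev.mul {c : k} {f f' g g' : En k} (hf : Ev c f f') (hg : Ev c g g') :
    Ev c (f * g) (f' * g') := by
  intro u v
  rw [coef_mul f g u v _ (coef_supp g v), coef_mul f' g' u v _ fun w hw => by
    rw [hg, coef_supp g v w hw, map_zero], map_sum]
  exact Finset.sum_congr rfl fun w _ => by rw [hf, hg, map_mul]

theorem Ev.hat (c : k) (σ : M4 k) : Ev c (hat σ) (hat (σ.map (ev c))) := fun u v => by
  rw [coef_hat, coef_hat, Matrix.map_apply, cp_ev]

theorem Ev.chi (c : k) (S : Ix → Prop) [DecidablePred S] : Ev c (chi k S) (chi k S) :=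
  fun u v => by
    rw [coef_chi]
    split_ifs <;> simp

end Pool.Agent.P.MP_260cc8_ag.af
end

-- part Pool.Agent.P.MP_260cc8_ag.af.Ind
section

/-!
The index of Toeplitz idempotents and its parity.
-/

namespace Pool.Agent.P.MP_260cc8_ag.af

open Matrix

variable {k : Type} [Field k]

/-- The window. -/
noncomputable def Wd (M : ℤ) : Finset Ix := Finset.Ico (-M) M ×ˢ Finset.univ

theorem mem_Wd {M : ℤ} {u : Ix} : u ∈ Wd M ↔ -M ≤ u.1 ∧ u.1 < M := by simp [Wd]

/-- The projection to the window. -/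
noncomputable def win (k : Type) [Field k] (M : ℤ) : En k := chi k fun u => u ∈ Wd M

/-- The compression to the window. -/
noncomputable def cmp (M : ℤ) (f : En k) : Matrix (Wd M) (Wd M) (RR k) :=
  Matrix.of fun u v => coef f u v

/-- Degrees in the window. -/
noncomputable def dg (M : ℤ) (u : Wd M) : ℤ := u.1.1

theorem cmp_mul (M : ℤ) (f g : En k) : cmp M (f * win k M * g) = cmp M f * cmp M g := by
  ext u v
  rw [cmp, Matrix.of_apply, mul_assoc, coef_mul _ _ _ _ (Wd M) fun w hw => by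
    rw [win, coef_chi_mul, if_neg hw], Matrix.mul_apply, ← Finset.sum_coe_sort]
  refine Finset.sum_congr rfl fun w _ => ?_
  rw [win, coef_chi_mul, if_pos w.2]
  rfl

theorem cmp_win (M : ℤ) (f : En k) : cmp M (f * win k M) = cmp M f := by
  ext u v
  rw [cmp, Matrix.of_apply, win, coef_mul_chi, if_pos v.2]
  rfl

theorem cmp_add (M : ℤ) (f g : En k) : cmp M (f + g) = cmp M f + cmp M g := rfl

theorem cmp_zero (M : ℤ) : cmp M (0 : En k) = 0 := rfl

theorem Hm.cmp {f : En k} (h : Hm f) (M : ℤ) : HM (dg M) (dg M) (cmp M f) := fun u v => h u v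

theorem cmp_mul' {M : ℤ} (f : En k) {g : En k} (h : win k M * g = g * win k M) :
    cmp M f * cmp M g = cmp M (f * g) := by
  rw [← cmp_mul, mul_assoc, h, ← mul_assoc, cmp_win]

/-- Homogeneous idempotents commuting with the window. -/
structure Gd (M : ℤ) (p : En k) : Prop where
  hm : Hm p
  idem : p * p = p
  comm : win k M * p = p * win k M

open Classical in
/-- The index. -/
noncomputable def ind (M : ℤ) (p : En k) : ℤ :=
  if h : ∃ z, Cl (dg M) (cmp M p) z then h.choose else 0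

theorem ind_eq {M : ℤ} {p : En k} {z : ℤ} (h : Cl (dg M) (cmp M p) z) : ind M p = z := by
  have h1 : ∃ z, Cl (dg M) (cmp M p) z := ⟨z, h⟩
  rw [ind, dif_pos h1]
  exact h1.choose_spec.unique h

theorem Gd.cl {M : ℤ} {p : En k} (h : Gd M p) : Cl (dg M) (cmp M p) (ind M p) := by
  obtain ⟨z, hz⟩ := cl_exists (h.hm.cmp M) (by rw [cmp_mul' _ h.comm, h.idem])
  rwa [ind_eq hz]

theorem ind_add {M : ℤ} {p p' : En k} (h : Gd M p) (h' : Gd M p') (h1 : p * p' = 0)
    (h2 : p' * p = 0) : ind M (p + p') = ind M p + ind M p' := by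
  have := h.cl.add h'.cl (by rw [cmp_mul' _ h'.comm, h1, cmp_zero])
    (by rw [cmp_mul' _ h.comm, h2, cmp_zero])
  rw [← cmp_add] at this
  exact ind_eq this

theorem ind_conj {M : ℤ} {f g g' : En k} (hf : Gd M f) (hw : win k M * f = f) (hg : Hm g)
    (hg' : Hm g') (h : g' * g = 1) (hw' : win k M * (g * f * g') = g * f * g') :
    ind M (g * f * g') = ind M f := by
  have h1 : win k M * (g * f) = g * f := by
    have := congrArg (· * g) hw'
    simp only [mul_assoc, h, mul_one] at this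
    exact this
  have h2 : cmp M (f * g') * cmp M (g * f) = cmp M f := by
    rw [← cmp_mul, mul_assoc, h1, mul_assoc, ← mul_assoc g', h, one_mul, hf.idem]
  have h3 : cmp M (g * f) * cmp M (f * g') = cmp M (g * f * g') := by
    rw [← cmp_mul, mul_assoc, ← mul_assoc (win k M), hw, ← mul_assoc, mul_assoc g, hf.idem]
  have h4 : cmp M (g * f) * cmp M f = cmp M (g * f) := by
    rw [cmp_mul' _ hf.comm, mul_assoc, hf.idem]
  have := hf.cl.equiv ((hf.hm.mul hg').cmp M) ((hg.mul hf.hm).cmp M) h2 (by rw [h4])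
  rw [h3] at this
  exact ind_eq this

theorem win_eq {M : ℤ} (hM : 0 ≤ M) : win k M = 1 - up k M - lo k (-M) := by
  refine coef_ext fun u v => ?_
  rw [coef_sub, coef_sub, win, up, lo, coef_chi, coef_chi, coef_chi, coef_one]
  simp only [mem_Wd]
  split_ifs <;> first | omega | simp

theorem Cm.win_mul {M : ℤ} {p : En k} (h : Cm M p) (hM : 0 ≤ M) : win k M * p = p - up k M := by
  rw [win_eq hM, sub_mul, sub_mul, one_mul, h.ul, h.ll, sub_zero]

theorem Cm.gd {M : ℤ} {p : En k} (h : Cm M p) (hM : 0 ≤ M) : Gd M p :=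
  ⟨h.hm, h.idem, by
    rw [h.win_mul hM, win_eq hM, mul_sub, mul_sub, mul_one, h.ur, h.lr, sub_zero]⟩

theorem Cm.up {c a : ℤ} (h1 : a ≤ c) (h2 : -c ≤ a) : Cm c (up k a) :=
  Cm.chi (fun _ h => h1.trans h) fun _ h => h2.trans h

theorem Gd.sub {M : ℤ} {p p' : En k} (h : Gd M p) (h' : Gd M p') (h1 : p * p' = p')
    (h2 : p' * p = p') : Gd M (p - p') :=
  ⟨h.hm.sub h'.hm, by rw [sub_mul, mul_sub, mul_sub, h.idem, h'.idem, h1, h2]; abel,
    by rw [mul_sub, sub_mul, h.comm, h'.comm]⟩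

theorem ind_sub {M : ℤ} {p p' : En k} (h : Gd M p) (h' : Gd M p') (h1 : p * p' = p')
    (h2 : p' * p = p') : ind M p = ind M p' + ind M (p - p') := by
  rw [← ind_add h' (h.sub h' h1 h2) (by rw [mul_sub, h2, h'.idem, sub_self])
    (by rw [sub_mul, h1, h'.idem, sub_self]), add_sub_cancel]

theorem ind_indep {c m : ℤ} (hc : 0 ≤ c) (hm : 0 ≤ m) {p : En k} (h : Cm c p) {σ τ : M4 k}
    (hσ : Band m σ) (hτ : Band m τ) (h1 : σ * τ = 1) (h2 : τ * σ = 1) :
    ind (c + m) (hat σ * p * hat τ) - ind (c + m) p =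
      ind (c + m) (hat σ * up k c * hat τ) - ind (c + m) (up k c) := by
  have e2 : hat τ * hat σ = 1 := by rw [← hat_mul, h2, hat_one]
  have hM : 0 ≤ c + m := by omega
  have hu : Cm c (up k c) := Cm.up le_rfl (by omega)
  have g1 := (h.mono (c' := c + m) (by omega))
  have g2 := (hu.mono (c' := c + m) (by omega))
  have g3 := h.conj hσ hτ h1 h2
  have g4 := hu.conj hσ hτ h1 h2
  have k1 : ∀ a b : En k, hat σ * a * hat τ * (hat σ * b * hat τ) = hat σ * (a * b) * hat τ := by
    intro a b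
    calc _ = hat σ * (a * (hat τ * hat σ) * b) * hat τ := by simp only [mul_assoc]
      _ = _ := by rw [e2, mul_one]
  have k2 : hat σ * p * hat τ - hat σ * up k c * hat τ = hat σ * (p - up k c) * hat τ := by
    rw [mul_sub, sub_mul]
  rw [ind_sub (g1.gd hM) (g2.gd hM) h.ur h.ul,
    ind_sub (g3.gd hM) (g4.gd hM) (by rw [k1, h.ur]) (by rw [k1, h.ul]), k2,
    ind_conj ((g1.gd hM).sub (g2.gd hM) h.ur h.ul) (by
      rw [mul_sub, g1.win_mul hM, g2.win_mul hM]; abel) (Hm.hat σ) (Hm.hat τ) e2 (by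
      rw [← k2, mul_sub, g3.win_mul hM, g4.win_mul hM]; abel)]
  ring

theorem ind_indep' {m : ℤ} (hm : 0 ≤ m) {p p' : En k} (h : Cm m p) (h' : Cm m p') {σ τ : M4 k}
    (hσ : Band m σ) (hτ : Band m τ) (h1 : σ * τ = 1) (h2 : τ * σ = 1) :
    ind (m + m) (hat σ * p * hat τ) - ind (m + m) p =
      ind (m + m) (hat σ * p' * hat τ) - ind (m + m) p' := by
  rw [ind_indep hm hm h hσ hτ h1 h2, ind_indep hm hm h' hσ hτ h1 h2]

/-- The reflection of the window. -/
noncomputable def flipW (M : ℤ) : Wd M ≃ Wd M :=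
  flip.subtypeEquiv fun u => by
    simp only [mem_Wd, flip, Equiv.coe_fn_mk]
    omega

theorem ind_flip {M : ℤ} {f f' : En k} (h : Fl f f') (hf : Gd M f) : ind M f' = ind M f := by
  have h1 := hf.cl.transpose.submatrix (flipW M)
  have h2 : (fun i => -1 - dg M (flipW M i)) = dg M := by
    funext i
    simp [dg, flipW, flip]
  have h3 : (cmp M f)ᵀ.submatrix (flipW M) (flipW M) = cmp M f' := by
    ext u v
    exact (h u v).symm
  rw [h2, h3] at h1
  exact ind_eq h1

theorem ind_ev {M : ℤ} {c : k} {f f' : En k} (h : Ev c f f') (hf : Gd M f) :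
    ind M f' = ind M f := by
  have h1 := hf.cl.map c
  have h3 : (cmp M f).map (ev c) = cmp M f' := by
    ext u v
    exact (h u v).symm
  rw [h3] at h1
  exact ind_eq h1

theorem ind_chi (M : ℤ) (S : Ix → Prop) [DecidablePred S] :
    ind M (chi k S) = ∑ u : Wd M, if S u then Q u.1.1 else 0 := by
  have h1 := Cl.diag (k := k) (dg M) fun u => S u
  have h2 : (diagonal fun u : Wd M => if S u then (1 : RR k) else 0) = cmp M (chi k S) := by
    ext u v
    rw [cmp, Matrix.of_apply, coef_chi, diagonal_apply]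
    by_cases h : u = v
    · simp [h]
    · simp [h, Subtype.ext_iff.not.mp h]
  rw [h2] at h1
  exact ind_eq h1

theorem ind_dual {m : ℤ} (hm : 0 ≤ m) {σ τ : M4 k} (hσ : Band m σ) (hτ : Band m τ)
    (h1 : σ * τ = 1) (h2 : τ * σ = 1) :
    ind (m + m) (hat τᵀ * up k 0 * hat σᵀ) + ind (m + m) (hat σ * up k 0 * hat τ) =
      ind (m + m) (1 : En k) := by
  have hM : 0 ≤ m + m := by omega
  have hu : Cm m (up k 0) := Cm.up hm (by omega)
  have g1 := (hu.conj hσ hτ h1 h2).gd hM
  have g2 := (hu.conj (σ := τᵀ) (τ := σᵀ) (fun a b => hτ b a) (fun a b => hσ b a)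
    (by rw [← transpose_mul, h1, transpose_one]) (by rw [← transpose_mul, h2, transpose_one])).gd hM
  have h3 := ind_flip (((Fl.hat σ).mul Fl.up).mul (Fl.hat τ)) g1
  have h4 : hat τᵀ * (lo k 0 * hat σᵀ) = 1 - hat τᵀ * up k 0 * hat σᵀ := by
    rw [eq_sub_iff_add_eq, mul_assoc, ← mul_add, ← add_mul, add_comm, up_add_lo, one_mul,
      ← hat_mul, ← transpose_mul, h1, transpose_one, hat_one]
  rw [← h3, h4]
  exact (ind_sub ⟨Hm.one, mul_one _, by rw [mul_one, one_mul]⟩ g2 (one_mul _) (mul_one _)).symm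

theorem parity {S S' H K ψ ψ' : M4 k} (hS : S * S' = 1) (hH : H * K = 1) (hψ : ψ * ψ' = 1)
    (h0 : ∀ a b, Hg 0 (ψ a b)) (h1 : S.map (ev 1) = H * ψ * Hᵀ)
    (h2 : ∀ a b, Hg (![1, -1, -1, -1] a + ![2, 0, 0, 0] b) (S.map (ev 0) a b)) : False := by
  have hS' := mul_eq_one_comm.mp hS
  have hH' := mul_eq_one_comm.mp hH
  have hψ' := mul_eq_one_comm.mp hψ
  have hev : ∀ c, S.map (ev c) * S'.map (ev c) = 1 := fun c => by
    rw [← Matrix.map_mul, hS, Matrix.map_one _ (map_zero _) (map_one _)]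
  obtain ⟨m, hm, hb⟩ := exists_band ![S, S', H, K, H * ψ, ψ' * K, S.map (ev 0), S'.map (ev 0)]
  have hm0 : 0 ≤ m := by omega
  have hM : 0 ≤ m + m := by omega
  have hu : Cm m (up k 0) := Cm.up hm0 (by omega)
  have hu0 : Cm 0 (up k 0) := Cm.up le_rfl (by omega)
  have gS := (hu.conj (hb 0) (hb 1) hS hS').gd hM
  have a0 := ind_ev (((Ev.hat 0 S).mul (Ev.chi 0 _)).mul (Ev.hat 0 S')) gS
  have a1 := ind_ev (((Ev.hat 1 S).mul (Ev.chi 1 _)).mul (Ev.hat 1 S')) gS
  have b1 : H * ψ * (ψ' * K) = 1 := by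
    rw [Matrix.mul_assoc, ← Matrix.mul_assoc ψ, hψ, Matrix.one_mul, hH]
  have b2 : S'.map (ev 1) = Kᵀ * (ψ' * K) := by
    refine left_inv_eq_right_inv (mul_eq_one_comm.mp (hev 1)) ?_
    rw [h1, Matrix.mul_assoc, ← Matrix.mul_assoc Hᵀ, ← transpose_mul, hH', transpose_one,
      Matrix.one_mul, b1]
  have cT : Cm m (hat Hᵀ * up k 0 * hat Kᵀ) := by
    have := hu0.conj (σ := Hᵀ) (τ := Kᵀ) (fun a b => hb 2 b a) (fun a b => hb 3 b a)
      (by rw [← transpose_mul, hH', transpose_one]) (by rw [← transpose_mul, hH, transpose_one])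
    rwa [zero_add] at this
  have cH : Cm m (hat H * up k 0 * hat K) := by
    have := hu0.conj (hb 2) (hb 3) hH hH'
    rwa [zero_add] at this
  have d1 := ind_indep' hm0 cT hu (hb 4) (hb 5) b1 (mul_eq_one_comm.mp b1)
  have d2 := ind_indep' hm0 cH hu (hb 3) (hb 2) hH' hH
  have d3 := ind_dual hm0 (hb 3) (hb 2) hH' hH
  have d4 := ind_dual (k := k) hm0 (σ := 1) (τ := 1) (fun a b l hl => by
    have : Hg 0 ((1 : M4 k) a b) := by simpa using HM.one (d := fun _ : Fin 4 => 0) a b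
    rw [this.cp_eq] at hl
    split_ifs at hl with h
    · simpa [h] using hm0
    · exact absurd rfl hl) (fun a b l hl => by
    have : Hg 0 ((1 : M4 k) a b) := by simpa using HM.one (d := fun _ : Fin 4 => 0) a b
    rw [this.cp_eq] at hl
    split_ifs at hl with h
    · simpa [h] using hm0
    · exact absurd rfl hl) (one_mul _) (one_mul _)
  let T : Ix → Prop := fun u => -(![2, 0, 0, 0] : Fin 4 → ℤ) u.2 ≤ u.1
  let T' : Ix → Prop := fun u => (![1, -1, -1, -1] : Fin 4 → ℤ) u.2 ≤ u.1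
  have cχ : Cm m (chi k T) := Cm.chi (fun u h => by
      obtain ⟨j, a⟩ := u
      fin_cases a <;> simp [T] at h ⊢ <;> omega) (fun u h => by
      obtain ⟨j, a⟩ := u
      fin_cases a <;> simp [T] at h ⊢ <;> omega)
  have d5 := ind_indep' hm0 cχ hu (hb 6) (hb 7) (hev 0) (mul_eq_one_comm.mp (hev 0))
  have e1 : hat ψ * up k 0 = up k 0 * hat ψ :=
    hat_chi (α := 0) (β := 0) (by simpa using h0) (by simp) (by simp)
  have e2 : hat (H * ψ) * up k 0 * hat (ψ' * K) = hat H * up k 0 * hat K := by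
    rw [hat_mul, mul_assoc (hat H), e1, mul_assoc, mul_assoc, ← hat_mul, ← Matrix.mul_assoc, hψ,
      Matrix.one_mul, mul_assoc]
  have e3 : hat (H * ψ) * (hat Hᵀ * up k 0 * hat Kᵀ) * hat (ψ' * K) =
      hat (S.map (ev 1)) * up k 0 * hat (S'.map (ev 1)) := by
    rw [h1, b2, hat_mul (H * ψ), hat_mul Kᵀ]
    simp only [mul_assoc]
  have e4 : hat K * (hat H * up k 0 * hat K) * hat H = up k 0 := by
    calc _ = hat K * hat H * up k 0 * (hat K * hat H) := by simp only [mul_assoc]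
      _ = _ := by rw [← hat_mul, hH', hat_one, one_mul, mul_one]
  have e5 : hat (S.map (ev 0)) * chi k T * hat (S'.map (ev 0)) = chi k T' := by
    rw [hat_chi (T := T') h2 (fun _ => Iff.rfl) (fun _ => Iff.rfl), mul_assoc, ← hat_mul, hev,
      hat_one, mul_one]
  have e6 : ind (m + m) (chi k T) - ind (m + m) (chi k T') = 1 := by
    rw [ind_chi, ind_chi, ← Finset.sum_sub_distrib,
      Finset.sum_eq_single ⟨(-2, 0), mem_Wd.mpr (by simp only; omega)⟩]
    · simp [T, T', Q]
    · rintro ⟨⟨j, a⟩, hu⟩ _ hne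
      have hne' : ¬(j = -2 ∧ a = 0) := fun h => hne (Subtype.ext (Prod.ext h.1 h.2))
      have q0 : Q 0 = 0 := rfl
      have q1 : Q (-1) = 0 := rfl
      by_cases j0 : j = 0
      · simp [j0, q0]
      by_cases j1 : j = -1
      · simp [j1, q1]
      have : T (j, a) ↔ T' (j, a) := by
        fin_cases a <;> simp [T, T'] at hne' ⊢ <;> omega
      simp [this]
    · simp
  simp only [Matrix.cons_val] at d1 d2 d3 d5
  rw [e2, e3] at d1
  rw [e4] at d2
  rw [e5] at d5
  rw [transpose_one, hat_one, one_mul, mul_one] at d4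
  change ind _ (_ * up k 0 * _) = _ at a0 a1
  omega

end Pool.Agent.P.MP_260cc8_ag.af
end

-- part Pool.Agent.P.MP_260cc8_ag.af.Dh
section

/-!
The index as a homomorphism on invertible matrices.
-/

namespace Pool.Agent.P.MP_260cc8_ag.af

open Matrix

variable {k : Type} [Field k]

/-- The compression to two windows. -/
noncomputable def cmp2 (M M' : ℤ) (f : En k) : Matrix (Wd M) (Wd M') (RR k) :=
  Matrix.of fun u v => coef f u v

theorem cmp2_mul (M M' M'' : ℤ) (f g : En k) :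
    cmp2 M M' f * cmp2 M' M'' g = cmp2 M M'' (f * (win k M' * g)) := by
  ext u v
  rw [cmp2, cmp2, cmp2, Matrix.of_apply, coef_mul _ _ _ _ (Wd M') fun w hw => by
    rw [win, coef_chi_mul, if_neg hw], Matrix.mul_apply, ← Finset.sum_coe_sort (Wd M')
    fun w => coef f u w * coef (win k M' * g) w v]
  refine Finset.sum_congr rfl fun w _ => ?_
  rw [win, coef_chi_mul, if_pos w.2]
  rfl

theorem ind_win {M M' : ℤ} {f : En k} (hf : Gd M f) (h : win k M * f = f)
    (h' : win k M' * f = f) : ind M' f = ind M f := by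
  have h1 : cmp2 M' M f * cmp2 M M' f = cmp M' f := by
    rw [cmp2_mul, h, hf.idem]
    rfl
  have := hf.cl.equiv (d' := dg M') (a := cmp2 M M' f) (b := cmp2 M' M f)
    (fun u v => hf.hm u v) (fun u v => hf.hm u v) (by
      rw [cmp2_mul, h', hf.idem]
      rfl) (by
      rw [show cmp M f = cmp2 M M f from rfl, cmp2_mul M' M M, h, hf.idem])
  rw [h1] at this
  exact ind_eq this

theorem ind_win' {c M : ℤ} (hc : 0 ≤ c) (hM : c ≤ M) {p : En k} (h : Cm c p) :
    ind M p - ind M (up k c) = ind c (p - up k c) := by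
  have hu : Cm c (up k c) := Cm.up le_rfl (by omega)
  have hM0 : 0 ≤ M := by omega
  rw [ind_sub ((h.mono hM).gd hM0) ((hu.mono hM).gd hM0) h.ur h.ul, add_sub_cancel_left]
  refine ind_win ((h.gd hc).sub (hu.gd hc) h.ur h.ul) ?_ ?_
  · rw [mul_sub, h.win_mul hc, hu.win_mul hc]
    abel
  · rw [mul_sub, (h.mono hM).win_mul hM0, (hu.mono hM).win_mul hM0]
    abel

theorem Band.mono {m m' : ℤ} {σ : M4 k} (h : Band m σ) (hm : m ≤ m') : Band m' σ :=
  fun a b l hl => (h a b l hl).trans hm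

/-- The index of a pair in a window. -/
noncomputable def Dw (M : ℤ) (σ τ : M4 k) : ℤ :=
  ind M (hat σ * up k 0 * hat τ) - ind M (up k 0)

theorem Dw_indep {m M M' : ℤ} (hm : 0 ≤ m) (hM : m ≤ M) (hM' : m ≤ M') {σ τ : M4 k}
    (hσ : Band m σ) (hτ : Band m τ) (h : σ * τ = 1) : Dw M σ τ = Dw M' σ τ := by
  have hu0 : Cm 0 (up k 0) := Cm.up le_rfl (by omega)
  have c1 := hu0.conj hσ hτ h (mul_eq_one_comm.mp h)
  rw [zero_add] at c1
  have c2 := hu0.mono hm
  have a1 := ind_win' hm hM c1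
  have a2 := ind_win' hm hM' c1
  have a3 := ind_win' hm hM c2
  have a4 := ind_win' hm hM' c2
  unfold Dw
  omega

/-- The index of a matrix. -/
noncomputable def Dm (σ : M4 k) : ℤ :=
  Dw (exists_band ![σ, σ⁻¹]).choose σ σ⁻¹

theorem Dm_eq {m M : ℤ} (hm : 0 ≤ m) (hM : m ≤ M) {σ τ : M4 k} (h : σ * τ = 1) (hσ : Band m σ)
    (hτ : Band m τ) : Dm σ = Dw M σ τ := by
  obtain rfl := Matrix.inv_eq_right_inv h
  obtain ⟨h1, h2⟩ := (exists_band ![σ, σ⁻¹]).choose_spec
  exact (Dw_indep (by omega) le_rfl (le_max_left _ m) (h2 0) (h2 1) h).trans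
    (Dw_indep hm hM (le_max_right _ m) hσ hτ h).symm

theorem Dm_mul {σ τ σ' τ' : M4 k} (h : σ * τ = 1) (h' : σ' * τ' = 1) :
    Dm (σ * σ') = Dm σ + Dm σ' := by
  obtain ⟨m, hm, hb⟩ := exists_band ![σ, τ, σ', τ', σ * σ', τ' * τ]
  have hm0 : 0 ≤ m := by omega
  have hM : m ≤ m + m := by omega
  have hu0 : Cm 0 (up k 0) := Cm.up le_rfl (by omega)
  have c1 := hu0.conj (hb 2) (hb 3) h' (mul_eq_one_comm.mp h')
  rw [zero_add] at c1
  have d := ind_indep' hm0 c1 (hu0.mono hm0) (hb 0) (hb 1) h (mul_eq_one_comm.mp h)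
  rw [Dm_eq hm0 hM h (hb 0) (hb 1), Dm_eq hm0 hM h' (hb 2) (hb 3),
    Dm_eq hm0 hM (σ := σ * σ') (τ := τ' * τ) (by
      rw [Matrix.mul_assoc, ← Matrix.mul_assoc σ', h', Matrix.one_mul, h]) (hb 4) (hb 5)]
  simp only [Matrix.cons_val, Dw, hat_mul, mul_assoc] at d ⊢
  omega

theorem Dm_pat {σ τ : M4 k} (h : σ * τ = 1) {α β : Fin 4 → ℤ}
    (hp : ∀ a b, Hg (β a + α b) (σ a b)) : ∃ M : ℤ, 2 ≤ M ∧
      Dm σ = (∑ u : Wd M, if β u.1.2 ≤ u.1.1 then Q u.1.1 else 0) -
        ∑ u : Wd M, if -α u.1.2 ≤ u.1.1 then Q u.1.1 else 0 := by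
  obtain ⟨m0, hm0, hb⟩ := exists_band ![σ, τ]
  obtain ⟨a, ha⟩ := (Set.finite_range fun i => |α i|).bddAbove
  let m := max m0 a
  have h1 : m0 ≤ m := le_max_left _ _
  have h2 : ∀ i, |α i| ≤ m := fun i => (ha ⟨i, rfl⟩).trans (le_max_right _ _)
  have hm : 0 ≤ m := by omega
  let T : Ix → Prop := fun u => -α u.2 ≤ u.1
  let T' : Ix → Prop := fun u => β u.2 ≤ u.1
  have cχ : Cm m (chi k T) := Cm.chi (fun u h => by
      have := abs_le.mp (h2 u.2)
      simp only [T]
      omega) (fun u h => by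
      have := abs_le.mp (h2 u.2)
      simp only [T] at h
      omega)
  have hu : Cm m (up k 0) := Cm.up hm (by omega)
  have d := ind_indep' hm cχ hu ((hb 0).mono h1) ((hb 1).mono h1) h (mul_eq_one_comm.mp h)
  simp only [Matrix.cons_val] at d
  rw [hat_chi (T := T') hp (fun _ => Iff.rfl) (fun _ => Iff.rfl), mul_assoc, ← hat_mul, h,
    hat_one, mul_one, ind_chi, ind_chi] at d
  refine ⟨m + m, by omega, ?_⟩
  rw [Dm_eq hm (M := m + m) (by omega) h ((hb 0).mono h1) ((hb 1).mono h1)]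
  exact d.symm

theorem Dm_zero {σ τ : M4 k} (h : σ * τ = 1) (hp : ∀ a b, Hg 0 (σ a b)) : Dm σ = 0 := by
  obtain ⟨M, -, hM⟩ := Dm_pat h (α := 0) (β := 0) (by simpa using hp)
  simpa using hM

theorem Dm_one : Dm (1 : M4 k) = 0 :=
  Dm_zero (one_mul _) fun a b => by simpa using HM.one (k := k) (d := fun _ : Fin 4 => 0) a b

theorem Dm_inv {σ τ : M4 k} (h : σ * τ = 1) : Dm τ = -Dm σ := by
  have := Dm_mul h (mul_eq_one_comm.mp h)
  rw [h, Dm_one] at this
  omega

theorem Dm_neg_one {σ τ : M4 k} (h : σ * τ = 1)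
    (hp : ∀ a b, Hg (![1, -1, -1, -1] a + ![2, 0, 0, 0] b) (σ a b)) : Dm σ = -1 := by
  obtain ⟨M, hM, h1⟩ := Dm_pat h hp
  rw [h1, ← Finset.sum_sub_distrib,
    Finset.sum_eq_single ⟨(-2, 0), mem_Wd.mpr (by simp only; omega)⟩]
  · simp [Q]
  · rintro ⟨⟨j, a⟩, hu⟩ _ hne
    have hne' : ¬(j = -2 ∧ a = 0) := fun h => hne (Subtype.ext (Prod.ext h.1 h.2))
    have q0 : Q 0 = 0 := rfl
    have q1 : Q (-1) = 0 := rfl
    by_cases j0 : j = 0
    · simp [j0, q0]
    by_cases j1 : j = -1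
    · simp [j1, q1]
    have : (![1, -1, -1, -1] : Fin 4 → ℤ) a ≤ j ↔ -(![2, 0, 0, 0] : Fin 4 → ℤ) a ≤ j := by
      fin_cases a <;> simp at hne' ⊢ <;> omega
    simp [this]
  · simp

theorem Dm_transpose {σ τ : M4 k} (h : σ * τ = 1) : Dm σᵀ = Dm σ := by
  obtain ⟨m, hm, hb⟩ := exists_band ![σ, τ, 1]
  have hm0 : 0 ≤ m := by omega
  have hM : m ≤ m + m := by omega
  have h' := mul_eq_one_comm.mp h
  have d3 := ind_dual hm0 (hb 1) (hb 0) h' h
  have d4 := ind_dual hm0 (hb 2) (hb 2) (one_mul _) (one_mul _)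
  have d5 := Dm_inv h
  rw [Dm_eq hm0 hM h' (hb 1) (hb 0)] at d5
  rw [Dm_eq hm0 hM (σ := σᵀ) (τ := τᵀ) (by rw [← transpose_mul, h', transpose_one])
    (fun a b => hb 0 b a) (fun a b => hb 1 b a)]
  simp only [Matrix.cons_val, transpose_one, hat_one, one_mul, mul_one, Dw] at d3 d4 d5 ⊢
  omega

theorem Dm_ev {σ τ : M4 k} (h : σ * τ = 1) (c : k) : Dm (σ.map (ev c)) = Dm σ := by
  obtain ⟨m, hm, hb⟩ := exists_band ![σ, τ, σ.map (ev c), τ.map (ev c)]
  have hm0 : 0 ≤ m := by omega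
  have hM : m ≤ m + m := by omega
  have hu : Cm m (up k 0) := Cm.up hm0 (by omega)
  have gS := (hu.conj (hb 0) (hb 1) h (mul_eq_one_comm.mp h)).gd (by omega)
  have a0 := ind_ev (((Ev.hat c σ).mul (Ev.chi c _)).mul (Ev.hat c τ)) gS
  rw [Dm_eq hm0 hM h (hb 0) (hb 1), Dm_eq hm0 hM (σ := σ.map (ev c)) (τ := τ.map (ev c)) (by
    rw [← Matrix.map_mul, h, Matrix.map_one _ (map_zero _) (map_one _)]) (hb 2) (hb 3)]
  exact congrArg (· - ind (m + m) (up k 0)) a0

theorem Dm_diag (i : Fin 4) {a b : RR k} (h : a * b = 1) :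
    Dm (diagonal (Function.update 1 i a)) = Dm (diagonal (Function.update 1 0 a)) := by
  have h1 : (diagonal (Function.update 1 0 a) : M4 k) * diagonal (Function.update 1 0 b) = 1 := by
    rw [diagonal_mul_diagonal, ← diagonal_one]
    congr 1
    funext j
    fin_cases j <;> simp [h]
  have h2 : (Matrix.swap (RR k) i 0) * Matrix.swap (RR k) i 0 = 1 := swap_mul_self _ _
  have h3 : Dm (Matrix.swap (RR k) i 0) = 0 := Dm_zero h2 fun u v => by
    simp only [Matrix.swap, Equiv.Perm.permMatrix, PEquiv.toMatrix_apply]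
    split_ifs
    exacts [Hg.one, Hg.zero _]
  have h4 : (diagonal (Function.update 1 i a) : M4 k) =
      Matrix.swap (RR k) i 0 * (diagonal (Function.update 1 0 a) * Matrix.swap (RR k) i 0) := by
    rw [← Matrix.mul_assoc, Matrix.swap, Equiv.Perm.permMatrix, PEquiv.toMatrix_toPEquiv_mul,
      PEquiv.mul_toMatrix_toPEquiv, Equiv.symm_swap, submatrix_submatrix]
    simp only [Function.comp_id, Function.id_comp, submatrix_diagonal_equiv]
    congr 1
    funext j
    fin_cases i <;> fin_cases j <;> simp [Equiv.swap_apply_def]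
  rw [h4, Dm_mul h2 (τ' := Matrix.swap (RR k) i 0 * diagonal (Function.update 1 0 b)) (by
    rw [Matrix.mul_assoc, ← Matrix.mul_assoc (Matrix.swap (RR k) i 0), h2, Matrix.one_mul, h1]),
    Dm_mul h1 h2, h3]
  ring

end Pool.Agent.P.MP_260cc8_ag.af
end

-- part Pool.Agent.P.MP_260cc8_ag.af.Sk
section

/-!
Alternating matrices attached to unimodular rows, and the parity obstruction.
-/

namespace Pool.Agent.P.MP_260cc8_ag.af

open Matrix

section gen

variable {A : Type} [CommRing A]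

/-- The alternating matrix of two vectors. -/
def Vm (v w : Fin 3 → A) : Matrix (Fin 4) (Fin 4) A :=
  !![0, -v 0, -v 1, -v 2; v 0, 0, -w 2, w 1; v 1, w 2, 0, -w 0; v 2, -w 1, w 0, 0]

/-- The block matrix with blocks one and `C`. -/
def Km (C : Matrix (Fin 3) (Fin 3) A) : Matrix (Fin 4) (Fin 4) A :=
  !![1, 0, 0, 0; 0, C 0 0, C 0 1, C 0 2; 0, C 1 0, C 1 1, C 1 2; 0, C 2 0, C 2 1, C 2 2]

theorem Vm_mul {v w : Fin 3 → A} (h : v ⬝ᵥ w = 1) : Vm v w * (-Vm w v) = 1 := by
  simp only [dotProduct, Fin.sum_univ_three] at h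
  ext i j
  fin_cases i <;> fin_cases j <;> simp [Vm, Matrix.mul_apply, Fin.sum_univ_four] <;>
    first | ring1 | linear_combination h

theorem Km_mul {C G : Matrix (Fin 3) (Fin 3) A} (h : C * G = 1) : Km C * Km G = 1 := by
  have h1 : ∀ i j, C i 0 * G 0 j + C i 1 * G 1 j + C i 2 * G 2 j = if i = j then 1 else 0 := by
    intro i j
    have := congrFun (congrFun h i) j
    rwa [Matrix.mul_apply, Fin.sum_univ_three, Matrix.one_apply] at this
  ext i j
  fin_cases i <;> fin_cases j <;> simp [Km, Matrix.mul_apply, Fin.sum_univ_four, h1]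

theorem Km_Vm (C : Matrix (Fin 3) (Fin 3) A) (v w : Fin 3 → A) :
    Km C * Vm v w * (Km C)ᵀ = Vm (C *ᵥ v) ((adjugate C)ᵀ *ᵥ w) := by
  ext i j
  fin_cases i <;> fin_cases j <;>
    simp [Km, Vm, Matrix.mul_apply, Fin.sum_univ_four, adjugate_fin_three, Matrix.mulVec,
      dotProduct, Fin.sum_univ_three] <;> ring

theorem Vm_map {B : Type} [CommRing B] (f : A →+* B) (v w : Fin 3 → A) :
    (Vm v w).map f = Vm (fun i => f (v i)) fun i => f (w i) := by
  ext i j
  fin_cases i <;> fin_cases j <;> simp [Vm]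

theorem Vm_smul (v w : Fin 3 → A) {a b : A} (h : a * b = 1) :
    Vm v (a • w) = diagonal (Function.update 1 1 a) * (diagonal (Function.update 1 2 a) *
      (diagonal (Function.update 1 3 a) * (Vm v w * diagonal (Function.update 1 0 b)))) := by
  ext i j
  simp only [diagonal_mul, mul_diagonal]
  fin_cases i <;> fin_cases j <;> simp [Vm] <;> linear_combination (-v _) * h

theorem diag_inv (i : Fin 4) {a b : A} (h : a * b = 1) :
    (diagonal (Function.update 1 i a) : Matrix (Fin 4) (Fin 4) A) *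
      diagonal (Function.update 1 i b) = 1 := by
  rw [diagonal_mul_diagonal, ← diagonal_one]
  congr 1
  funext j
  by_cases hj : j = i
  · simp [hj, h]
  · simp [hj]

theorem mul_inv' {n : Type} [Fintype n] [DecidableEq n] {σ τ σ' τ' : Matrix n n A} (h : σ * τ = 1)
    (h' : σ' * τ' = 1) : σ * σ' * (τ' * τ) = 1 := by
  rw [Matrix.mul_assoc, ← Matrix.mul_assoc σ', h', Matrix.one_mul, h]

theorem no_comp_gen (D : Matrix (Fin 4) (Fin 4) A → ℤ)
    (Dmul : ∀ {σ τ σ' τ'}, σ * τ = 1 → σ' * τ' = 1 → D (σ * σ') = D σ + D σ')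
    (Dinv : ∀ {σ τ}, σ * τ = 1 → D τ = -D σ) (Dtr : ∀ {σ τ}, σ * τ = 1 → D σᵀ = D σ)
    (Ddg : ∀ (i : Fin 4) {a b : A}, a * b = 1 →
      D (diagonal (Function.update 1 i a)) = D (diagonal (Function.update 1 0 a)))
    (H : A → Prop) (H0 : H 0) (Hn : ∀ {a}, H a → H (-a))
    (Dz : ∀ {σ τ}, σ * τ = 1 → (∀ a b, H (σ a b)) → D σ = 0) (p0 p1 : A →+* A)
    (D0 : ∀ {σ τ}, σ * τ = 1 → D (σ.map p0) = D σ) (D1 : ∀ {σ τ}, σ * τ = 1 → D (σ.map p1) = D σ)
    (t : A) (t0 : p0 t = 0) (t1 : p1 t = 1) {x y : Fin 3 → A} (hxy : x ⬝ᵥ y = 1)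
    (Dxy : D (Vm x y) = -1) (hy : ∀ i, p1 (y i) = y i) {C G : Matrix (Fin 3) (Fin 3) A}
    (hC : C * G = 1) {g n : Fin 3 → A} (hg : g ⬝ᵥ n = 1) (g0 : ∀ i, H (p0 (g i)))
    (n0 : ∀ i, H (p0 (n i))) (hC1 : ∀ i j, p1 (C i j) = C i j)
    (hn1 : ∀ i, p1 (p1 (n i)) = p1 (n i)) (hx : C *ᵥ (fun i => p1 (g i)) = x) : False := by
  let g1 : Fin 3 → A := fun i => p1 (g i)
  let n1 : Fin 3 → A := fun i => p1 (n i)
  let w : Fin 3 → A := Cᵀ *ᵥ y
  let r : Fin 3 → A := (w - n1) ⨯₃ n1
  have e1 : g1 ⬝ᵥ n1 = 1 := by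
    have := congrArg p1 hg
    simpa [dotProduct] using this
  have e2 : g1 ⬝ᵥ w = 1 := by
    rw [dotProduct_mulVec, vecMul_transpose, hx, hxy]
  have e3 : g ⬝ᵥ (n + t • g ⨯₃ r) = 1 := by
    rw [dotProduct_add, dotProduct_smul, dot_self_cross, hg, smul_zero, add_zero]
  have e4 : ∀ i, p1 (w i) = w i := fun i => by
    simp [w, Matrix.mulVec, dotProduct, hC1, hy]
  have e5 : ∀ i, p1 (r i) = r i := fun i => by
    fin_cases i <;> simp [r, n1, cross_apply, e4, hn1]
  have e6 : (fun i => p1 ((n + t • g ⨯₃ r) i)) = w := by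
    have : (fun i => p1 ((n + t • g ⨯₃ r) i)) = n1 + g1 ⨯₃ r := by
      funext i
      fin_cases i <;> simp [t1, n1, g1, cross_apply, e5]
    rw [this, cross_cross_eq_smul_sub_smul', e1, sub_dotProduct, dotProduct_comm w,
      dotProduct_comm n1, e1, e2, sub_self, zero_smul, one_smul]
    abel
  have d0 := D0 (Vm_mul e3)
  have d1 := D1 (Vm_mul e3)
  rw [Vm_map, e6] at d1
  rw [Dz (τ := (-Vm (n + t • g ⨯₃ r) g).map p0) (by
    rw [← Matrix.map_mul, Vm_mul e3, Matrix.map_one _ (map_zero _) (map_one _)]) (by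
      intro a b
      rw [Vm_map]
      fin_cases a <;> fin_cases b <;> simp [Vm, t0] <;>
        first | exact H0 | exact g0 _ | exact n0 _ | exact Hn (g0 _) | exact Hn (n0 _))] at d0
  have hK := Km_mul hC
  have hK' : (Km C)ᵀ * (Km G)ᵀ = 1 := by
    rw [← transpose_mul, mul_eq_one_comm.mp hK, transpose_one]
  have d2 : D (Km C * Vm g1 w * (Km C)ᵀ) = D (Km C) + D (Vm g1 w) + D (Km C) := by
    rw [Dmul (mul_inv' hK (Vm_mul e2)) hK', Dmul hK (Vm_mul e2), Dtr hK]
  have hd : C.det * G.det = 1 := by rw [← det_mul, hC, det_one]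
  have hd' : G.det * C.det = 1 := by rw [mul_comm, hd]
  rw [Km_Vm, hx, mulVec_mulVec, ← transpose_mul, mul_adjugate, transpose_smul, transpose_one,
    smul_mulVec, one_mulVec, Vm_smul _ _ hd] at d2
  have k1 := mul_inv' (Vm_mul hxy) (diag_inv 0 hd')
  have k2 := mul_inv' (diag_inv 3 hd) k1
  have k3 := mul_inv' (diag_inv 2 hd) k2
  rw [Dmul (diag_inv 1 hd) k3, Dmul (diag_inv 2 hd) k2, Dmul (diag_inv 3 hd) k1,
    Dmul (Vm_mul hxy) (diag_inv 0 hd'), Dxy, Ddg 1 hd, Ddg 2 hd, Ddg 3 hd,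
    Dinv (diag_inv 0 hd)] at d2
  change D (Vm g1 w) = _ at d1
  omega

end gen

variable {k : Type} [Field k]

/-- The first row of variables. -/
noncomputable def xr (k : Type) [Field k] (i : Fin 3) : RR k := mk k (xx k i)

/-- The second row of variables. -/
noncomputable def yr (k : Type) [Field k] (i : Fin 3) : RR k := mk k (yy k i)

theorem xr_yr : xr k ⬝ᵥ yr k = 1 := by
  rw [← mk_qq]
  simp [xr, yr, dotProduct, Fin.sum_univ_three, xx, yy, qq]

theorem ev_yr (c : k) (i : Fin 3) : ev c (yr k i) = yr k i := by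
  rw [yr, ev_mk]
  fin_cases i <;> simp [yy, ev0]

theorem ev_t (c : k) : ev c (mk k (MvPolynomial.X 7)) = mk k (MvPolynomial.C c) := by
  rw [ev_mk]
  simp [ev0, mk_X6]

theorem Dm_xy : Dm (Vm (xr k) (yr k)) = -1 := by
  have hx : ∀ i, Hg 1 (xr k i) := fun i => Hg.of_hom (xx_hom i)
  have hy : ∀ i, Hg (-1) (yr k i) := fun i => Hg.of_hom (yy_hom i)
  refine Dm_neg_one (Vm_mul xr_yr) fun a b => ?_
  fin_cases a <;> fin_cases b <;> simp [Vm] <;>
    first | exact Hg.zero _ | exact hx _ | exact hy _ | exact (hx _).neg | exact (hy _).neg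

theorem no_comp {C G : Matrix (Fin 3) (Fin 3) (RR k)} (hC : C * G = 1) {g n : Fin 3 → RR k}
    (hg : g ⬝ᵥ n = 1) (g0 : ∀ i, Hg 0 (ev 0 (g i))) (n0 : ∀ i, Hg 0 (ev 0 (n i)))
    (hC1 : ∀ i j, ev 1 (C i j) = C i j) (hn1 : ∀ i, ev 1 (ev 1 (n i)) = ev 1 (n i))
    (hx : C *ᵥ (fun i => ev 1 (g i)) = xr k) : False := by
  refine no_comp_gen (A := RR k) Dm ?_ ?_ ?_ ?_ (Hg 0) (Hg.zero 0) Hg.neg ?_ (ev 0) (ev 1)
    ?_ ?_ (mk k (MvPolynomial.X 7)) ?_ ?_ (x := xr k) (y := yr k) ?_ ?_ ?_ (C := C) (G := G) ?_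
    (g := g) (n := n) ?_ ?_ ?_ ?_ ?_ ?_
  · exact Dm_mul
  · exact Dm_inv
  · exact Dm_transpose
  · exact Dm_diag
  · exact Dm_zero
  · exact fun h => Dm_ev h 0
  · exact fun h => Dm_ev h 1
  · rw [ev_t, MvPolynomial.C_0, map_zero]
  · rw [ev_t, MvPolynomial.C_1, map_one]
  · exact xr_yr
  · exact Dm_xy
  · exact ev_yr 1
  · exact hC
  · exact hg
  · exact g0
  · exact n0
  · exact hC1
  · exact hn1
  · exact hx

end Pool.Agent.P.MP_260cc8_ag.af
end

-- part Pool.Agent.P.MP_260cc8_ag.af.Pr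
section

/-!
The prime ideal `(x.y - 1, x × w)` in nine variables.
-/

namespace Pool.Agent.P.MP_260cc8_ag.af

open MvPolynomial

variable {k : Type} [Field k]

/-- The polynomial ring in nine variables. -/
abbrev P9 (k : Type) [Field k] := MvPolynomial (Fin 9) k

/-- The quadric. -/
noncomputable def q9 (k : Type) [Field k] : P9 k := X 0 * X 3 + X 1 * X 4 + X 2 * X 5 - 1

/-- The ideal. -/
noncomputable def J9 (k : Type) [Field k] : Ideal (P9 k) :=
  Ideal.span {X 0 * X 3 + X 1 * X 4 + X 2 * X 5 - 1, X 1 * X 8 - X 2 * X 7, X 2 * X 6 - X 0 * X 8,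
    X 0 * X 7 - X 1 * X 6}

theorem j0 : q9 k ∈ J9 k := Ideal.subset_span (by simp [q9])

theorem j1 : (X 1 * X 8 - X 2 * X 7 : P9 k) ∈ J9 k := Ideal.subset_span (by simp)

theorem j2 : (X 2 * X 6 - X 0 * X 8 : P9 k) ∈ J9 k := Ideal.subset_span (by simp)

theorem j3 : (X 0 * X 7 - X 1 * X 6 : P9 k) ∈ J9 k := Ideal.subset_span (by simp)

theorem j_comb {p : P9 k} (a b c d : P9 k) (h : p = a * q9 k + b * (X 1 * X 8 - X 2 * X 7) +
    c * (X 2 * X 6 - X 0 * X 8) + d * (X 0 * X 7 - X 1 * X 6)) : p ∈ J9 k := by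
  rw [h]
  exact add_mem (add_mem (add_mem (Ideal.mul_mem_left _ _ j0) (Ideal.mul_mem_left _ _ j1))
    (Ideal.mul_mem_left _ _ j2)) (Ideal.mul_mem_left _ _ j3)

theorem J9_le {B : Type} [CommRing B] (f : P9 k →+* B) (K : Ideal B) (h0 : f (q9 k) ∈ K)
    (h1 : f (X 1 * X 8 - X 2 * X 7) ∈ K) (h2 : f (X 2 * X 6 - X 0 * X 8) ∈ K)
    (h3 : f (X 0 * X 7 - X 1 * X 6) ∈ K) {p : P9 k} (hp : p ∈ J9 k) : f p ∈ K := by
  have : J9 k ≤ K.comap f := by
    rw [J9, Ideal.span_le]
    rintro _ (rfl | rfl | rfl | rfl)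
    exacts [h0, h1, h2, h3]
  exact this hp

theorem zmem {B : Type} [CommRing B] {K : Ideal B} {a : B} (h : a = 0) : a ∈ K :=
  h ▸ K.zero_mem

/-- The form `y.w`. -/
noncomputable def yw (k : Type) [Field k] : P9 k := X 3 * X 6 + X 4 * X 7 + X 5 * X 8

/-- Lifts of a basis of the conormal module. -/
noncomputable def F9 (k : Type) [Field k] : Fin 3 → P9 k :=
  ![(q9 k + 1) * X 6 - yw k * X 0 + q9 k * X 0, (q9 k + 1) * X 7 - yw k * X 1 + q9 k * X 1,
    (q9 k + 1) * X 8 - yw k * X 2 + q9 k * X 2]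

theorem F9_mem (j : Fin 3) : F9 k j ∈ J9 k := by
  fin_cases j
  · exact j_comb (X 0) 0 (X 5) (-X 4) (by simp [F9, q9, yw]; ring)
  · exact j_comb (X 1) (-X 5) 0 (X 3) (by simp [F9, q9, yw]; ring)
  · exact j_comb (X 2) (X 4) (-X 3) 0 (by simp [F9, q9, yw]; ring)

theorem sq_mem {a p : P9 k} (ha : a ∈ J9 k) (h : p = -q9 k * a) : p ∈ J9 k ^ 2 := by
  rw [h, pow_two]
  exact Ideal.mul_mem_mul (neg_mem j0) ha

theorem F9_span {p : P9 k} (hp : p ∈ J9 k) :
    ∃ c : Fin 3 → P9 k, p - ∑ j, c j * F9 k j ∈ J9 k ^ 2 := by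
  induction hp using Submodule.span_induction with
  | mem p hp =>
    rcases hp with rfl | rfl | rfl | rfl
    · exact ⟨![X 3, X 4, X 5], sq_mem j0 (by simp [Fin.sum_univ_three, F9, q9, yw]; ring)⟩
    · exact ⟨![0, -X 2, X 1], sq_mem j1 (by simp [Fin.sum_univ_three, F9, q9, yw]; ring)⟩
    · exact ⟨![X 2, 0, -X 0], sq_mem j2 (by simp [Fin.sum_univ_three, F9, q9, yw]; ring)⟩
    · exact ⟨![-X 1, X 0, 0], sq_mem j3 (by simp [Fin.sum_univ_three, F9, q9, yw]; ring)⟩
  | zero => exact ⟨0, by simp⟩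
  | add a b _ _ ha hb =>
    obtain ⟨c, hc⟩ := ha
    obtain ⟨d, hd⟩ := hb
    refine ⟨c + d, ?_⟩
    have := add_mem hc hd
    simp only [Pi.add_apply, add_mul, Finset.sum_add_distrib]
    rwa [add_sub_add_comm]
  | smul r a _ ha =>
    obtain ⟨c, hc⟩ := ha
    refine ⟨r • c, ?_⟩
    have := Ideal.mul_mem_left _ r hc
    simp only [Pi.smul_apply, smul_eq_mul, mul_assoc, ← Finset.mul_sum]
    rwa [← mul_sub]

theorem der_sq (i : Fin 9) {p : P9 k} (hp : p ∈ J9 k ^ 2) : pderiv i p ∈ J9 k := by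
  rw [pow_two] at hp
  refine Submodule.mul_induction_on hp (fun a ha b hb => ?_) fun a b ha hb => ?_
  · rw [Derivation.leibniz, smul_eq_mul, smul_eq_mul]
    exact add_mem (Ideal.mul_mem_right _ _ ha) (Ideal.mul_mem_right _ _ hb)
  · rw [map_add]
    exact add_mem ha hb

theorem F9_indep {r : Fin 3 → P9 k} (h : ∑ j, r j * F9 k j ∈ J9 k ^ 2) (j : Fin 3) :
    r j ∈ J9 k := by
  have h1 : ∀ i, ∑ j, r j * pderiv i (F9 k j) ∈ J9 k := by
    intro i
    have := der_sq i h
    simp only [map_sum, Derivation.leibniz, smul_eq_mul, Finset.sum_add_distrib] at this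
    exact (Ideal.add_mem_iff_left _ (Ideal.sum_mem _ fun j _ =>
      Ideal.mul_mem_right _ _ (F9_mem j))).mp this
  have h3 := h1 3
  have h4 := h1 4
  have h5 := h1 5
  have h6 := h1 6
  have h7 := h1 7
  have h8 := h1 8
  simp [Fin.sum_univ_three, F9, q9, yw, Derivation.leibniz, pderiv_X] at h3 h4 h5 h6 h7 h8
  have hs : r 0 * X 0 + r 1 * X 1 + r 2 * X 2 ∈ J9 k :=
    (Submodule.sub_mem_iff_right _ (add_mem (add_mem (Ideal.mul_mem_left _ (X 3) h3)
      (Ideal.mul_mem_left _ (X 4) h4)) (Ideal.mul_mem_left _ (X 5) h5))).mp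
      (j_comb (r 0 * X 0 + r 1 * X 1 + r 2 * X 2) (X 4 * r 2 - X 5 * r 1) (X 5 * r 0 - X 3 * r 2)
        (X 3 * r 1 - X 4 * r 0) (by rw [q9]; ring))
  fin_cases j
  · exact (Submodule.sub_mem_iff_right _ (add_mem h6 (Ideal.mul_mem_left _ (X 3) hs))).mp
      (j_comb (r 0) 0 0 0 (by simp only [q9, Fin.zero_eta]; ring))
  · exact (Submodule.sub_mem_iff_right _ (add_mem h7 (Ideal.mul_mem_left _ (X 4) hs))).mp
      (j_comb (r 1) 0 0 0 (by simp only [q9, Fin.mk_one]; ring))
  · exact (Submodule.sub_mem_iff_right _ (add_mem h8 (Ideal.mul_mem_left _ (X 5) hs))).mp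
      (j_comb (r 2) 0 0 0 (by simp only [q9, Fin.reduceFinMk]; ring))

/-- The classes in the conormal module. -/
noncomputable def c9 (k : Type) [Field k] (j : Fin 3) : (J9 k).Cotangent :=
  (J9 k).toCotangent ⟨F9 k j, F9_mem j⟩

theorem c9_span : Submodule.span (P9 k) (Set.range (c9 k)) = ⊤ := by
  rw [eq_top_iff]
  rintro y -
  obtain ⟨w, rfl⟩ := (J9 k).toCotangent_surjective y
  obtain ⟨c, hc⟩ := F9_span w.2
  rw [Submodule.mem_span_range_iff_exists_fun]
  refine ⟨c, ?_⟩
  simp only [c9, ← map_smul, ← map_sum]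
  rw [eq_comm, Ideal.toCotangent_eq]
  simpa using hc

theorem c9_indep : LinearIndependent (P9 k ⧸ J9 k) (c9 k) := by
  rw [Fintype.linearIndependent_iff]
  intro g hg i
  choose r hr using fun j => Ideal.Quotient.mk_surjective (g j)
  rw [← hr, Ideal.Quotient.eq_zero_iff_mem]
  refine F9_indep ?_ i
  have h1 : ∀ j, g j • c9 k j = r j • c9 k j := fun j => by
    rw [← hr]
    exact algebraMap_smul (P9 k ⧸ J9 k) (r j) (c9 k j)
  simp only [h1] at hg
  simp only [c9, ← map_smul, ← map_sum] at hg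
  rw [Ideal.toCotangent_eq_zero] at hg
  simpa using hg

/-- The basis of the conormal module. -/
noncomputable def b9 (k : Type) [Field k] : Module.Basis (Fin 3) (P9 k ⧸ J9 k) (J9 k).Cotangent :=
  Module.Basis.mk c9_indep (Submodule.span_eq_top_of_span_eq_top (P9 k) _ _ c9_span).ge

theorem q9_irred : Irreducible (q9 k) := by
  have h : q9 k = X 0 * X 3 + (X 1 * X 4 + X 2 * X 5 - 1) := by rw [q9]; ring
  rw [h]
  refine irreducible_mul_X_add _ _ _ (X_ne_zero 0) (by simp) (fun hv => ?_) ?_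
  · rcases Finset.mem_union.mp (vars_sub_subset _ hv) with hv | hv
    · rcases Finset.mem_union.mp (vars_add_subset _ _ hv) with hv | hv <;>
        simpa using vars_mul _ _ hv
    · simp at hv
  · rw [X_prime.irreducible.isRelPrime_iff_not_dvd]
    intro hd
    simpa using map_dvd constantCoeff hd

theorem w_mem (j : Fin 3) : (![X 6, X 7, X 8] j - yw k * ![X 0, X 1, X 2] j : P9 k) ∈ J9 k := by
  fin_cases j
  · exact j_comb (-X 6) 0 (X 5) (-X 4) (by simp [q9, yw]; ring)
  · exact j_comb (-X 7) (-X 5) 0 (X 3) (by simp [q9, yw]; ring)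
  · exact j_comb (-X 8) (X 4) (-X 3) 0 (by simp [q9, yw]; ring)

theorem J9_prime : (J9 k).IsPrime := by
  let φ : P9 k →ₐ[k] P9 k :=
    aeval ![X 0, X 1, X 2, X 3, X 4, X 5, X 6 * X 0, X 6 * X 1, X 6 * X 2]
  let ψ : P9 k →ₐ[k] P9 k := aeval ![X 0, X 1, X 2, X 3, X 4, X 5, yw k, X 7, X 8]
  have h1 : (Ideal.Quotient.mkₐ k (J9 k)).comp (ψ.comp φ) = Ideal.Quotient.mkₐ k (J9 k) := by
    refine algHom_ext fun i => ?_
    simp only [AlgHom.comp_apply, Ideal.Quotient.mkₐ_eq_mk]
    rw [eq_comm, Ideal.Quotient.eq]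
    fin_cases i
    iterate 6 simp [φ, ψ]
    · simpa [φ, ψ] using w_mem (k := k) 0
    · simpa [φ, ψ] using w_mem (k := k) 1
    · simpa [φ, ψ] using w_mem (k := k) 2
  have h2 : φ (q9 k) = q9 k := by simp [φ, q9]
  have h3 : ψ (q9 k) = q9 k := by simp [ψ, q9]
  have h4 : J9 k = (Ideal.span {q9 k}).comap φ := by
    ext p
    rw [Ideal.mem_comap]
    refine ⟨fun hp => J9_le φ.toRingHom _ ?_ (zmem ?_) (zmem ?_) (zmem ?_) hp, fun hp => ?_⟩
    · exact Ideal.mem_span_singleton.mpr (dvd_of_eq h2.symm)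
    · simp [φ]
      ring
    · simp [φ]
      ring
    · simp [φ]
      ring
    · obtain ⟨c, hc⟩ := Ideal.mem_span_singleton.mp hp
      have h5 := congrArg (· p) h1
      simp only [AlgHom.comp_apply, Ideal.Quotient.mkₐ_eq_mk] at h5
      rw [← Ideal.Quotient.eq_zero_iff_mem, ← h5, Ideal.Quotient.eq_zero_iff_mem, hc, map_mul, h3]
      exact Ideal.mul_mem_right _ _ j0
  have h6 : (Ideal.span {q9 k}).IsPrime :=
    (Ideal.span_singleton_prime q9_irred.ne_zero).mpr q9_irred.prime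
  rw [h4]
  exact Ideal.comap_isPrime _ _

theorem J9_smooth : Algebra.Smooth k (P9 k ⧸ J9 k) := by
  let f := Ideal.Quotient.mkₐ k (J9 k)
  have hf : RingHom.ker f.toRingHom = J9 k := Ideal.Quotient.mkₐ_ker k _
  let θ : P9 k →ₐ[k] P9 k := aeval ![X 0, X 1, X 2, (1 - q9 k) * X 3, (1 - q9 k) * X 4,
    (1 - q9 k) * X 5, yw k * X 0, yw k * X 1, yw k * X 2]
  let g0 := (Ideal.Quotient.mkₐ k (RingHom.ker f.toRingHom ^ 2)).comp θ
  have hg : ∀ p ∈ J9 k, g0 p = 0 := by
    intro p hp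
    simp only [g0, AlgHom.comp_apply, Ideal.Quotient.mkₐ_eq_mk]
    rw [Ideal.Quotient.eq_zero_iff_mem, hf]
    refine J9_le θ.toRingHom _ (sq_mem j0 ?_) (zmem ?_) (zmem ?_) (zmem ?_) hp
    · simp [θ, q9]
      ring
    · simp [θ]
      ring
    · simp [θ]
      ring
    · simp [θ]
      ring
  have h1 : Algebra.FormallySmooth k (P9 k ⧸ J9 k) := by
    refine Algebra.FormallySmooth.of_split f (Ideal.Quotient.liftₐ _ g0 hg) ?_
    refine Ideal.Quotient.algHom_ext k (algHom_ext fun i => ?_)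
    change Ideal.Quotient.mk (J9 k) (θ (X i)) = Ideal.Quotient.mk (J9 k) (X i)
    rw [eq_comm, Ideal.Quotient.eq]
    fin_cases i
    iterate 3 simp [θ]
    · exact j_comb (X 3) 0 0 0 (by simp [θ]; ring)
    · exact j_comb (X 4) 0 0 0 (by simp [θ]; ring)
    · exact j_comb (X 5) 0 0 0 (by simp [θ]; ring)
    · simpa [θ] using w_mem (k := k) 0
    · simpa [θ] using w_mem (k := k) 1
    · simpa [θ] using w_mem (k := k) 2
  have h2 : Algebra.FinitePresentation k (P9 k ⧸ J9 k) :=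
    Algebra.FinitePresentation.quotient (IsNoetherian.noetherian _)
  exact ⟨h1, h2⟩

end Pool.Agent.P.MP_260cc8_ag.af
end

-- part Pool.Agent.P.MP_260cc8_ag.af.Gen
section

/-!
The prime ideal `(x.y - 1, x × w)` needs four generators.
-/

namespace Pool.Agent.P.MP_260cc8_ag.af

open MvPolynomial

variable {k : Type} [Field k]

theorem hom_ext9 {B : Type} [CommRing B] {f g : P9 k →+* B} (h1 : ∀ r, f (C r) = g (C r))
    (h2 : ∀ i, f (X i) = g (X i)) (p : P9 k) : f p = g p :=
  congrArg (· p) (MvPolynomial.ringHom_ext h1 h2)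

/-- Setting `w` to zero. -/
noncomputable def ze (k : Type) [Field k] : P9 k →ₐ[k] P9 k :=
  aeval ![X 0, X 1, X 2, X 3, X 4, X 5, 0, 0, 0]

/-- The map to the eight variable ring setting `w` to zero. -/
noncomputable def m0 (k : Type) [Field k] : P9 k →ₐ[k] PP k :=
  aeval ![X 0, X 1, X 2, X 3, X 4, X 5, 0, 0, 0]

/-- The contraction of affine space. -/
noncomputable def s0 (k : Type) [Field k] : P9 k →ₐ[k] PP k :=
  aeval ![X 7 * X 0, X 7 * X 1, X 7 * X 2, X 7 * X 3, X 7 * X 4, X 7 * X 5, 0, 0, 0]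

theorem m0_ze (p : P9 k) : m0 k (ze k p) = m0 k p := by
  have : (m0 k).comp (ze k) = m0 k := algHom_ext fun i => by
    fin_cases i <;> simp [m0, ze]
  exact congrArg (· p) this

theorem ev_m0 (c : k) (p : P9 k) : aeval (ev0 c) (m0 k p) = m0 k p := by
  have : (aeval (ev0 c)).comp (m0 k) = m0 k := algHom_ext fun i => by
    fin_cases i <;> simp [m0, ev0]
  exact congrArg (· p) this

theorem ev_s0_zero (p : P9 k) : aeval (ev0 (0 : k)) (s0 k p) = C (constantCoeff p) := by
  refine hom_ext9 (f := ((aeval (ev0 (0 : k))).comp (s0 k)).toRingHom)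
    (g := C.comp constantCoeff) (fun r => by simp [s0]) (fun i => ?_) p
  fin_cases i <;> simp [s0, ev0]

theorem ev_s0_one (p : P9 k) : ev 1 (mk k (s0 k p)) = mk k (m0 k p) := by
  rw [ev_mk]
  refine hom_ext9 (f := (mk k).comp ((aeval (ev0 (1 : k))).comp (s0 k)).toRingHom)
    (g := (mk k).comp (m0 k).toRingHom) (fun r => by simp [s0, m0]) (fun i => ?_) p
  fin_cases i <;> simp [s0, m0, ev0, mk_X6]

theorem m0_J9 {p : P9 k} (hp : p ∈ J9 k) : mk k (m0 k p) = 0 := by
  refine J9_le ((mk k).comp (m0 k).toRingHom) ⊥ ?_ (zmem ?_) (zmem ?_) (zmem ?_) hp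
  · have : m0 k (q9 k) = qq k - 1 := by simp [m0, q9, qq]
    change mk k (m0 k (q9 k)) = 0
    rw [this, map_sub, mk_qq, map_one, sub_self]
  all_goals simp [m0]

theorem not_three (f : Fin 3 → P9 k) (hf : Ideal.span (Set.range f) = J9 k) : False := by
  have hfm : ∀ i, f i ∈ J9 k := fun i => hf ▸ Ideal.subset_span ⟨i, rfl⟩
  have h1 : ∀ {p}, p ∈ J9 k → ∃ c : Fin 3 → P9 k, ∑ i, c i * f i = p := fun hp =>
    Ideal.mem_span_range_iff_exists_fun.mp (hf ▸ hp)
  choose C hC using fun j => h1 (F9_mem j)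
  choose G hG using fun i => F9_span (hfm i)
  obtain ⟨n, hn⟩ := h1 j0
  have h2 : ∀ j l, (if j = l then 1 else 0) - ∑ i, C j i * G i l ∈ J9 k := by
    intro j
    refine F9_indep ?_
    have : ∑ l, ((if j = l then 1 else 0) - ∑ i, C j i * G i l) * F9 k l =
        ∑ i, C j i * (f i - ∑ l, G i l * F9 k l) := by
      simp only [sub_mul, mul_sub, Finset.sum_sub_distrib, hC, ite_mul, one_mul, zero_mul,
        Finset.sum_ite_eq, Finset.mem_univ, if_true, Finset.sum_mul, Finset.mul_sum, mul_assoc]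
      rw [Finset.sum_comm]
    rw [this]
    exact Ideal.sum_mem _ fun i _ => Ideal.mul_mem_left _ _ (hG i)
  have hq : ze k (q9 k) = q9 k := by simp [ze, q9]
  have h3 : ∀ i, ∃ g, ze k (f i) = q9 k * g := fun i => by
    refine Ideal.mem_span_singleton.mp
      (J9_le (ze k).toRingHom _ ?_ (zmem ?_) (zmem ?_) (zmem ?_) (hfm i))
    · exact Ideal.mem_span_singleton.mpr (dvd_of_eq hq.symm)
    all_goals simp [ze]
  choose g hg using h3
  have hq0 : q9 k ≠ 0 := q9_irred.ne_zero
  have h4 : ∑ i, g i * ze k (n i) = 1 := by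
    refine mul_left_cancel₀ hq0 ?_
    rw [mul_one, Finset.mul_sum]
    conv_rhs => rw [← hq, ← hn, map_sum]
    exact Finset.sum_congr rfl fun i _ => by rw [map_mul, hg]; ring
  have h5 : ∀ j, ∑ i, ze k (C j i) * g i = ![X 0, X 1, X 2] j := fun j => by
    refine mul_left_cancel₀ hq0 ?_
    have : ze k (F9 k j) = q9 k * ![X 0, X 1, X 2] j := by
      fin_cases j <;> simp [F9, q9, ze, yw]
    rw [← this, ← hC, map_sum, Finset.mul_sum]
    exact Finset.sum_congr rfl fun i _ => by rw [map_mul, hg]; ring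
  refine no_comp (k := k) (C := Matrix.of fun j i => mk k (m0 k (C j i)))
    (G := Matrix.of fun j i => mk k (m0 k (G j i))) ?_ (g := fun i => mk k (s0 k (g i)))
    (n := fun i => mk k (s0 k (ze k (n i)))) ?_ (fun i => ?_) (fun i => ?_) (fun i j => ?_)
    (fun i => ?_) ?_
  · ext j l
    have := m0_J9 (h2 j l)
    rw [map_sub, map_sub, sub_eq_zero, map_sum, map_sum] at this
    simp only [map_mul] at this
    rw [Matrix.mul_apply, Matrix.one_apply]
    refine this.symm.trans ?_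
    split_ifs <;> simp
  · have := congrArg (fun p => mk k (s0 k p)) h4
    simpa only [map_sum, map_mul, map_one, dotProduct] using this
  · rw [ev_mk, ev_s0_zero]
    exact Hg.C _
  · rw [ev_mk, ev_s0_zero]
    exact Hg.C _
  · rw [Matrix.of_apply, ev_mk, ev_m0]
  · rw [ev_s0_one, ev_mk, ev_m0]
  · funext j
    have := congrArg (fun p => mk k (m0 k p)) (h5 j)
    simp only [map_sum, map_mul, m0_ze] at this
    simp only [ev_s0_one]
    refine this.trans ?_
    fin_cases j <;> simp [xr, xx, m0]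

theorem mu_cot : sInf {m : ℕ | ∃ g : Fin m → (J9 k).Cotangent,
    Submodule.span (P9 k) (Set.range g) = ⊤} = 3 := by
  have := (J9_prime (k := k)).ne_top
  have := Ideal.Quotient.nontrivial_iff.mpr this
  refine le_antisymm (Nat.sInf_le ⟨_, c9_span⟩) (le_csInf ⟨3, _, c9_span⟩ ?_)
  rintro m ⟨g, hg⟩
  have h1 := finrank_le_of_span_eq_top
    (Submodule.span_eq_top_of_span_eq_top (P9 k) (P9 k ⧸ J9 k) _ hg)
  rwa [Module.finrank_eq_card_basis (b9 k), Fintype.card_fin, Fintype.card_fin] at h1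

theorem mu_J9 : sInf {m : ℕ | ∃ f : Fin m → P9 k, Ideal.span (Set.range f) = J9 k} = 4 := by
  have h4 : 4 ∈ {m : ℕ | ∃ f : Fin m → P9 k, Ideal.span (Set.range f) = J9 k} :=
    ⟨![X 0 * X 3 + X 1 * X 4 + X 2 * X 5 - 1, X 1 * X 8 - X 2 * X 7, X 2 * X 6 - X 0 * X 8,
      X 0 * X 7 - X 1 * X 6], by
      simp only [Matrix.range_cons, Matrix.range_empty, Set.union_empty, Set.singleton_union, J9]⟩
  refine le_antisymm (Nat.sInf_le h4) (le_csInf ⟨4, h4⟩ ?_)
  rintro m ⟨f, hf⟩
  by_contra h2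
  apply not_three (fun i => if hi : (i : ℕ) < m then f ⟨i, hi⟩ else 0)
  rw [← hf]
  apply le_antisymm
  · rw [Ideal.span_le]
    rintro _ ⟨i, rfl⟩
    dsimp only
    split_ifs with hi
    · exact Ideal.subset_span ⟨_, rfl⟩
    · exact Ideal.zero_mem _
  · rw [Ideal.span_le]
    rintro _ ⟨i, rfl⟩
    refine Ideal.subset_span ⟨⟨i, by omega⟩, ?_⟩
    simp

end Pool.Agent.P.MP_260cc8_ag.af
end
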