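import Pool.Agent.P.MP_260cc8_ag.Hairy

/-!
The ideal of the union of the sphere `x^2+y^2+z^2=1, u=v=0` and the plane `x=y=z=0` in real affine
five-space has a conormal module with three generators but cannot be generated by three elements.
-/

namespace Pool.Agent.P.MP_260cc8_ag

open MvPolynomial

abbrev R := MvPolynomial (Fin 5) ℝ

noncomputable def q : R := X 0 ^ 2 + X 1 ^ 2 + X 2 ^ 2

noncomputable def s : Fin 3 → R := ![X 3, X 4, q - 1]

noncomputable def t : Fin 3 → R := ![X 0, X 1, X 2]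

noncomputable def J : Ideal R := Ideal.span (Set.range s) ⊓ Ideal.span (Set.range t)

theorem s_mem (i : Fin 3) : s i ∈ Ideal.span (Set.range s) := Ideal.subset_span ⟨i, rfl⟩

theorem t_mem (i : Fin 3) : t i ∈ Ideal.span (Set.range t) := Ideal.subset_span ⟨i, rfl⟩

theorem q_mem : q ∈ Ideal.span (Set.range t) := by
  rw [Ideal.mem_span_range_iff_exists_fun]
  refine ⟨t, ?_⟩
  simp only [Fin.sum_univ_three, t, q, Matrix.cons_val_zero, Matrix.cons_val_one, Matrix.cons_val]
  ring

theorem q_sub_mem : q - 1 ∈ Ideal.span (Set.range s) := s_mem 2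

theorem q_mul_s (i : Fin 3) : q * s i ∈ J :=
  ⟨Ideal.mul_mem_left _ _ (s_mem i), Ideal.mul_mem_right _ _ q_mem⟩

theorem q_mul_t (i : Fin 3) : (q - 1) * t i ∈ J :=
  ⟨Ideal.mul_mem_right _ _ q_sub_mem, Ideal.mul_mem_left _ _ (t_mem i)⟩

theorem J_ne_top : J ≠ ⊤ := by
  intro h
  have h1 : (1 : R) ∈ J := h ▸ Submodule.mem_top
  obtain ⟨c, hc⟩ := Ideal.mem_span_range_iff_exists_fun.mp h1.2
  have := congrArg (eval (0 : Fin 5 → ℝ)) hc
  simp [Fin.sum_univ_three, t] at this

noncomputable def F (i : Fin 3) : J :=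
  ⟨q * (q * s i) + (q - 1) * ((q - 1) * t i),
    J.add_mem (J.mul_mem_left _ (q_mul_s i)) (J.mul_mem_left _ (q_mul_t i))⟩

theorem cotangent_span :
    Submodule.span R (Set.range fun i => J.toCotangent (F i)) = ⊤ := by
  rw [eq_top_iff]
  rintro y -
  obtain ⟨w, rfl⟩ := J.toCotangent_surjective y
  obtain ⟨α, hα⟩ := Ideal.mem_span_range_iff_exists_fun.mp w.2.1
  obtain ⟨β, hβ⟩ := Ideal.mem_span_range_iff_exists_fun.mp w.2.2
  have hcop : IsCoprime q (q - 1) := ⟨1, -1, by ring⟩
  obtain ⟨P, Q, hPQ⟩ := hcop.pow (m := 4) (n := 4)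
  rw [Submodule.mem_span_range_iff_exists_fun]
  refine ⟨fun i => P * q ^ 2 * α i + Q * (q - 1) ^ 2 * β i, ?_⟩
  simp only [← map_smul, ← map_sum]
  rw [Ideal.toCotangent_eq]
  have hab : q * (q - 1) ∈ J := q_mul_s 2
  have hsq : (q * (q - 1)) ^ 2 ∈ J ^ 2 := Ideal.pow_mem_pow hab 2
  have key : ((∑ i, (P * q ^ 2 * α i + Q * (q - 1) ^ 2 * β i) • F i : J) : R) - w =
      (q * (q - 1)) ^ 2 * (P * ∑ i, α i * t i + Q * ∑ i, β i * s i) := by
    simp only [Fin.sum_univ_three] at hα hβ ⊢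
    simp only [F, Submodule.coe_add, Submodule.coe_smul, smul_eq_mul]
    linear_combination P * q ^ 4 * hα + Q * (q - 1) ^ 4 * hβ + (w : R) * hPQ
  rw [key]
  exact Ideal.mul_mem_right _ _ hsq

/-- The point of the subspace `u = v = 0` with given first three coordinates. -/
def pt (p : Fin 3 → ℝ) : Fin 5 → ℝ := ![p 0, p 1, p 2, 0, 0]

theorem continuous_ev (r : R) : Continuous fun p => eval (pt p) r := by
  refine (MvPolynomial.continuous_eval r).comp (continuous_pi fun i => ?_)
  fin_cases i <;> simp [pt] <;> fun_prop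

theorem ev_q (p : Fin 3 → ℝ) : eval (pt p) q = p ⬝ᵥ p := by
  simp [q, pt, dotProduct, Fin.sum_univ_three]
  ring

theorem ev_t (p : Fin 3 → ℝ) (j : Fin 3) : eval (pt p) (t j) = p j := by
  fin_cases j <;> simp [t, pt]

theorem ev_sum_s (p : Fin 3 → ℝ) (m : Fin 3 → R) :
    eval (pt p) (∑ l, m l * s l) = eval (pt p) (m 2) * (p ⬝ᵥ p - 1) := by
  simp [Fin.sum_univ_three, s, ev_q]
  simp [pt]

theorem deriv_eval (x : Fin 5 → ℝ) (j : Fin 5) (hs : ∀ l, eval x (s l) = 0) (h : Fin 3 → R)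
    (M : Fin 3 → Fin 3 → R) :
    eval x (pderiv j (∑ i, h i * ∑ l, M i l * s l)) =
      ∑ i, eval x (h i) * ∑ l, eval x (M i l) * eval x (pderiv j (s l)) := by
  simp [Derivation.leibniz, hs]

theorem not_three (f : Fin 3 → R) : Ideal.span (Set.range f) ≠ J := by
  intro hf
  have hfJ : ∀ i, f i ∈ J := fun i => hf ▸ Ideal.subset_span ⟨i, rfl⟩
  choose M hM using fun i => Ideal.mem_span_range_iff_exists_fun.mp (hfJ i).1
  choose D hD using fun i => Ideal.mem_span_range_iff_exists_fun.mp (hfJ i).2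
  obtain ⟨h, hh⟩ := Ideal.mem_span_range_iff_exists_fun.mp (hf.symm ▸ q_mul_s 0)
  choose e he using fun j => Ideal.mem_span_range_iff_exists_fun.mp (hf.symm ▸ q_mul_t j)
  let g : (Fin 3 → ℝ) → (Fin 3 → ℝ) := fun p i => eval (pt p) (M i 2)
  let a : (Fin 3 → ℝ) → (Fin 3 → ℝ) := fun p i => eval (pt p) (M i 0)
  let E : (Fin 3 → ℝ) → Matrix (Fin 3) (Fin 3) ℝ := fun p =>
    Matrix.of fun i j => p j * g p i - eval (pt p) (D i j)
  let H : (Fin 3 → ℝ) → Matrix (Fin 3) (Fin 3) ℝ := fun p =>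
    Matrix.of fun j i => eval (pt p) (e j i)
  have hfev : ∀ p i, eval (pt p) (f i) = g p i * (p ⬝ᵥ p - 1) := fun p i => by
    rw [← hM i, ev_sum_s]
  have hE : ∀ p, (E p).mulVec p = g p := by
    intro p
    funext i
    have h1 := hfev p i
    rw [← hD i] at h1
    simp only [map_add, map_mul, ev_t, Fin.sum_univ_three, dotProduct] at h1
    simp only [E, Matrix.mulVec, dotProduct, Matrix.of_apply, Fin.sum_univ_three]
    linear_combination -h1
  have hH : ∀ p, p ⬝ᵥ p ≠ 1 → (H p).mulVec (g p) = p := by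
    intro p hp
    funext j
    have h1 := congrArg (eval (pt p)) (he j)
    simp only [map_add, map_mul, ev_t, hfev, map_sub, ev_q, map_one, Fin.sum_univ_three] at h1
    simp only [H, Matrix.mulVec, Matrix.of_apply]
    apply mul_left_cancel₀ (sub_ne_zero.mpr hp)
    rw [← h1]
    simp only [dotProduct, Fin.sum_univ_three]
    ring
  have hgc : Continuous g := continuous_pi fun i => continuous_ev _
  have hac : Continuous a := continuous_pi fun i => continuous_ev _
  have hEc : Continuous E := by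
    refine continuous_matrix fun i j => ?_
    have h1 : Continuous fun p => g p i := (continuous_apply i).comp hgc
    have h2 := continuous_ev (D i j)
    simp only [E, Matrix.of_apply]
    fun_prop
  have hHc : Continuous H := continuous_matrix fun j i => continuous_ev _
  let G : ℝ → (Fin 3 → ℝ) → (Fin 3 → ℝ) := fun τ p => (E (τ • p)).mulVec p
  have hGc : Continuous fun x : ℝ × (Fin 3 → ℝ) => G x.1 x.2 :=
    (hEc.comp (continuous_fst.smul continuous_snd)).matrix_mulVec continuous_snd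
  have hHG : ∀ τ p, p ⬝ᵥ p = 1 → (H (τ • p)).mulVec (G τ p) = p := by
    intro τ p hp
    have hc : Continuous fun τ : ℝ => (H (τ • p)).mulVec (G τ p) :=
      (hHc.comp (continuous_id.smul continuous_const)).matrix_mulVec
        (hGc.comp (f := fun τ : ℝ => (τ, p)) (by fun_prop))
    have hd : Dense (({0, 1, -1} : Set ℝ)ᶜ) :=
      (Set.toFinite _).countable.dense_compl ℝ
    refine congrFun (hc.ext_on hd continuous_const fun σ hσ => ?_) τ
    simp only [Set.mem_compl_iff, Set.mem_insert_iff, Set.mem_singleton_iff, not_or] at hσ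
    obtain ⟨h0, h1, h2⟩ := hσ
    have hn : (σ • p) ⬝ᵥ (σ • p) ≠ 1 := by
      rw [smul_dotProduct, dotProduct_smul, hp]
      intro hh'
      simp only [smul_eq_mul, mul_one] at hh'
      rcases mul_self_eq_one_iff.mp hh' with h3 | h3
      · exact h1 h3
      · exact h2 h3
    have h3 := hH _ hn
    rw [← hE, Matrix.mulVec_smul, Matrix.mulVec_smul] at h3
    exact smul_right_injective _ h0 h3
  have hne : ∀ τ p, p ⬝ᵥ p = 1 → G τ p ≠ 0 := by
    intro τ p hp h0
    have := hHG τ p hp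
    rw [h0, Matrix.mulVec_zero] at this
    rw [← this] at hp
    simp at hp
  have h0 : ∀ p, p ⬝ᵥ p = 1 → (H 0).mulVec (G 0 p) = p := by
    intro p hp
    have := hHG 0 p hp
    rwa [zero_smul] at this
  have hdet : (H 0).det ≠ 0 := by
    have h1 : H 0 * E 0 = 1 := by
      ext i k
      have := h0 (Pi.single k 1) (by simp)
      simp only [G, zero_smul] at this
      rw [Matrix.mulVec_mulVec, Matrix.mulVec_single_one] at this
      have h2 : (H 0 * E 0) i k = (Pi.single k (1 : ℝ) : Fin 3 → ℝ) i := congrFun this i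
      rw [h2, Matrix.one_apply, Pi.single_apply]
    intro h2
    have := congrArg Matrix.det h1
    rw [Matrix.det_mul, h2, zero_mul, Matrix.det_one] at this
    exact zero_ne_one this
  obtain ⟨p, hp, c, hc⟩ := hairy_homotopy G hGc hne (H 0) hdet h0 a hac
  have hG1 : G 1 p = g p := by
    simp only [G, one_smul, hE]
  rw [hG1] at hc
  have hs : ∀ l, eval (pt p) (s l) = 0 := by
    intro l
    fin_cases l
    · simp [s, pt]
    · simp [s, pt]
    · simp [s, ev_q, hp]
  have hw : q * s 0 = ∑ i, h i * ∑ l, M i l * s l := by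
    rw [← hh]
    simp only [hM]
  have hd := fun j => deriv_eval (pt p) j hs h M
  simp only [← hw] at hd
  have hq := ev_q p
  rw [hp] at hq
  have d3 := hd 3
  have d0 := hd 0
  have d1 := hd 1
  have d2 := hd 2
  have c0 : eval (pt p) (M 0 0) = c * eval (pt p) (M 0 2) := congrFun hc 0
  have c1 : eval (pt p) (M 1 0) = c * eval (pt p) (M 1 2) := congrFun hc 1
  have c2 : eval (pt p) (M 2 0) = c * eval (pt p) (M 2 2) := congrFun hc 2
  simp only [dotProduct, Fin.sum_univ_three] at hp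
  have x0 : pt p 0 = p 0 := rfl
  have x1 : pt p 1 = p 1 := rfl
  have x2 : pt p 2 = p 2 := rfl
  have x3 : pt p 3 = 0 := rfl
  simp [Derivation.leibniz, s, q, Fin.sum_univ_three, pderiv_X, x0, x1, x2, x3]
    at d0 d1 d2 d3
  rw [c0, c1, c2] at d3
  have : (1 : ℝ) = 0 := by
    linear_combination (-1 : ℝ) * hp + d3 + c / 2 * (p 0 * d0 + p 1 * d1 + p 2 * d2) * (-1)
      - c * (eval (pt p) (h 0) * eval (pt p) (M 0 2) + eval (pt p) (h 1) * eval (pt p) (M 1 2)
        + eval (pt p) (h 2) * eval (pt p) (M 2 2)) * hp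
  exact one_ne_zero this

theorem main :
    ¬ (∀ (k : Type) [Field k] (n : ℕ), 1 ≤ n →
      ∀ I : Ideal (MvPolynomial (Fin n) k), I ≠ ⊤ →
        sInf {m : ℕ | ∃ f : Fin m → MvPolynomial (Fin n) k,
            Ideal.span (Set.range f) = I} =
        sInf {m : ℕ | ∃ g : Fin m → I.Cotangent,
            Submodule.span (MvPolynomial (Fin n) k) (Set.range g) = ⊤}) := by
  intro hall
  have h1 := hall ℝ 5 (by norm_num) J J_ne_top
  have h2 : sInf {m : ℕ | ∃ g : Fin m → J.Cotangent, Submodule.span R (Set.range g) = ⊤} ≤ 3 :=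
    Nat.sInf_le ⟨_, cotangent_span⟩
  have hne : {m : ℕ | ∃ f : Fin m → R, Ideal.span (Set.range f) = J}.Nonempty := by
    obtain ⟨n, f, hf⟩ :=
      Submodule.fg_iff_exists_fin_generating_family.mp (IsNoetherian.noetherian J)
    exact ⟨n, f, hf⟩
  obtain ⟨f, hf⟩ := Nat.sInf_mem hne
  rw [← h1] at h2
  generalize sInf {m : ℕ | ∃ f : Fin m → R, Ideal.span (Set.range f) = J} = m at f hf h2
  apply not_three (fun i => if hi : (i : ℕ) < m then f ⟨i, hi⟩ else 0)
  rw [← hf]
  apply le_antisymm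
  · rw [Ideal.span_le]
    rintro _ ⟨i, rfl⟩
    dsimp only
    split_ifs with hi
    · exact Ideal.subset_span ⟨_, rfl⟩
    · exact Ideal.zero_mem _
  · rw [Ideal.span_le]
    rintro _ ⟨i, rfl⟩
    refine Ideal.subset_span ⟨⟨i, lt_of_lt_of_le i.2 h2⟩, ?_⟩
    simp

end Pool.Agent.P.MP_260cc8_ag
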